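import Pool.Agent.Rnt.Defs

/-!
# Rnt CNT: counting
-/

set_option autoImplicit false

namespace Rnt

open Finset Filter Topology

open scoped Classical

/-- the box `|A| ≤ Y²`, `|r| ≤ Y` -/
noncomputable def Box (Y : ℝ) : Finset (ℤ × ℤ) := (Icc (-⌊Y ^ 2⌋) ⌊Y ^ 2⌋) ×ˢ (Icc (-⌊Y⌋) ⌊Y⌋)

-- BEGIN ap_card
/-- C1. Integers in `[-a, a]` in a residue class (`Int.Ico_filter_dvd_card` or an injection into an interval). -/
theorem ap_card (a : ℝ) (ha : 0 ≤ a) (m : ℕ) (hm : 0 < m) (c : ℤ) :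
    (((Icc (-⌊a⌋) ⌊a⌋).filter (fun n => (m : ℤ) ∣ n - c)).card : ℝ) ≤ 2 * a / m + 1 := by
  have hmR : (0 : ℝ) < m := by exact_mod_cast hm
  have hmZ : (0 : ℤ) < m := by exact_mod_cast hm
  have hfl : (⌊a⌋ : ℝ) ≤ a := Int.floor_le a
  have hfl0 : 0 ≤ ⌊a⌋ := Int.floor_nonneg.2 ha
  rcases ((Icc (-⌊a⌋) ⌊a⌋).filter (fun n => (m : ℤ) ∣ n - c)).eq_empty_or_nonempty with h0 | hne
  · rw [h0, Finset.card_empty]
    have : 0 ≤ 2 * a / m := by positivity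
    push_cast
    linarith
  set S := (Icc (-⌊a⌋) ⌊a⌋).filter (fun n => (m : ℤ) ∣ n - c) with hS
  set x₀ := S.min' hne with hx₀
  have hx₀S : x₀ ∈ S := Finset.min'_mem _ _
  obtain ⟨h1, h2⟩ := Finset.mem_filter.1 hx₀S
  rw [Finset.mem_Icc] at h1
  set L : ℤ := (2 * ⌊a⌋) / m with hL
  have hL0 : 0 ≤ L := Int.ediv_nonneg (by omega) hmZ.le
  have hcard : S.card ≤ (Finset.Icc (0 : ℤ) L).card := by
    refine Finset.card_le_card_of_injOn (fun x => (x - x₀) / m) ?_ ?_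
    · intro x hx
      rw [Finset.mem_coe] at hx
      obtain ⟨h3, h4⟩ := Finset.mem_filter.1 hx
      rw [Finset.mem_Icc] at h3
      have h5 : x₀ ≤ x := Finset.min'_le _ _ hx
      rw [Finset.mem_coe, Finset.mem_Icc]
      exact ⟨Int.ediv_nonneg (by omega) hmZ.le, Int.ediv_le_ediv hmZ (by omega)⟩
    · intro x hx y hy hxy
      rw [Finset.mem_coe] at hx hy
      have h4 := (Finset.mem_filter.1 hx).2
      have h5 := (Finset.mem_filter.1 hy).2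
      have h6 : (m : ℤ) ∣ x - x₀ := by
        have := dvd_sub h4 h2
        have e : x - c - (x₀ - c) = x - x₀ := by ring
        rwa [e] at this
      have h7 : (m : ℤ) ∣ y - x₀ := by
        have := dvd_sub h5 h2
        have e : y - c - (x₀ - c) = y - x₀ := by ring
        rwa [e] at this
      have h8 := Int.mul_ediv_cancel' h6
      have h9 := Int.mul_ediv_cancel' h7
      have h10 : (x - x₀) / (m : ℤ) = (y - x₀) / (m : ℤ) := hxy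
      rw [h10] at h8
      omega
  have hcI : ((Finset.Icc (0 : ℤ) L).card : ℝ) = (L : ℝ) + 1 := by
    rw [Int.card_Icc]
    have h3 : (((L + 1 - 0).toNat : ℕ) : ℤ) = L + 1 := by omega
    have h4 : (((L + 1 - 0).toNat : ℕ) : ℝ) = ((((L + 1 - 0).toNat : ℕ) : ℤ) : ℝ) := by push_cast; rfl
    rw [h4, h3]
    push_cast
    ring
  have hLr : (L : ℝ) ≤ 2 * a / m := by
    rw [le_div_iff₀ hmR]
    have h3 : L * m ≤ 2 * ⌊a⌋ := Int.ediv_mul_le _ hmZ.ne'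
    have h4 : (L : ℝ) * m ≤ 2 * (⌊a⌋ : ℝ) := by exact_mod_cast h3
    linarith
  have h5 : (S.card : ℝ) ≤ ((Finset.Icc (0 : ℤ) L).card : ℝ) := by exact_mod_cast hcard
  rw [hcI] at h5
  linarith
-- END ap_card

-- BEGIN mult_card
/-- C2. Nonzero multiples of `m` in `[-a, a]`. -/
theorem mult_card (a : ℝ) (ha : 0 ≤ a) (m : ℕ) (hm : 0 < m) :
    (((Icc (-⌊a⌋) ⌊a⌋).filter (fun n => n ≠ 0 ∧ (m : ℤ) ∣ n)).card : ℝ) ≤ 2 * a / m := by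
  have hm' : (0 : ℝ) < m := Nat.cast_pos.2 hm
  set k : ℤ := ⌊a / m⌋ with hk
  have hk0 : 0 ≤ k := Int.floor_nonneg.2 (div_nonneg ha hm'.le)
  have hsub : (Icc (-⌊a⌋) ⌊a⌋).filter (fun n => n ≠ 0 ∧ (m : ℤ) ∣ n) ⊆
      ((Icc (-k) k).erase 0).image (fun i => (m : ℤ) * i) := by
    intro n hn
    rw [mem_filter, mem_Icc] at hn
    obtain ⟨⟨h1, h2⟩, h3, i, rfl⟩ := hn
    have h4 : ((m : ℤ) * i : ℤ) ≤ a := (Int.cast_le.2 h2).trans (Int.floor_le a)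
    have h5 : -a ≤ (((m : ℤ) * i : ℤ) : ℝ) := by
      have h6 : (((-⌊a⌋ : ℤ)) : ℝ) ≤ (((m : ℤ) * i : ℤ) : ℝ) := Int.cast_le.2 h1
      rw [Int.cast_neg] at h6
      linarith [Int.floor_le a]
    rw [Int.cast_mul, Int.cast_natCast] at h4 h5
    rw [mem_image]
    refine ⟨i, ?_, rfl⟩
    rw [mem_erase, mem_Icc]
    refine ⟨?_, ?_, ?_⟩
    · rintro rfl
      exact h3 (mul_zero _)
    · have h7 : -i ≤ k := by
        rw [hk, Int.le_floor, le_div_iff₀ hm', Int.cast_neg]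
        linarith
      linarith
    · rw [hk, Int.le_floor, le_div_iff₀ hm']
      linarith
  have hcard : ((Icc (-⌊a⌋) ⌊a⌋).filter (fun n => n ≠ 0 ∧ (m : ℤ) ∣ n)).card ≤ (2 * k).toNat := by
    refine (card_le_card hsub).trans (card_image_le.trans ?_)
    rw [card_erase_of_mem (mem_Icc.2 ⟨by linarith, hk0⟩), Int.card_Icc]
    omega
  have h1 : (((Icc (-⌊a⌋) ⌊a⌋).filter (fun n => n ≠ 0 ∧ (m : ℤ) ∣ n)).card : ℝ) ≤ ((2 * k).toNat : ℝ) :=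
    Nat.cast_le.2 hcard
  have h2 : ((2 * k).toNat : ℝ) = 2 * (k : ℝ) := by
    have h3 : (((2 * k).toNat : ℤ) : ℝ) = ((2 * k : ℤ) : ℝ) := by
      rw [Int.toNat_of_nonneg (by linarith)]
    rw [Int.cast_natCast] at h3
    rw [h3, Int.cast_mul, Int.cast_ofNat]
  have h3 : (k : ℝ) ≤ a / m := Int.floor_le _
  rw [h2] at h1
  rw [mul_div_assoc]
  linarith
-- END mult_card

-- BEGIN inv_sq
/-- C3. `1/n² ≤ 1/(n-1) - 1/n`. -/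
theorem inv_sq (T N : ℕ) (hT : 1 ≤ T) : ∑ n ∈ Ioc T N, 1 / (n : ℝ) ^ 2 ≤ 1 / (T : ℝ) := by
  have hT0 : (0 : ℝ) < T := by exact_mod_cast hT
  have key : ∀ N : ℕ, T ≤ N → ∑ n ∈ Ioc T N, 1 / (n : ℝ) ^ 2 ≤ 1 / (T : ℝ) - 1 / (N : ℝ) := by
    intro N hN
    induction N, hN using Nat.le_induction with
    | base => simp
    | succ m hm ih =>
      rw [Finset.sum_Ioc_succ_top hm]
      have hm0 : (0 : ℝ) < m := lt_of_lt_of_le hT0 (by exact_mod_cast hm)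
      have h1 : 1 / ((m + 1 : ℕ) : ℝ) ^ 2 ≤ 1 / (m : ℝ) - 1 / ((m + 1 : ℕ) : ℝ) := by
        push_cast
        rw [div_sub_div _ _ hm0.ne' (by positivity), div_le_div_iff₀ (by positivity) (by positivity)]
        nlinarith
      linarith
  rcases le_total T N with h | h
  · have h1 := key N h
    have h2 : (0 : ℝ) ≤ 1 / (N : ℝ) := by positivity
    linarith
  · rw [Finset.Ioc_eq_empty_of_le h, Finset.sum_empty]
    positivity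
-- END inv_sq

-- BEGIN exc_a
/-- C4. Union over `n ∈ (T, Y]` (`r ≠ 0`, so `n ≤ |r| ≤ Y`): `mult_card` for `r`, `ap_card` for `A`: `(2Y/n)(2Y²/n + 1) ≤ (2Y/n)(3Y²/n)`; `inv_sq`. -/
theorem exc_a (Y : ℝ) (hY : 1 ≤ Y) (T : ℕ) (hT : 1 ≤ T) :
    (((Box Y).filter (fun x => x.2 ≠ 0 ∧ ∃ p : ℕ, p.Prime ∧ T < p ∧ (p : ℤ) ∣ x.1 ∧ (p : ℤ) ∣ x.2)).card : ℝ) ≤ 6 * Y ^ 3 / T := by
  have hY0 : 0 < Y := by linarith
  have hsub : (Box Y).filter (fun x => x.2 ≠ 0 ∧ ∃ p : ℕ, p.Prime ∧ T < p ∧ (p : ℤ) ∣ x.1 ∧ (p : ℤ) ∣ x.2) ⊆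
      (Ioc T ⌊Y⌋₊).biUnion (fun n : ℕ => ((Icc (-⌊Y ^ 2⌋) ⌊Y ^ 2⌋).filter (fun a => (n : ℤ) ∣ a - 0)) ×ˢ
        ((Icc (-⌊Y⌋) ⌊Y⌋).filter (fun a => a ≠ 0 ∧ (n : ℤ) ∣ a))) := by
    intro x hx
    rw [mem_filter] at hx
    obtain ⟨hB, h0, p, hp, hTp, h1, h2⟩ := hx
    unfold Box at hB
    rw [mem_product] at hB
    rw [mem_biUnion]
    refine ⟨p, ?_, ?_⟩
    · rw [mem_Ioc]
      refine ⟨hTp, ?_⟩
      have e1 : (p : ℤ) ≤ |x.2| := Int.le_of_dvd (abs_pos.mpr h0) ((dvd_abs _ _).mpr h2)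
      have e2 : |x.2| ≤ ⌊Y⌋ := abs_le.mpr (mem_Icc.mp hB.2)
      have e3 : ((p : ℤ) : ℝ) ≤ ((⌊Y⌋ : ℤ) : ℝ) := by exact_mod_cast le_trans e1 e2
      apply Nat.le_floor
      have e4 := Int.floor_le Y
      push_cast at e3
      linarith
    · rw [mem_product]
      refine ⟨mem_filter.mpr ⟨hB.1, ?_⟩, mem_filter.mpr ⟨hB.2, h0, h2⟩⟩
      rw [sub_zero]
      exact h1
  have hcard := Finset.card_le_card hsub
  have hcard2 := le_trans hcard Finset.card_biUnion_le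
  have hcard3 : (((Box Y).filter (fun x => x.2 ≠ 0 ∧ ∃ p : ℕ, p.Prime ∧ T < p ∧ (p : ℤ) ∣ x.1 ∧ (p : ℤ) ∣ x.2)).card : ℝ) ≤
      ∑ n ∈ Ioc T ⌊Y⌋₊, ((((Icc (-⌊Y ^ 2⌋) ⌊Y ^ 2⌋).filter (fun a => (n : ℤ) ∣ a - 0)) ×ˢ
        ((Icc (-⌊Y⌋) ⌊Y⌋).filter (fun a => a ≠ 0 ∧ (n : ℤ) ∣ a))).card : ℝ) := by
    exact_mod_cast hcard2
  refine le_trans hcard3 ?_
  have hterm : ∀ n ∈ Ioc T ⌊Y⌋₊, ((((Icc (-⌊Y ^ 2⌋) ⌊Y ^ 2⌋).filter (fun a => (n : ℤ) ∣ a - 0)) ×ˢ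
        ((Icc (-⌊Y⌋) ⌊Y⌋).filter (fun a => a ≠ 0 ∧ (n : ℤ) ∣ a))).card : ℝ) ≤ 6 * Y ^ 3 * (1 / (n : ℝ) ^ 2) := by
    intro n hn
    rw [mem_Ioc] at hn
    have hn0 : 0 < n := by omega
    have hnR : (0 : ℝ) < n := by exact_mod_cast hn0
    have hnY : (n : ℝ) ≤ Y := le_trans (by exact_mod_cast hn.2) (Nat.floor_le hY0.le)
    rw [Finset.card_product]
    push_cast
    have a1 := ap_card (Y ^ 2) (by positivity) n hn0 0
    have a2 := mult_card Y hY0.le n hn0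
    have a3 : 2 * Y ^ 2 / n + 1 ≤ 3 * Y ^ 2 / n := by
      rw [← sub_nonneg]
      have e : 3 * Y ^ 2 / n - (2 * Y ^ 2 / n + 1) = (Y ^ 2 - n) / n := by
        field_simp
        ring
      rw [e]
      apply div_nonneg _ hnR.le
      nlinarith
    have a4 : (0 : ℝ) ≤ 2 * Y / n := by positivity
    calc _ ≤ (3 * Y ^ 2 / n) * (2 * Y / n) := by
          apply mul_le_mul (le_trans a1 a3) a2 (by positivity) (by positivity)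
      _ = 6 * Y ^ 3 * (1 / (n : ℝ) ^ 2) := by
          field_simp
          ring
  refine le_trans (Finset.sum_le_sum hterm) ?_
  rw [← Finset.mul_sum]
  have h1 := inv_sq T ⌊Y⌋₊ hT
  calc 6 * Y ^ 3 * ∑ n ∈ Ioc T ⌊Y⌋₊, 1 / (n : ℝ) ^ 2 ≤ 6 * Y ^ 3 * (1 / (T : ℝ)) :=
        mul_le_mul_of_nonneg_left h1 (by positivity)
    _ = 6 * Y ^ 3 / T := by ring
-- END exc_a

-- BEGIN exc_b
private theorem exc_b_cardr (Y : ℝ) (hY : 1 ≤ Y) : ((Icc (-⌊Y⌋) ⌊Y⌋).card : ℝ) ≤ 3 * Y := by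
  have h0 : (0 : ℤ) ≤ ⌊Y⌋ := Int.floor_nonneg.mpr (by linarith)
  rw [Int.card_Icc]
  have h1 : ((⌊Y⌋ + 1 - -⌊Y⌋).toNat : ℝ) = 2 * (⌊Y⌋ : ℝ) + 1 := by
    have : ((⌊Y⌋ + 1 - -⌊Y⌋).toNat : ℤ) = 2 * ⌊Y⌋ + 1 := by
      rw [Int.toNat_of_nonneg (by linarith)]; ring
    exact_mod_cast this
  rw [h1]
  have := Int.floor_le Y
  linarith

private theorem exc_b_memBox (Y : ℝ) (x : ℤ × ℤ) (hx : x ∈ Box Y) :
    |(x.1 : ℝ)| ≤ Y ^ 2 ∧ |(x.2 : ℝ)| ≤ Y ∧ x.1 ∈ Icc (-⌊Y ^ 2⌋) ⌊Y ^ 2⌋ ∧ x.2 ∈ Icc (-⌊Y⌋) ⌊Y⌋ := by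
  unfold Box at hx
  rw [mem_product] at hx
  obtain ⟨h1, h2⟩ := hx
  refine ⟨?_, ?_, h1, h2⟩
  · rw [mem_Icc] at h1
    have ha : ((x.1 : ℤ) : ℝ) ≤ Y ^ 2 := le_trans (by exact_mod_cast h1.2) (Int.floor_le _)
    have hb : -(Y ^ 2) ≤ ((x.1 : ℤ) : ℝ) := by
      have h3 : (-⌊Y ^ 2⌋ : ℝ) ≤ ((x.1 : ℤ) : ℝ) := by exact_mod_cast h1.1
      have := Int.floor_le (Y ^ 2)
      linarith
    exact abs_le.mpr ⟨hb, ha⟩
  · rw [mem_Icc] at h2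
    have ha : ((x.2 : ℤ) : ℝ) ≤ Y := le_trans (by exact_mod_cast h2.2) (Int.floor_le _)
    have hb : -Y ≤ ((x.2 : ℤ) : ℝ) := by
      have h3 : (-⌊Y⌋ : ℝ) ≤ ((x.2 : ℤ) : ℝ) := by exact_mod_cast h2.1
      have := Int.floor_le Y
      linarith
    exact abs_le.mpr ⟨hb, ha⟩

/-- C5. `|bb| ≤ 4Y²`, so `p ≤ 2Y`; for each of the at most `3Y` values of `r` and each `n ∈ (T, 2Y]`: `ap_card` for `A` mod `n²`. -/
theorem exc_b (Y : ℝ) (hY : 1 ≤ Y) (T : ℕ) (hT : 1 ≤ T) :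
    (((Box Y).filter (fun x => bb x.1 x.2 ≠ 0 ∧ ∃ p : ℕ, p.Prime ∧ T < p ∧ (p : ℤ) ^ 2 ∣ bb x.1 x.2)).card : ℝ) ≤
      6 * Y ^ 3 / T + 6 * Y ^ 2 := by
  set N : ℕ := ⌊2 * Y⌋₊ with hN
  set U : Finset (ℤ × ℤ) := (Icc (-⌊Y⌋) ⌊Y⌋).biUnion (fun r => (Ioc T N).biUnion (fun n =>
    ((Icc (-⌊Y ^ 2⌋) ⌊Y ^ 2⌋).filter (fun A => ((n ^ 2 : ℕ) : ℤ) ∣ A - (-3 * r ^ 2))).image
      (fun A => (A, r)))) with hU
  have hsub : (Box Y).filter (fun x => bb x.1 x.2 ≠ 0 ∧ ∃ p : ℕ, p.Prime ∧ T < p ∧ (p : ℤ) ^ 2 ∣ bb x.1 x.2) ⊆ U := by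
    intro x hx
    rw [mem_filter] at hx
    obtain ⟨hxB, hb0, p, hp, hTp, hdvd⟩ := hx
    obtain ⟨hA, hr, hAm, hrm⟩ := exc_b_memBox Y x hxB
    rw [hU, mem_biUnion]
    refine ⟨x.2, hrm, ?_⟩
    rw [mem_biUnion]
    refine ⟨p, ?_, ?_⟩
    · rw [mem_Ioc]
      refine ⟨hTp, ?_⟩
      rw [hN]
      apply Nat.le_floor
      have h1 : ((p : ℤ) ^ 2) ≤ |bb x.1 x.2| := Int.le_of_dvd (abs_pos.mpr hb0) ((dvd_abs _ _).mpr hdvd)
      have h2 : (p : ℝ) ^ 2 ≤ |((bb x.1 x.2 : ℤ) : ℝ)| := by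
        have : (((p : ℤ) ^ 2 : ℤ) : ℝ) ≤ ((|bb x.1 x.2| : ℤ) : ℝ) := by exact_mod_cast h1
        rw [Int.cast_abs] at this
        push_cast at this ⊢
        exact this
      have h3 : |((bb x.1 x.2 : ℤ) : ℝ)| ≤ 4 * Y ^ 2 := by
        unfold bb
        push_cast
        have h4 : (x.2 : ℝ) ^ 2 ≤ Y ^ 2 := by
          rw [← sq_abs (x.2 : ℝ)]
          exact pow_le_pow_left₀ (abs_nonneg _) hr 2
        calc |(x.1 : ℝ) + 3 * (x.2 : ℝ) ^ 2| ≤ |(x.1 : ℝ)| + |3 * (x.2 : ℝ) ^ 2| := abs_add_le _ _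
          _ = |(x.1 : ℝ)| + 3 * (x.2 : ℝ) ^ 2 := by rw [abs_of_nonneg (a := 3 * (x.2 : ℝ) ^ 2) (by positivity)]
          _ ≤ Y ^ 2 + 3 * Y ^ 2 := by linarith
          _ = 4 * Y ^ 2 := by ring
      have h5 : (p : ℝ) ^ 2 ≤ (2 * Y) ^ 2 := by nlinarith
      exact le_of_sq_le_sq h5 (by linarith)
    · rw [mem_image]
      refine ⟨x.1, ?_, rfl⟩
      rw [mem_filter]
      refine ⟨hAm, ?_⟩
      have : x.1 - (-3 * x.2 ^ 2) = bb x.1 x.2 := by unfold bb; ring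
      rw [this]
      exact_mod_cast hdvd
  have hcard : ((U.card : ℕ) : ℝ) ≤ ∑ r ∈ Icc (-⌊Y⌋) ⌊Y⌋, ∑ n ∈ Ioc T N, (2 * Y ^ 2 * (1 / (n : ℝ) ^ 2) + 1) := by
    calc ((U.card : ℕ) : ℝ) ≤ ((∑ r ∈ Icc (-⌊Y⌋) ⌊Y⌋, ((Ioc T N).biUnion (fun n =>
          ((Icc (-⌊Y ^ 2⌋) ⌊Y ^ 2⌋).filter (fun A => ((n ^ 2 : ℕ) : ℤ) ∣ A - (-3 * r ^ 2))).image
          (fun A => (A, r)))).card : ℕ) : ℝ) := by exact_mod_cast card_biUnion_le
      _ = ∑ r ∈ Icc (-⌊Y⌋) ⌊Y⌋, (((Ioc T N).biUnion (fun n =>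
          ((Icc (-⌊Y ^ 2⌋) ⌊Y ^ 2⌋).filter (fun A => ((n ^ 2 : ℕ) : ℤ) ∣ A - (-3 * r ^ 2))).image
          (fun A => (A, r)))).card : ℝ) := by push_cast; rfl
      _ ≤ _ := by
        apply sum_le_sum
        intro r _
        calc (((Ioc T N).biUnion (fun n =>
              ((Icc (-⌊Y ^ 2⌋) ⌊Y ^ 2⌋).filter (fun A => ((n ^ 2 : ℕ) : ℤ) ∣ A - (-3 * r ^ 2))).image
              (fun A => (A, r)))).card : ℝ)
            ≤ ((∑ n ∈ Ioc T N, (((Icc (-⌊Y ^ 2⌋) ⌊Y ^ 2⌋).filter (fun A => ((n ^ 2 : ℕ) : ℤ) ∣ A - (-3 * r ^ 2))).image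
              (fun A => (A, r))).card : ℕ) : ℝ) := by exact_mod_cast card_biUnion_le
          _ = ∑ n ∈ Ioc T N, ((((Icc (-⌊Y ^ 2⌋) ⌊Y ^ 2⌋).filter (fun A => ((n ^ 2 : ℕ) : ℤ) ∣ A - (-3 * r ^ 2))).image
              (fun A => (A, r))).card : ℝ) := by push_cast; rfl
          _ ≤ _ := by
            apply sum_le_sum
            intro n hn
            rw [mem_Ioc] at hn
            have hn0 : 0 < n := by omega
            calc ((((Icc (-⌊Y ^ 2⌋) ⌊Y ^ 2⌋).filter (fun A => ((n ^ 2 : ℕ) : ℤ) ∣ A - (-3 * r ^ 2))).image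
                  (fun A => (A, r))).card : ℝ)
                ≤ (((Icc (-⌊Y ^ 2⌋) ⌊Y ^ 2⌋).filter (fun A => ((n ^ 2 : ℕ) : ℤ) ∣ A - (-3 * r ^ 2))).card : ℝ) := by
                  exact_mod_cast card_image_le
              _ ≤ 2 * Y ^ 2 / ((n ^ 2 : ℕ) : ℝ) + 1 := ap_card (Y ^ 2) (by positivity) (n ^ 2) (by positivity) _
              _ = 2 * Y ^ 2 * (1 / (n : ℝ) ^ 2) + 1 := by push_cast; ring
  have hinner : ∑ n ∈ Ioc T N, (2 * Y ^ 2 * (1 / (n : ℝ) ^ 2) + 1) ≤ 2 * Y ^ 2 / T + 2 * Y := by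
    rw [sum_add_distrib, ← mul_sum]
    have h1 := inv_sq T N hT
    have h2 : ∑ _n ∈ Ioc T N, (1 : ℝ) ≤ 2 * Y := by
      rw [sum_const, Nat.card_Ioc, nsmul_eq_mul, mul_one]
      calc ((N - T : ℕ) : ℝ) ≤ (N : ℝ) := by exact_mod_cast Nat.sub_le _ _
        _ ≤ 2 * Y := Nat.floor_le (by linarith)
    have h3 : 2 * Y ^ 2 * ∑ n ∈ Ioc T N, 1 / (n : ℝ) ^ 2 ≤ 2 * Y ^ 2 * (1 / T) :=
      mul_le_mul_of_nonneg_left h1 (by positivity)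
    have h4 : 2 * Y ^ 2 * (1 / (T : ℝ)) = 2 * Y ^ 2 / T := by ring
    linarith
  have hTpos : (0 : ℝ) < T := by exact_mod_cast (by omega : 0 < T)
  calc (((Box Y).filter (fun x => bb x.1 x.2 ≠ 0 ∧ ∃ p : ℕ, p.Prime ∧ T < p ∧ (p : ℤ) ^ 2 ∣ bb x.1 x.2)).card : ℝ)
      ≤ (U.card : ℝ) := by exact_mod_cast card_le_card hsub
    _ ≤ _ := hcard
    _ ≤ ∑ _r ∈ Icc (-⌊Y⌋) ⌊Y⌋, (2 * Y ^ 2 / T + 2 * Y) := sum_le_sum (fun r _ => hinner)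
    _ = ((Icc (-⌊Y⌋) ⌊Y⌋).card : ℝ) * (2 * Y ^ 2 / T + 2 * Y) := by rw [sum_const, nsmul_eq_mul]
    _ ≤ 3 * Y * (2 * Y ^ 2 / T + 2 * Y) :=
        mul_le_mul_of_nonneg_right (exc_b_cardr Y hY) (by positivity)
    _ = 6 * Y ^ 3 / T + 6 * Y ^ 2 := by ring
-- END exc_b

-- BEGIN exc_c
private theorem exc_c_card (a : ℝ) (ha : 1 ≤ a) :
    (((Icc (-⌊a⌋) ⌊a⌋ : Finset ℤ).card : ℕ) : ℝ) ≤ 3 * a := by
  have h0 : (0 : ℤ) ≤ ⌊a⌋ := Int.floor_nonneg.2 (by linarith)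
  have h1 : (((Icc (-⌊a⌋) ⌊a⌋ : Finset ℤ).card : ℕ) : ℤ) = 2 * ⌊a⌋ + 1 := by
    rw [Int.card_Icc]
    omega
  have h2 : (((Icc (-⌊a⌋) ⌊a⌋ : Finset ℤ).card : ℕ) : ℝ) = 2 * (⌊a⌋ : ℝ) + 1 := by
    exact_mod_cast h1
  have h3 := Int.floor_le a
  rw [h2]
  linarith

private theorem exc_c_ap (Y : ℝ) (p : ℕ) (hp : p.Prime) (hp2 : 2 < p) (r : ℤ) :
    (((Icc (-⌊Y ^ 2⌋) ⌊Y ^ 2⌋).filter (fun A : ℤ => (p : ℤ) ^ 2 ∣ cc A r)).card : ℝ) ≤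
      2 * Y ^ 2 / (p : ℝ) ^ 2 + 1 := by
  have h1 : IsCoprime (4 : ℤ) ((p : ℤ) ^ 2) := by
    have h2 : Nat.Coprime 2 p := (Nat.coprime_primes Nat.prime_two hp).2 (by omega)
    have h3 : IsCoprime ((2 : ℕ) : ℤ) (p : ℤ) := Nat.isCoprime_iff_coprime.2 h2
    have h4 : IsCoprime (((2 : ℕ) : ℤ) ^ 2) ((p : ℤ) ^ 2) := h3.pow
    have h5 : (((2 : ℕ) : ℤ) ^ 2) = 4 := by norm_num
    rwa [h5] at h4
  obtain ⟨u, v, huv⟩ := h1
  have h2 := ap_card (Y ^ 2) (sq_nonneg Y) (p ^ 2) (pow_pos hp.pos 2) (-(3 * r ^ 2 * u))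
  have h3 : (Icc (-⌊Y ^ 2⌋) ⌊Y ^ 2⌋).filter (fun A : ℤ => (p : ℤ) ^ 2 ∣ cc A r) =
      (Icc (-⌊Y ^ 2⌋) ⌊Y ^ 2⌋).filter
        (fun n => ((p ^ 2 : ℕ) : ℤ) ∣ n - -(3 * r ^ 2 * u)) := by
    refine filter_congr fun A _ => ?_
    rw [Nat.cast_pow]
    have h4 : cc A r = 4 * (A - -(3 * r ^ 2 * u)) + 3 * r ^ 2 * (v * (p : ℤ) ^ 2) := by
      unfold cc
      linear_combination (3 * r ^ 2) * (-huv)
    have h5 : (p : ℤ) ^ 2 ∣ 3 * r ^ 2 * (v * (p : ℤ) ^ 2) :=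
      Dvd.dvd.mul_left (Dvd.intro_left v rfl) _
    rw [h4, dvd_add_left h5]
    have h1 : IsCoprime ((p : ℤ) ^ 2) (4 : ℤ) := ⟨v, u, by linear_combination huv⟩
    exact ⟨fun h => h1.dvd_of_dvd_mul_left h, fun h => Dvd.dvd.mul_left h _⟩
  rw [h3]
  refine h2.trans (le_of_eq ?_)
  push_cast
  ring

/-- C6. `|cc| ≤ 7Y²`, so `p ≤ 3Y`; `p` is odd, so `4A = -3r²` is one class for `A` mod `p²`. -/
theorem exc_c (Y : ℝ) (hY : 1 ≤ Y) (T : ℕ) (hT : 2 ≤ T) :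
    (((Box Y).filter (fun x => cc x.1 x.2 ≠ 0 ∧ ∃ p : ℕ, p.Prime ∧ T < p ∧ (p : ℤ) ^ 2 ∣ cc x.1 x.2)).card : ℝ) ≤
      6 * Y ^ 3 / T + 9 * Y ^ 2 := by
  have hY0 : 0 ≤ Y := by linarith
  have hT0 : (0 : ℝ) < T := by
    have : 0 < T := by omega
    exact_mod_cast this
  set P : Finset ℕ := (Ioc T ⌊3 * Y⌋₊).filter Nat.Prime with hP
  have h1 : (Box Y).filter (fun x => cc x.1 x.2 ≠ 0 ∧ ∃ p : ℕ, p.Prime ∧ T < p ∧
      (p : ℤ) ^ 2 ∣ cc x.1 x.2) ⊆ (Icc (-⌊Y⌋) ⌊Y⌋).biUnion fun r => P.biUnion fun p =>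
        ((Icc (-⌊Y ^ 2⌋) ⌊Y ^ 2⌋).filter (fun A : ℤ => (p : ℤ) ^ 2 ∣ cc A r)).image
          fun A => (A, r) := by
    rintro ⟨A, r⟩ hx
    rw [mem_filter, Box, mem_product] at hx
    obtain ⟨⟨hA, hr⟩, h0, p, hp, hTp, hd⟩ := hx
    simp only at hA hr h0 hd
    rw [mem_biUnion]
    refine ⟨r, hr, ?_⟩
    rw [mem_biUnion]
    refine ⟨p, ?_, ?_⟩
    · rw [hP, mem_filter, mem_Ioc]
      refine ⟨⟨hTp, Nat.le_floor ?_⟩, hp⟩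
      -- the size of `cc`
      have hA1 := mem_Icc.1 hA
      have hr1 := mem_Icc.1 hr
      have hA2 : (A : ℝ) ≤ Y ^ 2 := (Int.le_floor.1 hA1.2)
      have hA3 : -(Y ^ 2) ≤ (A : ℝ) := by
        have h3 : -A ≤ ⌊Y ^ 2⌋ := by omega
        have h4 := Int.le_floor.1 h3
        push_cast at h4
        linarith
      have hr2 : (r : ℝ) ≤ Y := (Int.le_floor.1 hr1.2)
      have hr3 : -Y ≤ (r : ℝ) := by
        have h3 : -r ≤ ⌊Y⌋ := by omega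
        have h4 := Int.le_floor.1 h3
        push_cast at h4
        linarith
      have hr4 : (r : ℝ) ^ 2 ≤ Y ^ 2 := sq_le_sq' hr3 hr2
      have h5 : (p : ℤ) ^ 2 ≤ |cc A r| := Int.le_of_dvd (abs_pos.2 h0) ((dvd_abs _ _).2 hd)
      have h6 : ((p : ℝ)) ^ 2 ≤ |((cc A r : ℤ) : ℝ)| := by exact_mod_cast h5
      have h7 : |((cc A r : ℤ) : ℝ)| ≤ 7 * Y ^ 2 := by
        unfold cc
        push_cast
        rw [abs_le]
        constructor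
        · nlinarith [sq_nonneg (r : ℝ)]
        · linarith
      by_contra hc
      have hc' : 3 * Y < (p : ℝ) := lt_of_not_ge hc
      have h8 : (3 * Y) ^ 2 < (p : ℝ) ^ 2 := pow_lt_pow_left₀ hc' (by positivity) (by norm_num)
      nlinarith [sq_nonneg Y]
    · rw [mem_image]
      exact ⟨A, mem_filter.2 ⟨hA, hd⟩, rfl⟩
  have h2 : (((Box Y).filter (fun x => cc x.1 x.2 ≠ 0 ∧ ∃ p : ℕ, p.Prime ∧ T < p ∧
      (p : ℤ) ^ 2 ∣ cc x.1 x.2)).card : ℝ) ≤ ∑ r ∈ Icc (-⌊Y⌋) ⌊Y⌋, ∑ p ∈ P,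
        (((Icc (-⌊Y ^ 2⌋) ⌊Y ^ 2⌋).filter (fun A : ℤ => (p : ℤ) ^ 2 ∣ cc A r)).card : ℝ) := by
    have h3 := (card_le_card h1).trans (card_biUnion_le.trans (sum_le_sum fun r _ =>
      card_biUnion_le.trans (sum_le_sum fun p _ => card_image_le)))
    exact_mod_cast h3
  have h3 : ∀ r ∈ Icc (-⌊Y⌋) ⌊Y⌋, ∑ p ∈ P,
      (((Icc (-⌊Y ^ 2⌋) ⌊Y ^ 2⌋).filter (fun A : ℤ => (p : ℤ) ^ 2 ∣ cc A r)).card : ℝ) ≤
        2 * Y ^ 2 / T + 3 * Y := by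
    intro r _
    calc ∑ p ∈ P, (((Icc (-⌊Y ^ 2⌋) ⌊Y ^ 2⌋).filter
          (fun A : ℤ => (p : ℤ) ^ 2 ∣ cc A r)).card : ℝ)
        ≤ ∑ p ∈ P, (2 * Y ^ 2 / (p : ℝ) ^ 2 + 1) := by
          refine sum_le_sum fun p hp => ?_
          rw [hP, mem_filter, mem_Ioc] at hp
          exact exc_c_ap Y p hp.2 (by omega) r
      _ ≤ ∑ p ∈ Ioc T ⌊3 * Y⌋₊, (2 * Y ^ 2 / (p : ℝ) ^ 2 + 1) := by
          refine sum_le_sum_of_subset_of_nonneg (filter_subset _ _) fun p _ _ => ?_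
          positivity
      _ = 2 * Y ^ 2 * ∑ p ∈ Ioc T ⌊3 * Y⌋₊, 1 / (p : ℝ) ^ 2 + ((Ioc T ⌊3 * Y⌋₊).card : ℝ) := by
          rw [sum_add_distrib, mul_sum, sum_const, nsmul_eq_mul, mul_one]
          congr 1
          refine sum_congr rfl fun p _ => ?_
          ring
      _ ≤ 2 * Y ^ 2 * (1 / T) + 3 * Y := by
          have h4 := inv_sq T ⌊3 * Y⌋₊ (by omega)
          have h5 : ((Ioc T ⌊3 * Y⌋₊).card : ℝ) ≤ 3 * Y := by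
            rw [Nat.card_Ioc]
            have h6 : ((⌊3 * Y⌋₊ - T : ℕ) : ℝ) ≤ (⌊3 * Y⌋₊ : ℝ) := by
              exact_mod_cast Nat.sub_le _ _
            exact h6.trans (Nat.floor_le (by positivity))
          have h6 : 2 * Y ^ 2 * ∑ p ∈ Ioc T ⌊3 * Y⌋₊, 1 / (p : ℝ) ^ 2 ≤ 2 * Y ^ 2 * (1 / T) :=
            mul_le_mul_of_nonneg_left h4 (by positivity)
          linarith
      _ = 2 * Y ^ 2 / T + 3 * Y := by ring
  have h4 : (0 : ℝ) ≤ 2 * Y ^ 2 / T + 3 * Y := by positivity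
  calc (((Box Y).filter (fun x => cc x.1 x.2 ≠ 0 ∧ ∃ p : ℕ, p.Prime ∧ T < p ∧
      (p : ℤ) ^ 2 ∣ cc x.1 x.2)).card : ℝ)
      ≤ ∑ r ∈ Icc (-⌊Y⌋) ⌊Y⌋, (2 * Y ^ 2 / (T : ℝ) + 3 * Y) := h2.trans (sum_le_sum h3)
    _ = (((Icc (-⌊Y⌋) ⌊Y⌋ : Finset ℤ).card : ℕ) : ℝ) * (2 * Y ^ 2 / T + 3 * Y) := by
        rw [sum_const, nsmul_eq_mul]
    _ ≤ (3 * Y) * (2 * Y ^ 2 / T + 3 * Y) := mul_le_mul_of_nonneg_right (exc_c_card Y hY) h4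
    _ = 6 * Y ^ 3 / T + 9 * Y ^ 2 := by ring
-- END exc_c

-- BEGIN exc_d
private lemma exc_d_len (a : ℝ) (ha : 1 ≤ a) : ((Icc (-⌊a⌋) ⌊a⌋).card : ℝ) ≤ 3 * a := by
  have h0 : 0 ≤ ⌊a⌋ := Int.floor_nonneg.2 (by linarith)
  rw [Int.card_Icc]
  have h1 : ((⌊a⌋ + 1 - -⌊a⌋).toNat : ℝ) = 2 * (⌊a⌋ : ℝ) + 1 := by
    have h2 : ((⌊a⌋ + 1 - -⌊a⌋).toNat : ℤ) = 2 * ⌊a⌋ + 1 := by
      rw [Int.toNat_of_nonneg (by linarith)]
      ring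
    exact_mod_cast h2
  rw [h1]
  have := Int.floor_le a
  linarith

private lemma exc_d_fib (Y B : ℝ) (hY : 1 ≤ Y) (hB : 0 ≤ B) (P : ℤ × ℤ → Prop) [DecidablePred P]
    (h : ∀ r : ℤ, (((Icc (-⌊Y ^ 2⌋) ⌊Y ^ 2⌋).filter (fun A => P (A, r))).card : ℝ) ≤ B) :
    (((Box Y).filter P).card : ℝ) ≤ 3 * Y * B := by
  have h1 : ((Box Y).filter P).card =
      ∑ r ∈ Icc (-⌊Y⌋) ⌊Y⌋, (((Box Y).filter P).filter (fun x => x.2 = r)).card := by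
    refine card_eq_sum_card_fiberwise fun x hx => ?_
    have hx' : x ∈ (Box Y).filter P := hx
    rw [mem_filter, Box, mem_product] at hx'
    exact hx'.1.2
  have h2 : ∀ r : ℤ, (((Box Y).filter P).filter (fun x => x.2 = r)).card ≤
      ((Icc (-⌊Y ^ 2⌋) ⌊Y ^ 2⌋).filter (fun A => P (A, r))).card := by
    intro r
    refine card_le_card_of_injOn (fun x => x.1) ?_ ?_
    · intro x hx
      have hx' : x ∈ ((Box Y).filter P).filter (fun x => x.2 = r) := hx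
      rw [mem_filter, mem_filter, Box, mem_product] at hx'
      obtain ⟨⟨⟨hA, -⟩, hP⟩, hr⟩ := hx'
      have : x.1 ∈ (Icc (-⌊Y ^ 2⌋) ⌊Y ^ 2⌋).filter (fun A => P (A, r)) := by
        rw [mem_filter]
        refine ⟨hA, ?_⟩
        rw [← hr]
        exact hP
      exact this
    · intro x hx y hy hxy
      have hx' : x ∈ ((Box Y).filter P).filter (fun x => x.2 = r) := hx
      have hy' : y ∈ ((Box Y).filter P).filter (fun x => x.2 = r) := hy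
      rw [mem_filter] at hx' hy'
      exact Prod.ext hxy (hx'.2.trans hy'.2.symm)
  rw [h1, Nat.cast_sum]
  calc ∑ r ∈ Icc (-⌊Y⌋) ⌊Y⌋, ((((Box Y).filter P).filter (fun x => x.2 = r)).card : ℝ)
      ≤ ∑ _r ∈ Icc (-⌊Y⌋) ⌊Y⌋, B := by
        refine sum_le_sum fun r _ => ?_
        exact (Nat.cast_le.2 (h2 r)).trans (h r)
    _ = ((Icc (-⌊Y⌋) ⌊Y⌋).card : ℝ) * B := by rw [sum_const, nsmul_eq_mul]
    _ ≤ 3 * Y * B := mul_le_mul_of_nonneg_right (exc_d_len Y hY) hB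

/-- C7. `mult_card` for `r`: `(2Y/2^j)(3Y²)`; for each of the at most `3Y` values of `r`: `ap_card` for `A` mod `p^j`; for `cc` and `p = 2` one class mod `2^(j-2)`
(at most `8Y²/2^j + 1`). -/
theorem exc_d (Y : ℝ) (hY : 1 ≤ Y) (p j : ℕ) (hp : p.Prime) :
    (((Box Y).filter (fun x => (x.2 ≠ 0 ∧ (p : ℤ) ^ j ∣ x.2) ∨ (p : ℤ) ^ j ∣ bb x.1 x.2 ∨ (p : ℤ) ^ j ∣ cc x.1 x.2)).card : ℝ) ≤
      36 * Y ^ 3 / 2 ^ j + 6 * Y ^ 2 := by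
  have hY2 : 1 ≤ Y ^ 2 := one_le_pow₀ hY
  have hY0 : 0 ≤ Y := by linarith
  have h2j : (0 : ℝ) < 2 ^ j := by positivity
  have hpj : 0 < p ^ j := Nat.pow_pos hp.pos
  have hpj2 : (2 : ℝ) ^ j ≤ ((p ^ j : ℕ) : ℝ) := by
    push_cast
    exact pow_le_pow_left₀ (by norm_num) (by exact_mod_cast hp.two_le) j
  -- the three sets
  have s1 : (((Box Y).filter (fun x => x.2 ≠ 0 ∧ (p : ℤ) ^ j ∣ x.2)).card : ℝ) ≤
      6 * (Y ^ 3 / 2 ^ j) := by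
    have e1 : (Box Y).filter (fun x => x.2 ≠ 0 ∧ (p : ℤ) ^ j ∣ x.2) =
        (Icc (-⌊Y ^ 2⌋) ⌊Y ^ 2⌋) ×ˢ
          ((Icc (-⌊Y⌋) ⌊Y⌋).filter (fun n => n ≠ 0 ∧ ((p ^ j : ℕ) : ℤ) ∣ n)) := by
      ext x
      rw [mem_filter, Box, mem_product, mem_product, mem_filter]
      push_cast
      tauto
    rw [e1, card_product, Nat.cast_mul]
    have m1 := mult_card Y hY0 (p ^ j) hpj
    have m2 := exc_d_len (Y ^ 2) hY2
    have m3 : 2 * Y / ((p ^ j : ℕ) : ℝ) ≤ 2 * Y / 2 ^ j :=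
      div_le_div_of_nonneg_left (by linarith) h2j hpj2
    calc ((Icc (-⌊Y ^ 2⌋) ⌊Y ^ 2⌋).card : ℝ) *
          (((Icc (-⌊Y⌋) ⌊Y⌋).filter (fun n => n ≠ 0 ∧ ((p ^ j : ℕ) : ℤ) ∣ n)).card : ℝ)
        ≤ (3 * Y ^ 2) * (2 * Y / 2 ^ j) :=
          mul_le_mul m2 (m1.trans m3) (by positivity) (by positivity)
      _ = 6 * (Y ^ 3 / 2 ^ j) := by ring
  have s2 : (((Box Y).filter (fun x => (p : ℤ) ^ j ∣ bb x.1 x.2)).card : ℝ) ≤
      3 * Y * (2 * Y ^ 2 / 2 ^ j + 1) := by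
    refine exc_d_fib Y (2 * Y ^ 2 / 2 ^ j + 1) hY (by positivity)
      (fun x => (p : ℤ) ^ j ∣ bb x.1 x.2) fun r => ?_
    have m1 := ap_card (Y ^ 2) (by positivity) (p ^ j) hpj (-(3 * r ^ 2))
    have m3 : 2 * Y ^ 2 / ((p ^ j : ℕ) : ℝ) ≤ 2 * Y ^ 2 / 2 ^ j :=
      div_le_div_of_nonneg_left (by positivity) h2j hpj2
    have e1 : (Icc (-⌊Y ^ 2⌋) ⌊Y ^ 2⌋).filter (fun A => (p : ℤ) ^ j ∣ bb (A, r).1 (A, r).2) =
        (Icc (-⌊Y ^ 2⌋) ⌊Y ^ 2⌋).filter (fun n => ((p ^ j : ℕ) : ℤ) ∣ n - -(3 * r ^ 2)) := by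
      refine filter_congr fun A _ => ?_
      unfold bb
      push_cast
      rw [sub_neg_eq_add]
    rw [e1]
    linarith
  have s3 : (((Box Y).filter (fun x => (p : ℤ) ^ j ∣ cc x.1 x.2)).card : ℝ) ≤
      3 * Y * (8 * Y ^ 2 / 2 ^ j + 1) := by
    refine exc_d_fib Y (8 * Y ^ 2 / 2 ^ j + 1) hY (by positivity)
      (fun x => (p : ℤ) ^ j ∣ cc x.1 x.2) fun r => ?_
    obtain ⟨m, hm, hm4, hmd⟩ : ∃ m : ℕ, 0 < m ∧ (2 : ℝ) ^ j ≤ 4 * m ∧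
        ∀ n : ℤ, (p : ℤ) ^ j ∣ 4 * n → (m : ℤ) ∣ n := by
      rcases hp.eq_two_or_odd' with h | h
      · subst h
        refine ⟨2 ^ (j - 2), by positivity, ?_, ?_⟩
        · push_cast
          calc (2 : ℝ) ^ j ≤ 2 ^ (2 + (j - 2)) :=
                pow_le_pow_right₀ (by norm_num) (by omega)
            _ = 4 * 2 ^ (j - 2) := by rw [pow_add]; norm_num
        · intro n hn
          rcases le_or_gt 2 j with hj | hj
          · obtain ⟨i, rfl⟩ : ∃ i, j = 2 + i := ⟨j - 2, by omega⟩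
            rw [pow_add] at hn
            have e4 : ((2 : ℕ) : ℤ) ^ 2 = 4 := by norm_num
            rw [e4] at hn
            have := (mul_dvd_mul_iff_left (by norm_num : (4 : ℤ) ≠ 0)).1 hn
            simpa using this
          · have : j - 2 = 0 := by omega
            rw [this]
            simp
      · refine ⟨p ^ j, hpj, by linarith, ?_⟩
        intro n hn
        push_cast
        have hco : IsCoprime ((p : ℤ) ^ j) 4 := by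
          have h4 : (4 : ℤ) = 2 ^ 2 := by norm_num
          rw [h4]
          refine IsCoprime.pow ?_
          rw [Int.isCoprime_iff_gcd_eq_one]
          have : Nat.Coprime p 2 := Nat.Coprime.symm ((Nat.coprime_two_left).2 h)
          exact_mod_cast this
        exact hco.dvd_of_dvd_mul_left hn
    rcases ((Icc (-⌊Y ^ 2⌋) ⌊Y ^ 2⌋).filter
        (fun A => (p : ℤ) ^ j ∣ cc (A, r).1 (A, r).2)).eq_empty_or_nonempty with he | ⟨A0, hA0⟩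
    · rw [he, card_empty, Nat.cast_zero]
      positivity
    · rw [mem_filter] at hA0
      have m1 := ap_card (Y ^ 2) (by positivity) m hm A0
      have hm0 : (0 : ℝ) < m := by exact_mod_cast hm
      have m3 : 2 * Y ^ 2 / (m : ℝ) ≤ 8 * Y ^ 2 / 2 ^ j := by
        rw [div_le_div_iff₀ hm0 h2j]
        nlinarith [mul_le_mul_of_nonneg_left hm4 (by positivity : (0 : ℝ) ≤ 2 * Y ^ 2)]
      have hsub : ((Icc (-⌊Y ^ 2⌋) ⌊Y ^ 2⌋).filter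
          (fun A => (p : ℤ) ^ j ∣ cc (A, r).1 (A, r).2)) ⊆
          (Icc (-⌊Y ^ 2⌋) ⌊Y ^ 2⌋).filter (fun n => (m : ℤ) ∣ n - A0) := by
        intro A hA
        rw [mem_filter] at hA ⊢
        refine ⟨hA.1, hmd _ ?_⟩
        have h3 := dvd_sub hA.2 hA0.2
        unfold cc at h3
        have e3 : 4 * (A, r).1 + 3 * (A, r).2 ^ 2 - (4 * (A0, r).1 + 3 * (A0, r).2 ^ 2) =
            4 * (A - A0) := by
          show 4 * A + 3 * r ^ 2 - (4 * A0 + 3 * r ^ 2) = 4 * (A - A0)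
          ring
        rw [e3] at h3
        exact h3
      have h5 : (((Icc (-⌊Y ^ 2⌋) ⌊Y ^ 2⌋).filter
          (fun A => (p : ℤ) ^ j ∣ cc (A, r).1 (A, r).2)).card : ℝ) ≤
          (((Icc (-⌊Y ^ 2⌋) ⌊Y ^ 2⌋).filter (fun n => (m : ℤ) ∣ n - A0)).card : ℝ) :=
        Nat.cast_le.2 (card_le_card hsub)
      linarith
  rw [filter_or, filter_or]
  have u1 : (((Box Y).filter (fun x => x.2 ≠ 0 ∧ (p : ℤ) ^ j ∣ x.2) ∪
      ((Box Y).filter (fun x => (p : ℤ) ^ j ∣ bb x.1 x.2) ∪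
        (Box Y).filter (fun x => (p : ℤ) ^ j ∣ cc x.1 x.2))).card : ℝ) ≤
      (((Box Y).filter (fun x => x.2 ≠ 0 ∧ (p : ℤ) ^ j ∣ x.2)).card : ℝ) +
      ((((Box Y).filter (fun x => (p : ℤ) ^ j ∣ bb x.1 x.2)).card : ℝ) +
        (((Box Y).filter (fun x => (p : ℤ) ^ j ∣ cc x.1 x.2)).card : ℝ)) := by
    have v1 := card_union_le ((Box Y).filter (fun x => x.2 ≠ 0 ∧ (p : ℤ) ^ j ∣ x.2))
      ((Box Y).filter (fun x => (p : ℤ) ^ j ∣ bb x.1 x.2) ∪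
        (Box Y).filter (fun x => (p : ℤ) ^ j ∣ cc x.1 x.2))
    have v2 := card_union_le ((Box Y).filter (fun x => (p : ℤ) ^ j ∣ bb x.1 x.2))
      ((Box Y).filter (fun x => (p : ℤ) ^ j ∣ cc x.1 x.2))
    exact_mod_cast v1.trans (Nat.add_le_add_left v2 _)
  refine u1.trans ?_
  have e7 : 36 * Y ^ 3 / 2 ^ j = 36 * (Y ^ 3 / 2 ^ j) := by ring
  have e8 : 3 * Y * (2 * Y ^ 2 / 2 ^ j + 1) = 6 * (Y ^ 3 / 2 ^ j) + 3 * Y := by ring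
  have e9 : 3 * Y * (8 * Y ^ 2 / 2 ^ j + 1) = 24 * (Y ^ 3 / 2 ^ j) + 3 * Y := by ring
  rw [e8] at s2
  rw [e9] at s3
  rw [e7]
  nlinarith
-- END exc_d

-- BEGIN exc_total
private theorem exc_total_rows (Y : ℝ) (hY : 1 ≤ Y) :
    ((Icc (-⌊Y⌋) ⌊Y⌋).card : ℝ) ≤ 3 * Y := by
  have h1 : 0 ≤ ⌊Y⌋ := Int.floor_nonneg.2 (by linarith)
  have h2 : (⌊Y⌋ : ℝ) ≤ Y := Int.floor_le Y
  rw [Int.card_Icc]
  have h3 : (((⌊Y⌋ + 1 - (-⌊Y⌋)).toNat : ℕ) : ℝ) = 2 * (⌊Y⌋ : ℝ) + 1 := by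
    have h4 : (((⌊Y⌋ + 1 - (-⌊Y⌋)).toNat : ℕ) : ℤ) = ⌊Y⌋ + 1 - (-⌊Y⌋) := Int.toNat_of_nonneg (by omega)
    have h5 : (((⌊Y⌋ + 1 - (-⌊Y⌋)).toNat : ℕ) : ℝ) = ((((⌊Y⌋ + 1 - (-⌊Y⌋)).toNat : ℕ) : ℤ) : ℝ) := by
      push_cast
      rfl
    rw [h5, h4]
    push_cast
    ring
  rw [h3]
  linarith

private theorem exc_total_zero (Y : ℝ) (hY : 1 ≤ Y) (g : ℤ → ℤ → ℤ)
    (hg : ∀ r A A' : ℤ, g A r = 0 → g A' r = 0 → A = A') :
    (((Box Y).filter (fun x => g x.1 x.2 = 0)).card : ℝ) ≤ 3 * Y := by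
  refine le_trans ?_ (exc_total_rows Y hY)
  have h1 : ((Box Y).filter (fun x => g x.1 x.2 = 0)).card ≤ (Icc (-⌊Y⌋) ⌊Y⌋).card := by
    refine Finset.card_le_card_of_injOn (fun x => x.2) ?_ ?_
    · intro x hx
      have hx' := (Finset.mem_filter.1 (Finset.mem_coe.1 hx)).1
      unfold Box at hx'
      exact Finset.mem_coe.2 (Finset.mem_product.1 hx').2
    · intro x hx x' hx' h
      have h2 := (Finset.mem_filter.1 (Finset.mem_coe.1 hx)).2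
      have h3 := (Finset.mem_filter.1 (Finset.mem_coe.1 hx')).2
      have h4 : x.2 = x'.2 := h
      rw [← h4] at h3
      exact Prod.ext (hg x.2 x.1 x'.1 h2 h3) h4
  exact_mod_cast h1

private theorem exc_total_r (Y : ℝ) (hY : 1 ≤ Y) :
    (((Box Y).filter (fun x => x.2 = 0)).card : ℝ) ≤ 3 * Y ^ 2 := by
  have hY2 : (1 : ℝ) ≤ Y ^ 2 := by nlinarith
  refine le_trans ?_ (exc_total_rows (Y ^ 2) hY2)
  have h1 : ((Box Y).filter (fun x => x.2 = 0)).card ≤ (Icc (-⌊Y ^ 2⌋) ⌊Y ^ 2⌋).card := by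
    refine Finset.card_le_card_of_injOn (fun x => x.1) ?_ ?_
    · intro x hx
      have hx' := (Finset.mem_filter.1 (Finset.mem_coe.1 hx)).1
      unfold Box at hx'
      exact Finset.mem_coe.2 (Finset.mem_product.1 hx').1
    · intro x hx x' hx' h
      have h2 := (Finset.mem_filter.1 (Finset.mem_coe.1 hx)).2
      have h3 := (Finset.mem_filter.1 (Finset.mem_coe.1 hx')).2
      exact Prod.ext h (by rw [h2, h3])
  exact_mod_cast h1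

/-- C8. `r = 0`: at most `3Y²`; `bb = 0`, `cc = 0`: at most `3Y` each; the rest from `exc_a` .. `exc_d`, at most `T` primes `p ≤ T`. -/
theorem exc_total (Y : ℝ) (hY : 1 ≤ Y) (T j : ℕ) (hT : 2 ≤ T) :
    (((Box Y).filter (fun x => Exc T j x.1 x.2)).card : ℝ) ≤
      (18 / T + 36 * T / 2 ^ j) * Y ^ 3 + (30 + 6 * T) * Y ^ 2 := by
  set S1 := (Box Y).filter (fun x => x.2 = 0) with hS1
  set S2 := (Box Y).filter (fun x => bb x.1 x.2 = 0) with hS2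
  set S3 := (Box Y).filter (fun x => cc x.1 x.2 = 0) with hS3
  set Sa := (Box Y).filter (fun x => x.2 ≠ 0 ∧ ∃ p : ℕ, p.Prime ∧ T < p ∧ (p : ℤ) ∣ x.1 ∧ (p : ℤ) ∣ x.2)
    with hSa
  set Sb := (Box Y).filter (fun x => bb x.1 x.2 ≠ 0 ∧ ∃ p : ℕ, p.Prime ∧ T < p ∧ (p : ℤ) ^ 2 ∣ bb x.1 x.2)
    with hSb
  set Sc := (Box Y).filter (fun x => cc x.1 x.2 ≠ 0 ∧ ∃ p : ℕ, p.Prime ∧ T < p ∧ (p : ℤ) ^ 2 ∣ cc x.1 x.2)
    with hSc
  set Sd : ℕ → Finset (ℤ × ℤ) := fun p => (Box Y).filter (fun x => (x.2 ≠ 0 ∧ (p : ℤ) ^ j ∣ x.2) ∨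
    (p : ℤ) ^ j ∣ bb x.1 x.2 ∨ (p : ℤ) ^ j ∣ cc x.1 x.2) with hSd
  set Q := (range (T + 1)).filter Nat.Prime with hQ
  have hsub : (Box Y).filter (fun x => Exc T j x.1 x.2) ⊆
      S1 ∪ (S2 ∪ (S3 ∪ (Sa ∪ (Sb ∪ (Sc ∪ Q.biUnion Sd))))) := by
    intro x hx
    obtain ⟨hxB, hxE⟩ := Finset.mem_filter.1 hx
    simp only [Finset.mem_union, Finset.mem_biUnion]
    by_cases h0 : x.2 = 0
    · exact Or.inl (Finset.mem_filter.2 ⟨hxB, h0⟩)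
    right
    by_cases hb0 : bb x.1 x.2 = 0
    · exact Or.inl (Finset.mem_filter.2 ⟨hxB, hb0⟩)
    right
    by_cases hc0 : cc x.1 x.2 = 0
    · exact Or.inl (Finset.mem_filter.2 ⟨hxB, hc0⟩)
    right
    unfold Exc at hxE
    rcases hxE with h | h | h | ⟨p, hp, hpT, h | h | h⟩ | ⟨p, hp, hpT, h⟩
    · exact absurd h h0
    · exact absurd h hb0
    · exact absurd h hc0
    · exact Or.inl (Finset.mem_filter.2 ⟨hxB, h0, p, hp, hpT, h.1, h.2⟩)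
    · exact Or.inr (Or.inl (Finset.mem_filter.2 ⟨hxB, hb0, p, hp, hpT, h⟩))
    · exact Or.inr (Or.inr (Or.inl (Finset.mem_filter.2 ⟨hxB, hc0, p, hp, hpT, h⟩)))
    · refine Or.inr (Or.inr (Or.inr ⟨p, Finset.mem_filter.2 ⟨Finset.mem_range.2 (by omega), hp⟩, ?_⟩))
      refine Finset.mem_filter.2 ⟨hxB, ?_⟩
      rcases h with h | h | h
      · exact Or.inl ⟨h0, h⟩
      · exact Or.inr (Or.inl h)
      · exact Or.inr (Or.inr h)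
  have h1 : (S1.card : ℝ) ≤ 3 * Y ^ 2 := exc_total_r Y hY
  have h2 : (S2.card : ℝ) ≤ 3 * Y := exc_total_zero Y hY bb (by
    intro r A A' hA hA'
    unfold bb at hA hA'
    omega)
  have h3 : (S3.card : ℝ) ≤ 3 * Y := exc_total_zero Y hY cc (by
    intro r A A' hA hA'
    unfold cc at hA hA'
    omega)
  have ha : (Sa.card : ℝ) ≤ 6 * Y ^ 3 / T := exc_a Y hY T (by omega)
  have hb : (Sb.card : ℝ) ≤ 6 * Y ^ 3 / T + 6 * Y ^ 2 := exc_b Y hY T (by omega)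
  have hc : (Sc.card : ℝ) ≤ 6 * Y ^ 3 / T + 9 * Y ^ 2 := exc_c Y hY T hT
  have hQc : (Q.card : ℝ) ≤ T := by
    have h4 : Q ⊆ Finset.Icc 1 T := by
      intro p hp
      obtain ⟨h5, h6⟩ := Finset.mem_filter.1 hp
      rw [Finset.mem_range] at h5
      exact Finset.mem_Icc.2 ⟨h6.one_lt.le, by omega⟩
    have h5 := Finset.card_le_card h4
    rw [Nat.card_Icc, Nat.add_sub_cancel] at h5
    exact_mod_cast h5
  have hd : ((Q.biUnion Sd).card : ℝ) ≤ T * (36 * Y ^ 3 / 2 ^ j + 6 * Y ^ 2) := by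
    have h4 : ((Q.biUnion Sd).card : ℝ) ≤ ∑ p ∈ Q, ((Sd p).card : ℝ) := by
      exact_mod_cast Finset.card_biUnion_le
    have h5 : ∑ p ∈ Q, ((Sd p).card : ℝ) ≤ ∑ p ∈ Q, (36 * Y ^ 3 / 2 ^ j + 6 * Y ^ 2) :=
      Finset.sum_le_sum (fun p hp => exc_d Y hY p j (Finset.mem_filter.1 hp).2)
    rw [Finset.sum_const, nsmul_eq_mul] at h5
    have h6 : (0 : ℝ) ≤ 36 * Y ^ 3 / 2 ^ j + 6 * Y ^ 2 := by positivity
    have h7 := mul_le_mul_of_nonneg_right hQc h6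
    linarith
  have hu : (((Box Y).filter (fun x => Exc T j x.1 x.2)).card : ℝ) ≤
      S1.card + (S2.card + (S3.card + (Sa.card + (Sb.card + (Sc.card + (Q.biUnion Sd).card))))) := by
    have h4 := Finset.card_le_card hsub
    have h5 := Finset.card_union_le S1 (S2 ∪ (S3 ∪ (Sa ∪ (Sb ∪ (Sc ∪ Q.biUnion Sd)))))
    have h6 := Finset.card_union_le S2 (S3 ∪ (Sa ∪ (Sb ∪ (Sc ∪ Q.biUnion Sd))))
    have h7 := Finset.card_union_le S3 (Sa ∪ (Sb ∪ (Sc ∪ Q.biUnion Sd)))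
    have h8 := Finset.card_union_le Sa (Sb ∪ (Sc ∪ Q.biUnion Sd))
    have h9 := Finset.card_union_le Sb (Sc ∪ Q.biUnion Sd)
    have h10 := Finset.card_union_le Sc (Q.biUnion Sd)
    have h11 : ((Box Y).filter (fun x => Exc T j x.1 x.2)).card ≤
        S1.card + (S2.card + (S3.card + (Sa.card + (Sb.card + (Sc.card + (Q.biUnion Sd).card))))) := by
      omega
    exact_mod_cast h11
  have hYY : Y ≤ Y ^ 2 := by nlinarith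
  have hT0 : (0 : ℝ) < T := by
    have : 0 < T := by omega
    exact_mod_cast this
  have e1 : (18 / (T : ℝ) + 36 * T / 2 ^ j) * Y ^ 3 + (30 + 6 * T) * Y ^ 2 =
      3 * (6 * Y ^ 3 / T) + T * (36 * Y ^ 3 / 2 ^ j + 6 * Y ^ 2) + 30 * Y ^ 2 := by
    field_simp
    ring
  rw [e1]
  linarith
-- END exc_total

-- BEGIN mem_Reg
/-- C9. `|A|³ ≤ Y⁶/4` gives `|A| ≤ 0.64 Y²`; if `|r| > Y` then `|BB| = |r| |r² + A| ≥ 0.36 |r|³ > 0.36 Y³`, but `|BB| ≤ Y³/√27 < 0.2 Y³`. -/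
theorem mem_Reg (Y : ℝ) (hY : 0 ≤ Y) (A r : ℤ) : (A, r) ∈ Reg Y ↔
    4 * |(A : ℝ)| ^ 3 ≤ Y ^ 6 ∧ 27 * ((BB A r : ℤ) : ℝ) ^ 2 ≤ Y ^ 6 := by
  unfold Reg
  rw [mem_filter, mem_product, mem_Icc, mem_Icc]
  constructor
  · exact fun h => h.2
  · rintro ⟨h1, h2⟩
    have hA : |(A : ℝ)| ≤ 0.64 * Y ^ 2 := by
      by_contra hc
      have hc' : 0.64 * Y ^ 2 < |(A : ℝ)| := lt_of_not_ge hc
      have h3 : (0.64 * Y ^ 2) ^ 3 < |(A : ℝ)| ^ 3 :=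
        pow_lt_pow_left₀ hc' (by positivity) (by norm_num)
      have h4 : 0 ≤ Y ^ 6 := by positivity
      have h5 : (0.64 * Y ^ 2) ^ 3 = 0.262144 * Y ^ 6 := by ring
      rw [h5] at h3
      linarith
    have hr : |(r : ℝ)| ≤ Y := by
      by_contra hc
      have hc' : Y < |(r : ℝ)| := lt_of_not_ge hc
      have h3 : Y ^ 2 < (r : ℝ) ^ 2 := by
        rw [← sq_abs (r : ℝ)]
        exact pow_lt_pow_left₀ hc' hY (by norm_num)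
      have h5 : 0.36 * (r : ℝ) ^ 2 ≤ (r : ℝ) ^ 2 + A := by
        have h6 := neg_abs_le (A : ℝ)
        linarith
      have h6 : ((BB A r : ℤ) : ℝ) ^ 2 = (r : ℝ) ^ 2 * ((r : ℝ) ^ 2 + A) ^ 2 := by
        unfold BB
        push_cast
        ring
      have h7 : (0.36 * (r : ℝ) ^ 2) ^ 2 ≤ ((r : ℝ) ^ 2 + A) ^ 2 :=
        pow_le_pow_left₀ (by positivity) h5 2
      have h8 : (Y ^ 2) ^ 3 < ((r : ℝ) ^ 2) ^ 3 :=
        pow_lt_pow_left₀ h3 (by positivity) (by norm_num)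
      have h9 : (r : ℝ) ^ 2 * (0.36 * (r : ℝ) ^ 2) ^ 2 ≤ (r : ℝ) ^ 2 * ((r : ℝ) ^ 2 + A) ^ 2 :=
        mul_le_mul_of_nonneg_left h7 (sq_nonneg _)
      have h10 : (r : ℝ) ^ 2 * (0.36 * (r : ℝ) ^ 2) ^ 2 = 0.1296 * ((r : ℝ) ^ 2) ^ 3 := by ring
      have h11 : (Y ^ 2) ^ 3 = Y ^ 6 := by ring
      have h12 : 0 ≤ Y ^ 6 := by positivity
      rw [h6] at h2
      rw [h10] at h9
      rw [h11] at h8
      linarith
    have hY2 : 0 ≤ Y ^ 2 := sq_nonneg Y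
    have hA1 := abs_le.1 hA
    have hr1 := abs_le.1 hr
    refine ⟨⟨⟨?_, ?_⟩, ?_, ?_⟩, h1, h2⟩
    · have h3 : -A ≤ ⌊Y ^ 2⌋ := Int.le_floor.2 (by push_cast; linarith)
      show -⌊Y ^ 2⌋ ≤ A
      omega
    · exact Int.le_floor.2 (by linarith)
    · have h3 : -r ≤ ⌊Y⌋ := Int.le_floor.2 (by push_cast; linarith)
      show -⌊Y⌋ ≤ r
      omega
    · exact Int.le_floor.2 (by linarith)
-- END mem_Reg

/-- the pairs `(A, r)` of the curves of the family -/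
noncomputable def PR (Y : ℝ) : Finset (ℤ × ℤ) :=
  (Reg Y).filter (fun x => Minimal x.1 (BB x.1 x.2) ∧ disc x.1 (BB x.1 x.2) ≠ 0)

-- BEGIN low
private theorem low_free (M : ℕ) :
    3 / 4 * (M : ℝ) ≤ (((Ioc 0 M).filter (fun a : ℕ => ∀ n : ℕ, 2 ≤ n → ¬ n ^ 4 ∣ a)).card : ℝ) := by
  have h1 : ((Ioc 0 M).filter (fun a : ℕ => ¬ ∀ n : ℕ, 2 ≤ n → ¬ n ^ 4 ∣ a)).card ≤
      ∑ n ∈ Ioc 1 M, M / n ^ 4 := by
    have hsub : (Ioc 0 M).filter (fun a : ℕ => ¬ ∀ n : ℕ, 2 ≤ n → ¬ n ^ 4 ∣ a) ⊆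
        (Ioc 1 M).biUnion (fun n => (Ioc 0 M).filter (fun a => n ^ 4 ∣ a)) := by
      intro a ha
      obtain ⟨h1, h2⟩ := Finset.mem_filter.1 ha
      push Not at h2
      obtain ⟨n, h3, h4⟩ := h2
      have h5 := Finset.mem_Ioc.1 h1
      have h6 : n ^ 4 ≤ a := Nat.le_of_dvd h5.1 h4
      have h7 : n ≤ n ^ 4 := Nat.le_self_pow (by norm_num) n
      exact Finset.mem_biUnion.2 ⟨n, Finset.mem_Ioc.2 ⟨by omega, by omega⟩,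
        Finset.mem_filter.2 ⟨h1, h4⟩⟩
    refine le_trans (Finset.card_le_card hsub) (le_trans Finset.card_biUnion_le ?_)
    refine Finset.sum_le_sum (fun n _ => ?_)
    exact (Nat.Ioc_filter_dvd_card_eq_div M (n ^ 4)).le
  have h2 : ((∑ n ∈ Ioc 1 M, M / n ^ 4 : ℕ) : ℝ) ≤ M / 4 := by
    rw [Nat.cast_sum]
    calc ∑ n ∈ Ioc 1 M, ((M / n ^ 4 : ℕ) : ℝ) ≤ ∑ n ∈ Ioc 1 M, (M / 4 : ℝ) * (1 / (n : ℝ) ^ 2) := by
          refine Finset.sum_le_sum (fun n hn => ?_)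
          have hn2 : 2 ≤ n := by
            have := (Finset.mem_Ioc.1 hn).1
            omega
          have hnR : (2 : ℝ) ≤ n := by exact_mod_cast hn2
          have hpos : (0 : ℝ) < (n : ℝ) ^ 2 := by positivity
          refine le_trans Nat.cast_div_le ?_
          rw [Nat.cast_pow]
          have h3 : (n : ℝ) ^ 4 = (n : ℝ) ^ 2 * (n : ℝ) ^ 2 := by ring
          have h4 : (4 : ℝ) ≤ (n : ℝ) ^ 2 := by nlinarith
          rw [h3, div_mul_div_comm, mul_one]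
          refine div_le_div_of_nonneg_left (Nat.cast_nonneg M) (by positivity) ?_
          exact mul_le_mul_of_nonneg_right h4 hpos.le
      _ = (M / 4 : ℝ) * ∑ n ∈ Ioc 1 M, 1 / (n : ℝ) ^ 2 := by rw [Finset.mul_sum]
      _ ≤ (M / 4 : ℝ) * (1 / ((1 : ℕ) : ℝ)) :=
          mul_le_mul_of_nonneg_left (inv_sq 1 M le_rfl) (by positivity)
      _ = M / 4 := by simp
  have h3 := Finset.card_filter_add_card_filter_not (s := Ioc 0 M)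
    (fun a : ℕ => ∀ n : ℕ, 2 ≤ n → ¬ n ^ 4 ∣ a)
  rw [Nat.card_Ioc] at h3
  have h4 : (((Ioc 0 M).filter (fun a : ℕ => ∀ n : ℕ, 2 ≤ n → ¬ n ^ 4 ∣ a)).card : ℝ) +
      (((Ioc 0 M).filter (fun a : ℕ => ¬ ∀ n : ℕ, 2 ≤ n → ¬ n ^ 4 ∣ a)).card : ℝ) = M := by
    exact_mod_cast h3
  have h5 : (((Ioc 0 M).filter (fun a : ℕ => ¬ ∀ n : ℕ, 2 ≤ n → ¬ n ^ 4 ∣ a)).card : ℝ) ≤
      ((∑ n ∈ Ioc 1 M, M / n ^ 4 : ℕ) : ℝ) := by exact_mod_cast h1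
  linarith

/-- C10. `1 ≤ r ≤ Y/4`, `|A| ≤ Y²/4` are in `Reg Y`: about `Y³/8` pairs. Not minimal: `p² ∣ r`, `p⁴ ∣ A` for a prime `p` (if `p⁴ ∣ A` and `p⁶ ∣ r (r² + A)` then `p² ∣ r`: if `v(r) ≤ 1` then
`v(r² + A) = 2v(r)`), at most `∑_{n≥2} (Y/4n²)(Y²/2n⁴ + 1) ≤ Y³/256 + Y/4`. `disc = bb² cc = 0`: at most `Y/2`. -/
theorem low : ∃ Y₀ : ℝ, ∀ Y : ℝ, Y₀ ≤ Y → Y ^ 3 / 16 ≤ ((PR Y).card : ℝ) := by
  refine ⟨100, fun Y hY => ?_⟩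
  set M : ℕ := ⌊Y ^ 2 / 2⌋₊ with hM
  set K : ℕ := ⌊Y / 4⌋₊ with hK
  set FA := (Ioc 0 M).filter (fun a : ℕ => ∀ n : ℕ, 2 ≤ n → ¬ n ^ 4 ∣ a) with hFA
  have hM1 : (M : ℝ) ≤ Y ^ 2 / 2 := Nat.floor_le (by positivity)
  have hM2 : Y ^ 2 / 2 < M + 1 := Nat.lt_floor_add_one _
  have hK1 : (K : ℝ) ≤ Y / 4 := Nat.floor_le (by linarith)
  have hK2 : Y / 4 < K + 1 := Nat.lt_floor_add_one _
  have hinj : Function.Injective (fun x : ℕ × ℕ => ((x.1 : ℤ), (x.2 : ℤ))) := by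
    intro x y hxy
    have h1 := congrArg Prod.fst hxy
    have h2 := congrArg Prod.snd hxy
    simp only [Nat.cast_inj] at h1 h2
    exact Prod.ext h1 h2
  have hsub : (FA ×ˢ Ioc 0 K).image (fun x : ℕ × ℕ => ((x.1 : ℤ), (x.2 : ℤ))) ⊆ PR Y := by
    intro y hy
    obtain ⟨⟨a, r⟩, hx, rfl⟩ := Finset.mem_image.1 hy
    obtain ⟨ha, hr⟩ := Finset.mem_product.1 hx
    simp only at ha hr ⊢
    obtain ⟨ha1, ha2⟩ := Finset.mem_filter.1 ha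
    have ha3 := Finset.mem_Ioc.1 ha1
    have hr3 := Finset.mem_Ioc.1 hr
    have haR : (a : ℝ) ≤ Y ^ 2 / 2 := le_trans (by exact_mod_cast ha3.2) hM1
    have hrR : (r : ℝ) ≤ Y / 4 := le_trans (by exact_mod_cast hr3.2) hK1
    have ha0 : (0 : ℝ) ≤ a := Nat.cast_nonneg a
    have hr0 : (0 : ℝ) ≤ r := Nat.cast_nonneg r
    have hY0 : (0 : ℝ) ≤ Y := by linarith
    rw [PR, Finset.mem_filter]
    refine ⟨(mem_Reg Y hY0 _ _).2 ⟨?_, ?_⟩, ?_, ?_⟩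
    · rw [Int.cast_natCast, abs_of_nonneg ha0]
      have h1 : (a : ℝ) ^ 3 ≤ (Y ^ 2 / 2) ^ 3 := pow_le_pow_left₀ ha0 haR 3
      have h2 : (0 : ℝ) ≤ Y ^ 6 := by positivity
      calc 4 * (a : ℝ) ^ 3 ≤ 4 * (Y ^ 2 / 2) ^ 3 := by linarith
        _ = Y ^ 6 / 2 := by ring
        _ ≤ Y ^ 6 := by linarith
    · have h1 : ((BB (a : ℤ) (r : ℤ) : ℤ) : ℝ) = -((r : ℝ) ^ 3 + a * r) := by
        unfold BB
        push_cast
        ring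
      have h2 : (r : ℝ) ^ 3 ≤ (Y / 4) ^ 3 := pow_le_pow_left₀ hr0 hrR 3
      have h3 : (a : ℝ) * r ≤ (Y ^ 2 / 2) * (Y / 4) := mul_le_mul haR hrR hr0 (by positivity)
      have h4 : (0 : ℝ) ≤ (r : ℝ) ^ 3 + a * r := by positivity
      have h5 : (r : ℝ) ^ 3 + a * r ≤ 9 / 64 * Y ^ 3 := by
        calc (r : ℝ) ^ 3 + a * r ≤ (Y / 4) ^ 3 + (Y ^ 2 / 2) * (Y / 4) := add_le_add h2 h3
          _ = 9 / 64 * Y ^ 3 := by ring
      have h6 : ((r : ℝ) ^ 3 + a * r) ^ 2 ≤ (9 / 64 * Y ^ 3) ^ 2 := pow_le_pow_left₀ h4 h5 2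
      have h7 : (0 : ℝ) ≤ Y ^ 6 := by positivity
      rw [h1]
      calc 27 * (-((r : ℝ) ^ 3 + a * r)) ^ 2 = 27 * ((r : ℝ) ^ 3 + a * r) ^ 2 := by ring
        _ ≤ 27 * (9 / 64 * Y ^ 3) ^ 2 := by linarith
        _ = 2187 / 4096 * Y ^ 6 := by ring
        _ ≤ Y ^ 6 := by linarith
    · intro p hp h1
      have h2 : ((p ^ 4 : ℕ) : ℤ) ∣ (a : ℤ) := by
        rw [Nat.cast_pow]
        exact h1.1
      exact ha2 p hp.two_le (Int.natCast_dvd_natCast.1 h2)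
    · rw [disc_BB]
      have h1 : (0 : ℤ) < a := by exact_mod_cast ha3.1
      have h2 : (0 : ℤ) < r := by exact_mod_cast hr3.1
      have h3 : 0 < bb (a : ℤ) (r : ℤ) := by
        unfold bb
        positivity
      have h4 : 0 < cc (a : ℤ) (r : ℤ) := by
        unfold cc
        positivity
      positivity
  have hcard := Finset.card_le_card hsub
  rw [Finset.card_image_of_injective _ hinj, Finset.card_product, Nat.card_Ioc, Nat.sub_zero] at hcard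
  have hcR : (FA.card : ℝ) * K ≤ ((PR Y).card : ℝ) := by exact_mod_cast hcard
  have hfree := low_free M
  rw [← hFA] at hfree
  have h1 : 3 / 4 * (Y ^ 2 / 2 - 1) ≤ (FA.card : ℝ) := by linarith
  have h2 : Y / 4 - 1 ≤ (K : ℝ) := by linarith
  have h3 : 3 / 4 * (Y ^ 2 / 2 - 1) * (Y / 4 - 1) ≤ (FA.card : ℝ) * K := by
    refine mul_le_mul h1 h2 (by linarith) (Nat.cast_nonneg _)
  have h4 : Y ^ 3 / 16 ≤ 3 / 4 * (Y ^ 2 / 2 - 1) * (Y / 4 - 1) := by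
    have h5 : 0 ≤ (Y - 100) * Y ^ 2 := mul_nonneg (by linarith) (by positivity)
    have h6 : 0 ≤ (Y - 100) * Y := mul_nonneg (by linarith) (by linarith)
    nlinarith
  linarith
-- END low

-- BEGIN triple
/-- C11. `r'³ + A r' = r³ + A r`, `r' ≠ r` gives `A = -(r² + r r' + r'²)`, so `r'² ≤ 4Y²/3` and the pair `(A, r)` is determined by `(r, r')`. -/
theorem triple (Y : ℝ) (hY : 1 ≤ Y) :
    (((Box Y).filter (fun x => ∃ r' : ℤ, r' ≠ x.2 ∧ BB x.1 r' = BB x.1 x.2)).card : ℝ) ≤ 12 * Y ^ 2 := by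
  have hY0 : 0 ≤ Y := by linarith
  have hcard : ∀ a : ℝ, 0 ≤ a →
      (((Icc (-⌊a⌋) ⌊a⌋ : Finset ℤ).card : ℕ) : ℝ) ≤ 2 * a + 1 := by
    intro a ha
    have h0 : (0 : ℤ) ≤ ⌊a⌋ := Int.floor_nonneg.2 ha
    have h1 : (((Icc (-⌊a⌋) ⌊a⌋ : Finset ℤ).card : ℕ) : ℤ) = 2 * ⌊a⌋ + 1 := by
      rw [Int.card_Icc]
      omega
    have h2 : (((Icc (-⌊a⌋) ⌊a⌋ : Finset ℤ).card : ℕ) : ℝ) = 2 * (⌊a⌋ : ℝ) + 1 := by
      exact_mod_cast h1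
    have h3 := Int.floor_le a
    rw [h2]
    linarith
  have h1 : (Box Y).filter (fun x => ∃ r' : ℤ, r' ≠ x.2 ∧ BB x.1 r' = BB x.1 x.2) ⊆
      ((Icc (-⌊Y⌋) ⌊Y⌋) ×ˢ (Icc (-⌊1.2 * Y⌋) ⌊1.2 * Y⌋)).image
        (fun z : ℤ × ℤ => (-(z.1 ^ 2 + z.1 * z.2 + z.2 ^ 2), z.1)) := by
    rintro ⟨A, r⟩ hx
    rw [mem_filter, Box, mem_product] at hx
    obtain ⟨⟨hA, hr⟩, s, hs, hB⟩ := hx
    simp only at hA hr hs hB
    have h2 : A = -(r ^ 2 + r * s + s ^ 2) := by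
      unfold BB at hB
      have h3 : (s - r) * (A + (r ^ 2 + r * s + s ^ 2)) = 0 := by linear_combination -hB
      rcases mul_eq_zero.1 h3 with h4 | h4
      · exact absurd (by linarith) hs
      · linarith
    rw [mem_image]
    refine ⟨(r, s), mem_product.2 ⟨hr, ?_⟩, by rw [← h2]⟩
    have hA1 := mem_Icc.1 hA
    have hA3 : -(Y ^ 2) ≤ (A : ℝ) := by
      have h3 : -A ≤ ⌊Y ^ 2⌋ := by omega
      have h4 := Int.le_floor.1 h3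
      push_cast at h4
      linarith
    have h5 : (A : ℝ) = -((r : ℝ) ^ 2 + r * s + (s : ℝ) ^ 2) := by exact_mod_cast h2
    have h6 : (s : ℝ) ^ 2 ≤ (1.2 * Y) ^ 2 := by nlinarith [sq_nonneg ((r : ℝ) + s / 2)]
    have h7 := abs_le_of_sq_le_sq' h6 (by positivity)
    rw [mem_Icc]
    constructor
    · have h8 : -s ≤ ⌊1.2 * Y⌋ := Int.le_floor.2 (by push_cast; linarith [h7.1])
      show -⌊1.2 * Y⌋ ≤ s
      omega
    · exact Int.le_floor.2 h7.2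
  have h2 := (card_le_card h1).trans card_image_le
  rw [card_product] at h2
  have h3 : (((Box Y).filter (fun x => ∃ r' : ℤ, r' ≠ x.2 ∧ BB x.1 r' = BB x.1 x.2)).card : ℝ) ≤
      (((Icc (-⌊Y⌋) ⌊Y⌋ : Finset ℤ).card : ℕ) : ℝ) *
        (((Icc (-⌊1.2 * Y⌋) ⌊1.2 * Y⌋ : Finset ℤ).card : ℕ) : ℝ) := by
    exact_mod_cast h2
  have h4 := hcard Y hY0
  have h5 := hcard (1.2 * Y) (by positivity)
  calc (((Box Y).filter (fun x => ∃ r' : ℤ, r' ≠ x.2 ∧ BB x.1 r' = BB x.1 x.2)).card : ℝ)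
      ≤ _ := h3
    _ ≤ (2 * Y + 1) * (2 * (1.2 * Y) + 1) := mul_le_mul h4 h5 (Nat.cast_nonneg _) (by positivity)
    _ ≤ 12 * Y ^ 2 := by nlinarith
-- END triple

-- BEGIN root_int
/-- C12. Rational root theorem (`isInteger_of_is_root_of_monic` or a direct argument with `num`, `den`). -/
theorem root_int (A B : ℤ) (r : ℚ) (h : r ^ 3 + A * r + B = 0) : ∃ s : ℤ, (s : ℚ) = r ∧ B = BB A s := by
  have hi : IsIntegral ℤ r := by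
    refine ⟨Polynomial.X ^ 3 + (Polynomial.C A * Polynomial.X + Polynomial.C B), ?_, ?_⟩
    · apply Polynomial.monic_X_pow_add
      refine lt_of_le_of_lt Polynomial.degree_linear_le ?_
      exact_mod_cast (by norm_num : (1 : ℕ) < 3)
    · rw [Polynomial.eval₂_add, Polynomial.eval₂_pow, Polynomial.eval₂_X, Polynomial.eval₂_add,
        Polynomial.eval₂_mul, Polynomial.eval₂_C, Polynomial.eval₂_C, Polynomial.eval₂_X]
      rw [← add_assoc]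
      exact h
  obtain ⟨s, hs⟩ := IsIntegrallyClosed.isIntegral_iff.1 hi
  have hs' : (s : ℚ) = r := hs
  refine ⟨s, hs', ?_⟩
  have h2 : ((B : ℤ) : ℚ) = ((BB A s : ℤ) : ℚ) := by
    unfold BB
    push_cast
    rw [hs']
    linear_combination h
  exact_mod_cast h2
-- END root_int

-- BEGIN fam_sum
private theorem fam_sum_fib (S D : Finset (ℤ × ℤ)) (g : ℤ × ℤ → ℤ × ℤ) (hDS : D ⊆ S)
    (hD : ∀ x ∈ S, ∀ x' ∈ S, g x = g x' → x ≠ x' → x ∈ D) (f : ℤ × ℤ → ℝ) (hf : ∀ E, |f E| ≤ 1) :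
    |∑ E ∈ S.image g, f E - ∑ x ∈ S, f (g x)| ≤ (D.card : ℝ) := by
  have h0 : ∑ x ∈ S, f (g x) = ∑ b ∈ S.image g, (S.filter (fun a => g a = b)).card • f b :=
    Finset.sum_comp f g
  rw [h0, ← Finset.sum_sub_distrib]
  have h1 : ∀ E ∈ S.image g, |f E - (S.filter (fun a => g a = E)).card • f E| ≤
      ((D.filter (fun a => g a = E)).card : ℝ) := by
    intro E hE
    obtain ⟨x, hx, hxE⟩ := Finset.mem_image.1 hE
    have hxm : x ∈ S.filter (fun a => g a = E) := Finset.mem_filter.2 ⟨hx, hxE⟩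
    have hpos : 0 < (S.filter (fun a => g a = E)).card := Finset.card_pos.2 ⟨x, hxm⟩
    rcases Nat.lt_or_ge 1 (S.filter (fun a => g a = E)).card with h | h
    · have hsub : S.filter (fun a => g a = E) ⊆ D.filter (fun a => g a = E) := by
        intro y hy
        rw [Finset.mem_filter] at hy
        obtain ⟨z, hz, hzy⟩ := Finset.exists_mem_ne h y
        rw [Finset.mem_filter] at hz
        refine Finset.mem_filter.2 ⟨hD y hy.1 z hz.1 (by rw [hy.2, hz.2]) (Ne.symm hzy), hy.2⟩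
      have hcard := Finset.card_le_card hsub
      have e1 : f E - (S.filter (fun a => g a = E)).card • f E =
          (1 - ((S.filter (fun a => g a = E)).card : ℝ)) * f E := by
        rw [nsmul_eq_mul]
        ring
      have h2 : (1 : ℝ) ≤ ((S.filter (fun a => g a = E)).card : ℝ) := by exact_mod_cast hpos
      have h3 : ((S.filter (fun a => g a = E)).card : ℝ) ≤ ((D.filter (fun a => g a = E)).card : ℝ) := by
        exact_mod_cast hcard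
      rw [e1, abs_mul, abs_of_nonpos (by linarith)]
      have h4 := hf E
      have h5 := abs_nonneg (f E)
      nlinarith
    · have h2 : (S.filter (fun a => g a = E)).card = 1 := by omega
      rw [h2, one_smul, sub_self, abs_zero]
      positivity
  have h2 : ∑ E ∈ S.image g, ((D.filter (fun a => g a = E)).card : ℝ) = (D.card : ℝ) := by
    have h3 := Finset.card_eq_sum_card_fiberwise (f := g) (s := D) (t := S.image g)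
      (fun x hx => Finset.mem_coe.2 (Finset.mem_image_of_mem g (hDS hx)))
    rw [h3]
    push_cast
    rfl
  calc |∑ E ∈ S.image g, (f E - (S.filter (fun a => g a = E)).card • f E)|
      ≤ ∑ E ∈ S.image g, |f E - (S.filter (fun a => g a = E)).card • f E| :=
        Finset.abs_sum_le_sum_abs _ _
    _ ≤ ∑ E ∈ S.image g, ((D.filter (fun a => g a = E)).card : ℝ) := Finset.sum_le_sum h1
    _ = (D.card : ℝ) := h2

/-- C13. `F` is the image of `PR Y` under `(A, r) ↦ (A, BB A r)` (`mem_Reg`, `root_int`). The sum over `PR Y` counts a curve once for each root; the pairs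
with another root are at most `12 Y²` (`triple`, `Reg Y ⊆ Box Y`). -/
theorem fam_sum (Y : ℝ) (hY : 1 ≤ Y) : ∃ F : Finset (ℤ × ℤ), (F : Set (ℤ × ℤ)) = Fam (Y ^ 6) ∧
    ∀ f : ℤ × ℤ → ℝ, (∀ E, |f E| ≤ 1) →
      |∑ E ∈ F, f E - ∑ x ∈ PR Y, f (x.1, BB x.1 x.2)| ≤ 12 * Y ^ 2 := by
  have hY0 : 0 ≤ Y := by linarith
  refine ⟨(PR Y).image (fun x => (x.1, BB x.1 x.2)), ?_, ?_⟩
  · ext E
    obtain ⟨A, B⟩ := E
    rw [Finset.coe_image, Set.mem_image]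
    constructor
    · rintro ⟨⟨A', r⟩, hx, hE⟩
      rw [Finset.mem_coe] at hx
      unfold PR at hx
      rw [Finset.mem_filter, mem_Reg Y hY0] at hx
      obtain ⟨⟨h1, h2⟩, h3, h4⟩ := hx
      have e1 : A' = A := congrArg Prod.fst hE
      have e2 : BB A' r = B := congrArg Prod.snd hE
      subst e1
      subst e2
      refine ⟨h3, h4, ⟨(r : ℚ), ?_⟩, h1, h2⟩
      show (r : ℚ) ^ 3 + (A' : ℚ) * r + ((BB A' r : ℤ) : ℚ) = 0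
      unfold BB
      push_cast
      ring
    · rintro ⟨h1, h2, ⟨r, hr⟩, h3, h4⟩
      obtain ⟨s, -, hs⟩ := root_int A B r hr
      refine ⟨(A, s), ?_, ?_⟩
      · rw [Finset.mem_coe]
        unfold PR
        rw [Finset.mem_filter, mem_Reg Y hY0]
        show (4 * |(A : ℝ)| ^ 3 ≤ Y ^ 6 ∧ 27 * ((BB A s : ℤ) : ℝ) ^ 2 ≤ Y ^ 6) ∧
          Minimal A (BB A s) ∧ disc A (BB A s) ≠ 0
        rw [← hs]
        exact ⟨⟨h3, h4⟩, h1, h2⟩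
      · show (A, BB A s) = (A, B)
        rw [← hs]
  · intro f hf
    set D : Finset (ℤ × ℤ) := (PR Y).filter (fun x => ∃ r' : ℤ, r' ≠ x.2 ∧ BB x.1 r' = BB x.1 x.2)
      with hD
    have h1 := fam_sum_fib (PR Y) D (fun x => (x.1, BB x.1 x.2)) (Finset.filter_subset _ _) ?_ f hf
    · refine h1.trans ?_
      refine le_trans ?_ (triple Y hY)
      have hsub : D ⊆ (Box Y).filter (fun x => ∃ r' : ℤ, r' ≠ x.2 ∧ BB x.1 r' = BB x.1 x.2) := by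
        intro x hx
        rw [hD, Finset.mem_filter] at hx
        refine Finset.mem_filter.2 ⟨?_, hx.2⟩
        have h2 := hx.1
        unfold PR at h2
        have h3 := (Finset.mem_filter.1 h2).1
        unfold Reg at h3
        exact (Finset.mem_filter.1 h3).1
      exact_mod_cast Finset.card_le_card hsub
    · intro x hx x' hx' hg hne
      have e1 : x.1 = x'.1 := (Prod.mk.inj hg).1
      have e2 : BB x.1 x.2 = BB x'.1 x'.2 := (Prod.mk.inj hg).2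
      refine Finset.mem_filter.2 ⟨hx, x'.2, ?_, ?_⟩
      · intro h
        exact hne (Prod.ext e1 h.symm)
      · rw [e2, e1]
-- END fam_sum

/-! ## The region -/

/-- `4|A|³ ≤ Y⁶` iff `|A| ≤ a1 Y` -/
noncomputable def a1 (Y : ℝ) : ℤ := ⌊(Y ^ 6 / 4) ^ ((1 : ℝ) / 3)⌋

/-- `27 BB² ≤ Y⁶` iff `|A + r²| ≤ q1 Y r` -/
noncomputable def q1 (Y : ℝ) (r : ℤ) : ℤ := ⌊Real.sqrt (Y ^ 6 / 27) / |(r : ℝ)|⌋

/-- the sign patterns of `bb`, `cc` -/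
def pat (t : Fin 3) (A r : ℤ) : Prop :=
  (t = 0 ∧ bb A r < 0 ∧ cc A r < 0) ∨ (t = 1 ∧ 0 < bb A r ∧ cc A r < 0) ∨ (t = 2 ∧ 0 < bb A r ∧ 0 < cc A r)

/-- lower end of the interval for `b` -/
noncomputable def lo (Y : ℝ) (t : Fin 3) (r : ℤ) : ℤ :=
  if t = 0 then max (3 * r ^ 2 - a1 Y - 1) (2 * r ^ 2 - q1 Y r - 1)
  else if t = 1 then max (max (3 * r ^ 2 - a1 Y - 1) (2 * r ^ 2 - q1 Y r - 1)) 0
  else max (max (3 * r ^ 2 - a1 Y - 1) (2 * r ^ 2 - q1 Y r - 1)) (9 * r ^ 2 / 4)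

/-- upper end of the interval for `b` -/
noncomputable def hi (Y : ℝ) (t : Fin 3) (r : ℤ) : ℤ :=
  if t = 0 then min (min (3 * r ^ 2 + a1 Y) (2 * r ^ 2 + q1 Y r)) (-1)
  else if t = 1 then min (min (3 * r ^ 2 + a1 Y) (2 * r ^ 2 + q1 Y r)) ((9 * r ^ 2 - 1) / 4)
  else min (3 * r ^ 2 + a1 Y) (2 * r ^ 2 + q1 Y r)

-- BEGIN lohi_mem
private lemma lohi_mem_a (Y : ℝ) (hY : 1 ≤ Y) (A : ℤ) :
    4 * |(A : ℝ)| ^ 3 ≤ Y ^ 6 ↔ |A| ≤ a1 Y := by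
  have hY0 : 0 ≤ Y ^ 6 / 4 := by positivity
  have hc0 : 0 ≤ (Y ^ 6 / 4) ^ ((1 : ℝ) / 3) := Real.rpow_nonneg hY0 _
  have hc : ((Y ^ 6 / 4) ^ ((1 : ℝ) / 3)) ^ 3 = Y ^ 6 / 4 := by
    rw [← Real.rpow_natCast, ← Real.rpow_mul hY0]
    norm_num
  unfold a1
  rw [Int.le_floor]
  push_cast
  rw [← pow_le_pow_iff_left₀ (abs_nonneg (A : ℝ)) hc0 (by norm_num : (3 : ℕ) ≠ 0), hc,
    le_div_iff₀ (by norm_num : (0 : ℝ) < 4), mul_comm]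

private lemma lohi_mem_q (Y : ℝ) (hY : 1 ≤ Y) (A r : ℤ) (hr : r ≠ 0) :
    27 * ((BB A r : ℤ) : ℝ) ^ 2 ≤ Y ^ 6 ↔ |A + r ^ 2| ≤ q1 Y r := by
  have hr0 : (0 : ℝ) < |(r : ℝ)| := abs_pos.2 (by exact_mod_cast hr)
  unfold q1
  rw [Int.le_floor, le_div_iff₀ hr0]
  have e1 : ((|A + r ^ 2| : ℤ) : ℝ) * |(r : ℝ)| = |((BB A r : ℤ) : ℝ)| := by
    unfold BB
    push_cast
    rw [← abs_mul, ← abs_neg]
    congr 1
    ring
  rw [e1, Real.le_sqrt (abs_nonneg _) (by positivity), sq_abs, le_div_iff₀ (by norm_num : (0 : ℝ) < 27),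
    mul_comm]

/-- R1. `bb = A + 3r² = (A + r²) + 2r²`; `cc = 4 bb - 9r²`, so `cc < 0` iff `bb ≤ (9r² - 1)/4`, `cc > 0` iff `bb > 9r²/4` (floor; `cc = 0` in neither); `bb < 0` implies `cc < 0` and
`cc > 0` implies `bb > 0`. `|BB| = |r| |r² + A|`. -/
theorem lohi_mem (Y : ℝ) (hY : 1 ≤ Y) (t : Fin 3) (A r : ℤ) (hr : r ≠ 0) :
    ((A, r) ∈ Reg Y ∧ pat t A r) ↔ bb A r ∈ Ioc (lo Y t r) (hi Y t r) := by
  rw [mem_Reg Y (by linarith), lohi_mem_a Y hY, lohi_mem_q Y hY A r hr, abs_le, abs_le]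
  have hR : 0 ≤ r ^ 2 := sq_nonneg r
  have h0 : (0 : Fin 3) ≠ 1 := by decide
  have h1 : (0 : Fin 3) ≠ 2 := by decide
  have h2 : (1 : Fin 3) ≠ 2 := by decide
  unfold pat lo hi bb cc
  generalize r ^ 2 = R at *
  generalize a1 Y = a
  generalize q1 Y r = q
  fin_cases t
  · simp only [Fin.zero_eta, Fin.isValue, true_and, if_true, mem_Ioc, max_lt_iff, le_min_iff, h0,
      h1, false_and, or_false]
    omega
  · simp only [Fin.mk_one, Fin.isValue, true_and, if_true, mem_Ioc, max_lt_iff, le_min_iff, h2,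
      h0.symm, false_and, or_false, false_or, if_false]
    omega
  · simp only [Fin.reduceFinMk, Fin.isValue, true_and, mem_Ioc, max_lt_iff, le_min_iff, h2.symm,
      h1.symm, false_and, false_or, if_false]
    omega
-- END lohi_mem

-- BEGIN lohi_bd
private lemma lohi_bd_a (Y : ℝ) (hY : 1 ≤ Y) : 0 ≤ (a1 Y : ℝ) ∧ (a1 Y : ℝ) ≤ Y ^ 2 := by
  have hY0 : 0 ≤ Y ^ 6 / 4 := by positivity
  have hc0 : 0 ≤ (Y ^ 6 / 4) ^ ((1 : ℝ) / 3) := Real.rpow_nonneg hY0 _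
  have hc : ((Y ^ 6 / 4) ^ ((1 : ℝ) / 3)) ^ 3 = Y ^ 6 / 4 := by
    rw [← Real.rpow_natCast, ← Real.rpow_mul hY0]
    norm_num
  have hc1 : (Y ^ 6 / 4) ^ ((1 : ℝ) / 3) ≤ Y ^ 2 := by
    rw [← pow_le_pow_iff_left₀ hc0 (by positivity) (by norm_num : (3 : ℕ) ≠ 0), hc]
    have : (Y ^ 2) ^ 3 = Y ^ 6 := by ring
    rw [this]
    have h6 : 0 ≤ Y ^ 6 := by positivity
    linarith
  unfold a1
  constructor
  · exact_mod_cast Int.floor_nonneg.2 hc0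
  · exact (Int.floor_le _).trans hc1

private lemma lohi_bd_s (Y : ℝ) (hY : 1 ≤ Y) : Real.sqrt (Y ^ 6 / 27) ≤ Y ^ 3 := by
  rw [Real.sqrt_le_left (by positivity)]
  have : (Y ^ 3) ^ 2 = Y ^ 6 := by ring
  rw [this]
  have h6 : 0 ≤ Y ^ 6 := by positivity
  linarith

private lemma lohi_bd_q (δ : ℝ) (hδ : 0 < δ) (Y : ℝ) (hY : 1 ≤ Y) (r : ℤ)
    (h1 : δ * Y ≤ |(r : ℝ)|) : 0 ≤ (q1 Y r : ℝ) ∧ (q1 Y r : ℝ) ≤ Y ^ 2 / δ := by
  have hY0 : 0 < Y := by linarith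
  have hr0 : 0 < |(r : ℝ)| := lt_of_lt_of_le (by positivity) h1
  have hs := lohi_bd_s Y hY
  have hs0 := Real.sqrt_nonneg (Y ^ 6 / 27)
  unfold q1
  constructor
  · exact_mod_cast Int.floor_nonneg.2 (div_nonneg hs0 hr0.le)
  · refine (Int.floor_le _).trans ?_
    rw [div_le_div_iff₀ hr0 hδ]
    calc Real.sqrt (Y ^ 6 / 27) * δ ≤ Y ^ 3 * δ := mul_le_mul_of_nonneg_right hs hδ.le
      _ = Y ^ 2 * (δ * Y) := by ring
      _ ≤ Y ^ 2 * |(r : ℝ)| := mul_le_mul_of_nonneg_left h1 (by positivity)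

private lemma lohi_bd_max (a b : ℤ) (K : ℝ) (h1 : |(a : ℝ)| ≤ K) (h2 : |(b : ℝ)| ≤ K) :
    |((max a b : ℤ) : ℝ)| ≤ K := by
  rcases max_choice a b with h | h <;> rw [h] <;> assumption

private lemma lohi_bd_min (a b : ℤ) (K : ℝ) (h1 : |(a : ℝ)| ≤ K) (h2 : |(b : ℝ)| ≤ K) :
    |((min a b : ℤ) : ℝ)| ≤ K := by
  rcases min_choice a b with h | h <;> rw [h] <;> assumption

/-- R2. `0 ≤ a1 Y ≤ Y²`, `0 ≤ q1 Y r ≤ Y²/δ`. -/
theorem lohi_bd (δ : ℝ) (hδ : 0 < δ) (hδ1 : δ ≤ 1) (Y : ℝ) (hY : 1 ≤ Y) (t : Fin 3) (r : ℤ) (h1 : δ * Y ≤ |(r : ℝ)|) (h2 : |(r : ℝ)| ≤ Y) :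
    |(lo Y t r : ℝ)| ≤ 10 / δ ^ 2 * Y ^ 2 ∧ |(hi Y t r : ℝ)| ≤ 10 / δ ^ 2 * Y ^ 2 := by
  obtain ⟨a0, a2⟩ := lohi_bd_a Y hY
  obtain ⟨q0, q2⟩ := lohi_bd_q δ hδ Y hY r h1
  have hY2 : 1 ≤ Y ^ 2 := one_le_pow₀ hY
  have hr2 : (r : ℝ) ^ 2 ≤ Y ^ 2 := by
    rw [← sq_abs]
    exact pow_le_pow_left₀ (abs_nonneg _) h2 2
  have hr0 : 0 ≤ (r : ℝ) ^ 2 := sq_nonneg _
  have hd2 : 0 < δ ^ 2 := by positivity
  have k1 : Y ^ 2 / δ ≤ 1 / δ ^ 2 * Y ^ 2 := by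
    rw [one_div, ← div_eq_inv_mul]
    exact div_le_div_of_nonneg_left (by positivity) hd2 (by nlinarith)
  have k2 : Y ^ 2 ≤ 1 / δ ^ 2 * Y ^ 2 := by
    have : 1 ≤ 1 / δ ^ 2 := by
      rw [le_div_iff₀ hd2]
      nlinarith
    nlinarith
  have k3 : 10 / δ ^ 2 * Y ^ 2 = 10 * (1 / δ ^ 2 * Y ^ 2) := by ring
  rw [k3]
  generalize 1 / δ ^ 2 * Y ^ 2 = K at *
  have c1 : |((3 * r ^ 2 - a1 Y - 1 : ℤ) : ℝ)| ≤ 10 * K := by
    push_cast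
    rw [abs_le]
    constructor <;> linarith
  have c2 : |((2 * r ^ 2 - q1 Y r - 1 : ℤ) : ℝ)| ≤ 10 * K := by
    push_cast
    rw [abs_le]
    constructor <;> linarith
  have c3 : |((3 * r ^ 2 + a1 Y : ℤ) : ℝ)| ≤ 10 * K := by
    push_cast
    rw [abs_le]
    constructor <;> linarith
  have c4 : |((2 * r ^ 2 + q1 Y r : ℤ) : ℝ)| ≤ 10 * K := by
    push_cast
    rw [abs_le]
    constructor <;> linarith
  have c5 : |((0 : ℤ) : ℝ)| ≤ 10 * K := by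
    rw [Int.cast_zero, abs_zero]
    linarith
  have c6 : |((-1 : ℤ) : ℝ)| ≤ 10 * K := by
    push_cast
    rw [abs_le]
    constructor <;> linarith
  have hRz : 0 ≤ r ^ 2 := sq_nonneg r
  have c7 : |((9 * r ^ 2 / 4 : ℤ) : ℝ)| ≤ 10 * K := by
    have e1 : 0 ≤ 9 * r ^ 2 / 4 := by omega
    have e2 : 9 * r ^ 2 / 4 ≤ 9 * r ^ 2 := by omega
    have e1' : (0 : ℝ) ≤ ((9 * r ^ 2 / 4 : ℤ) : ℝ) := by exact_mod_cast e1
    have e2' : ((9 * r ^ 2 / 4 : ℤ) : ℝ) ≤ 9 * (r : ℝ) ^ 2 := by exact_mod_cast e2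
    rw [abs_le]
    constructor <;> linarith
  have c8 : |(((9 * r ^ 2 - 1) / 4 : ℤ) : ℝ)| ≤ 10 * K := by
    have e1 : -1 ≤ (9 * r ^ 2 - 1) / 4 := by omega
    have e2 : (9 * r ^ 2 - 1) / 4 ≤ 9 * r ^ 2 := by omega
    have e1' : (-1 : ℝ) ≤ (((9 * r ^ 2 - 1) / 4 : ℤ) : ℝ) := by exact_mod_cast e1
    have e2' : (((9 * r ^ 2 - 1) / 4 : ℤ) : ℝ) ≤ 9 * (r : ℝ) ^ 2 := by exact_mod_cast e2
    rw [abs_le]
    constructor <;> linarith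
  have d1 := lohi_bd_max _ _ _ c1 c2
  have d2 := lohi_bd_min _ _ _ c3 c4
  unfold lo hi
  constructor
  · split_ifs
    · exact d1
    · exact lohi_bd_max _ _ _ d1 c5
    · exact lohi_bd_max _ _ _ d1 c7
  · split_ifs
    · exact lohi_bd_min _ _ _ d2 c6
    · exact lohi_bd_min _ _ _ d2 c8
    · exact d2
-- END lohi_bd

-- BEGIN lohi_lip
private lemma lohi_lip_s (Y : ℝ) (hY : 1 ≤ Y) : Real.sqrt (Y ^ 6 / 27) ≤ Y ^ 3 := by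
  rw [Real.sqrt_le_left (by positivity)]
  have : (Y ^ 3) ^ 2 = Y ^ 6 := by ring
  rw [this]
  have h6 : 0 ≤ Y ^ 6 := by positivity
  linarith

private lemma lohi_lip_q (δ : ℝ) (hδ : 0 < δ) (Y : ℝ) (hY : 1 ≤ Y) (r : ℤ)
    (h1 : δ * Y ≤ |(r : ℝ)|) (h3 : δ * Y ≤ |((r + 1 : ℤ) : ℝ)|) :
    |(q1 Y (r + 1) : ℝ) - q1 Y r| ≤ 1 / δ ^ 2 * Y + 1 := by
  have hY0 : 0 < Y := by linarith
  have hdY : 0 < δ * Y := by positivity
  have hr0 : 0 < |(r : ℝ)| := lt_of_lt_of_le hdY h1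
  have hr1 : 0 < |((r + 1 : ℤ) : ℝ)| := lt_of_lt_of_le hdY h3
  have hs := lohi_lip_s Y hY
  have hs0 := Real.sqrt_nonneg (Y ^ 6 / 27)
  have hx : |(Real.sqrt (Y ^ 6 / 27) / |((r + 1 : ℤ) : ℝ)| -
      Real.sqrt (Y ^ 6 / 27) / |(r : ℝ)|)| ≤ 1 / δ ^ 2 * Y := by
    rw [div_sub_div _ _ hr1.ne' hr0.ne', abs_div, abs_of_pos (mul_pos hr1 hr0),
      div_le_iff₀ (mul_pos hr1 hr0)]
    have e1 : Real.sqrt (Y ^ 6 / 27) * |(r : ℝ)| - |((r + 1 : ℤ) : ℝ)| * Real.sqrt (Y ^ 6 / 27) =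
        Real.sqrt (Y ^ 6 / 27) * (|(r : ℝ)| - |((r + 1 : ℤ) : ℝ)|) := by ring
    have e2 : |(|(r : ℝ)| - |((r + 1 : ℤ) : ℝ)|)| ≤ 1 := by
      refine (abs_abs_sub_abs_le _ _).trans ?_
      push_cast
      rw [show (r : ℝ) - (r + 1) = -1 by ring]
      norm_num
    rw [e1, abs_mul, abs_of_nonneg hs0]
    have e3 : (δ * Y) * (δ * Y) ≤ |((r + 1 : ℤ) : ℝ)| * |(r : ℝ)| :=
      mul_le_mul h3 h1 hdY.le hr1.le
    have e4 : 1 / δ ^ 2 * Y * ((δ * Y) * (δ * Y)) = Y ^ 3 := by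
      field_simp
    have e5 : 0 ≤ 1 / δ ^ 2 * Y := by positivity
    calc Real.sqrt (Y ^ 6 / 27) * |(|(r : ℝ)| - |((r + 1 : ℤ) : ℝ)|)|
        ≤ Real.sqrt (Y ^ 6 / 27) * 1 := mul_le_mul_of_nonneg_left e2 hs0
      _ ≤ Y ^ 3 := by linarith
      _ = 1 / δ ^ 2 * Y * ((δ * Y) * (δ * Y)) := e4.symm
      _ ≤ 1 / δ ^ 2 * Y * (|((r + 1 : ℤ) : ℝ)| * |(r : ℝ)|) := mul_le_mul_of_nonneg_left e3 e5
  unfold q1
  rw [abs_le] at hx ⊢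
  have f1 := Int.floor_le (Real.sqrt (Y ^ 6 / 27) / |((r + 1 : ℤ) : ℝ)|)
  have f2 := Int.lt_floor_add_one (Real.sqrt (Y ^ 6 / 27) / |((r + 1 : ℤ) : ℝ)|)
  have f3 := Int.floor_le (Real.sqrt (Y ^ 6 / 27) / |(r : ℝ)|)
  have f4 := Int.lt_floor_add_one (Real.sqrt (Y ^ 6 / 27) / |(r : ℝ)|)
  constructor <;> linarith

private lemma lohi_lip_max (a b c d : ℤ) (K : ℝ) (h1 : |(a : ℝ) - c| ≤ K)
    (h2 : |(b : ℝ) - d| ≤ K) : |((max a b : ℤ) : ℝ) - (max c d : ℤ)| ≤ K := by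
  push_cast
  exact (abs_max_sub_max_le_max _ _ _ _).trans (max_le h1 h2)

private lemma lohi_lip_min (a b c d : ℤ) (K : ℝ) (h1 : |(a : ℝ) - c| ≤ K)
    (h2 : |(b : ℝ) - d| ≤ K) : |((min a b : ℤ) : ℝ) - (min c d : ℤ)| ≤ K := by
  push_cast
  exact (abs_min_sub_min_le_max _ _ _ _).trans (max_le h1 h2)

/-- R3. `max`, `min` are Lipschitz; `|β/|r+1| - β/|r|| ≤ β/(|r||r+1|) ≤ Y/δ²` (`β = √(Y⁶/27) ≤ Y³`; `r`, `r + 1` are not `0`, so of the same sign), floors cost `1 ≤ Y`;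
`3(r+1)² - 3r² ≤ 9Y`. -/
theorem lohi_lip (δ : ℝ) (hδ : 0 < δ) (hδ1 : δ ≤ 1) (Y : ℝ) (hY : 1 ≤ Y) (t : Fin 3) (r : ℤ) (h1 : δ * Y ≤ |(r : ℝ)|) (h2 : |(r : ℝ)| ≤ Y)
    (h3 : δ * Y ≤ |((r + 1 : ℤ) : ℝ)|) (h4 : |((r + 1 : ℤ) : ℝ)| ≤ Y) :
    |(lo Y t (r + 1) : ℝ) - lo Y t r| ≤ 20 / δ ^ 2 * Y ∧ |(hi Y t (r + 1) : ℝ) - hi Y t r| ≤ 20 / δ ^ 2 * Y := by
  have hq := lohi_lip_q δ hδ Y hY r h1 h3
  have hd2 : 0 < δ ^ 2 := by positivity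
  have k2 : Y ≤ 1 / δ ^ 2 * Y := by
    have : 1 ≤ 1 / δ ^ 2 := by
      rw [le_div_iff₀ hd2]
      nlinarith
    nlinarith
  have k3 : 20 / δ ^ 2 * Y = 20 * (1 / δ ^ 2 * Y) := by ring
  rw [k3]
  generalize 1 / δ ^ 2 * Y = K at *
  rw [abs_le] at h2 hq
  obtain ⟨r1, r2⟩ := h2
  obtain ⟨q0, q2⟩ := hq
  have c1 : |((3 * (r + 1) ^ 2 - a1 Y - 1 : ℤ) : ℝ) - ((3 * r ^ 2 - a1 Y - 1 : ℤ) : ℝ)| ≤ 20 * K := by
    push_cast
    rw [show 3 * ((r : ℝ) + 1) ^ 2 - (a1 Y : ℝ) - 1 - (3 * (r : ℝ) ^ 2 - (a1 Y : ℝ) - 1) =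
      6 * r + 3 by ring, abs_le]
    constructor <;> linarith
  have c2 : |((2 * (r + 1) ^ 2 - q1 Y (r + 1) - 1 : ℤ) : ℝ) - ((2 * r ^ 2 - q1 Y r - 1 : ℤ) : ℝ)| ≤
      20 * K := by
    push_cast
    rw [show 2 * ((r : ℝ) + 1) ^ 2 - (q1 Y (r + 1) : ℝ) - 1 - (2 * (r : ℝ) ^ 2 - (q1 Y r : ℝ) - 1) =
      4 * r + 2 - ((q1 Y (r + 1) : ℝ) - q1 Y r) by ring, abs_le]
    constructor <;> linarith
  have c3 : |((3 * (r + 1) ^ 2 + a1 Y : ℤ) : ℝ) - ((3 * r ^ 2 + a1 Y : ℤ) : ℝ)| ≤ 20 * K := by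
    push_cast
    rw [show 3 * ((r : ℝ) + 1) ^ 2 + (a1 Y : ℝ) - (3 * (r : ℝ) ^ 2 + (a1 Y : ℝ)) =
      6 * r + 3 by ring, abs_le]
    constructor <;> linarith
  have c4 : |((2 * (r + 1) ^ 2 + q1 Y (r + 1) : ℤ) : ℝ) - ((2 * r ^ 2 + q1 Y r : ℤ) : ℝ)| ≤
      20 * K := by
    push_cast
    rw [show 2 * ((r : ℝ) + 1) ^ 2 + (q1 Y (r + 1) : ℝ) - (2 * (r : ℝ) ^ 2 + (q1 Y r : ℝ)) =
      4 * r + 2 + ((q1 Y (r + 1) : ℝ) - q1 Y r) by ring, abs_le]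
    constructor <;> linarith
  have c5 : |((0 : ℤ) : ℝ) - ((0 : ℤ) : ℝ)| ≤ 20 * K := by
    rw [sub_self, abs_zero]
    linarith
  have c6 : |((-1 : ℤ) : ℝ) - ((-1 : ℤ) : ℝ)| ≤ 20 * K := by
    rw [sub_self, abs_zero]
    linarith
  have er : (r + 1) ^ 2 = r ^ 2 + 2 * r + 1 := by ring
  have c7 : |((9 * (r + 1) ^ 2 / 4 : ℤ) : ℝ) - ((9 * r ^ 2 / 4 : ℤ) : ℝ)| ≤ 20 * K := by
    rw [er]
    generalize r ^ 2 = R
    have e1 : 4 * (9 * (R + 2 * r + 1) / 4 - 9 * R / 4) ≤ 18 * r + 9 + 4 := by omega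
    have e2 : 18 * r + 9 - 4 ≤ 4 * (9 * (R + 2 * r + 1) / 4 - 9 * R / 4) := by omega
    have e1' : 4 * (((9 * (R + 2 * r + 1) / 4 : ℤ) : ℝ) - ((9 * R / 4 : ℤ) : ℝ)) ≤
        18 * (r : ℝ) + 9 + 4 := by exact_mod_cast e1
    have e2' : 18 * (r : ℝ) + 9 - 4 ≤
        4 * (((9 * (R + 2 * r + 1) / 4 : ℤ) : ℝ) - ((9 * R / 4 : ℤ) : ℝ)) := by exact_mod_cast e2
    rw [abs_le]
    constructor <;> linarith
  have c8 : |(((9 * (r + 1) ^ 2 - 1) / 4 : ℤ) : ℝ) - (((9 * r ^ 2 - 1) / 4 : ℤ) : ℝ)| ≤ 20 * K := by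
    rw [er]
    generalize r ^ 2 = R
    have e1 : 4 * ((9 * (R + 2 * r + 1) - 1) / 4 - (9 * R - 1) / 4) ≤ 18 * r + 9 + 4 := by omega
    have e2 : 18 * r + 9 - 4 ≤ 4 * ((9 * (R + 2 * r + 1) - 1) / 4 - (9 * R - 1) / 4) := by omega
    have e1' : 4 * ((((9 * (R + 2 * r + 1) - 1) / 4 : ℤ) : ℝ) - (((9 * R - 1) / 4 : ℤ) : ℝ)) ≤
        18 * (r : ℝ) + 9 + 4 := by exact_mod_cast e1
    have e2' : 18 * (r : ℝ) + 9 - 4 ≤
        4 * ((((9 * (R + 2 * r + 1) - 1) / 4 : ℤ) : ℝ) - (((9 * R - 1) / 4 : ℤ) : ℝ)) := by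
      exact_mod_cast e2
    rw [abs_le]
    constructor <;> linarith
  have d1 := lohi_lip_max _ _ _ _ _ c1 c2
  have d2 := lohi_lip_min _ _ _ _ _ c3 c4
  unfold lo hi
  constructor
  · split_ifs
    · exact d1
    · exact lohi_lip_max _ _ _ _ _ d1 c5
    · exact lohi_lip_max _ _ _ _ _ d1 c7
  · split_ifs
    · exact lohi_lip_min _ _ _ _ _ d2 c6
    · exact lohi_lip_min _ _ _ _ _ d2 c8
    · exact d2
-- END lohi_lip

end Rnt
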