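import Pool.Agent.Rnt.Defs

/-!
# Rnt LOC: the root number is a periodic function times two Moebius functions
-/

set_option autoImplicit false

namespace Rnt

open Finset Filter Topology

/-! ## Smooth parts -/

-- BEGIN sm_basic
/-- L1. `padicValInt`; `sm T n` is the product of the full powers of the primes `≤ T` in `n`. -/
theorem sm_basic (T : ℕ) (n : ℤ) (hn : n ≠ 0) : 0 < sm T n ∧ (sm T n : ℤ) ∣ n ∧
    ∀ p : ℕ, p.Prime → p ≤ T → ¬ (p : ℤ) ∣ n / sm T n := by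
  have hpos : 0 < sm T n := by
    unfold sm
    apply Finset.prod_pos
    intro p hp
    exact pow_pos (Finset.mem_filter.1 hp).2.pos _
  have hdvd : (sm T n : ℤ) ∣ n := by
    unfold sm
    push_cast
    apply Finset.prod_dvd_of_coprime
    · intro p hp q hq hpq
      have hp' : p.Prime := (Finset.mem_filter.1 (Finset.mem_coe.1 hp)).2
      have hq' : q.Prime := (Finset.mem_filter.1 (Finset.mem_coe.1 hq)).2
      show IsCoprime ((p : ℤ) ^ padicValInt p n) ((q : ℤ) ^ padicValInt q n)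
      exact IsCoprime.pow (Nat.isCoprime_iff_coprime.2 ((Nat.coprime_primes hp' hq').2 hpq))
    · intro p hp
      exact padicValInt_dvd n
  refine ⟨hpos, hdvd, ?_⟩
  intro p hp hpT hdiv
  have : Fact p.Prime := ⟨hp⟩
  have hmem : p ∈ (range (T + 1)).filter Nat.Prime := by
    rw [Finset.mem_filter, Finset.mem_range]
    exact ⟨by omega, hp⟩
  have h1 : ((p : ℤ) ^ padicValInt p n) ∣ (sm T n : ℤ) := by
    have h2 : p ^ padicValInt p n ∣ sm T n :=
      Finset.dvd_prod_of_mem (fun p => p ^ padicValInt p n) hmem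
    exact_mod_cast h2
  have h3 : (p : ℤ) ^ (padicValInt p n + 1) ∣ n := by
    have h4 : (p : ℤ) ^ (padicValInt p n + 1) ∣ (sm T n : ℤ) * (n / sm T n) := by
      rw [pow_succ]
      exact mul_dvd_mul h1 hdiv
    rwa [Int.mul_ediv_cancel' hdvd] at h4
  rcases (padicValInt_dvd_iff (padicValInt p n + 1) n).1 h3 with h | h
  · exact hn h
  · omega
-- END sm_basic

-- BEGIN sm_div
/-- L2. The exponents are smaller than `j`. -/
theorem sm_div (T j : ℕ) (n : ℤ) (hn : n ≠ 0) (h : ∀ p : ℕ, p.Prime → p ≤ T → ¬ (p : ℤ) ^ j ∣ n) :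
    sm T n ∣ ∏ p ∈ (range (T + 1)).filter Nat.Prime, p ^ j := by
  unfold sm
  refine Finset.prod_dvd_prod_of_dvd _ _ fun p hp => ?_
  obtain ⟨hp1, hp2⟩ := Finset.mem_filter.1 hp
  rw [Finset.mem_range] at hp1
  refine pow_dvd_pow p ?_
  by_contra hcon
  have : Fact p.Prime := ⟨hp2⟩
  refine h p hp2 (by omega) ?_
  rw [padicValInt_dvd_iff]
  right
  omega
-- END sm_div

-- BEGIN sm_congr
/-- L3. The valuations at `p ≤ T` of two numbers congruent mod `p^j` and not divisible by `p^j` are equal. -/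
theorem sm_congr (T j : ℕ) (M : ℤ) (hM : ∀ p : ℕ, p.Prime → p ≤ T → (p : ℤ) ^ j ∣ M) (n n' : ℤ) (hn : M ∣ n - n')
    (h : ∀ p : ℕ, p.Prime → p ≤ T → ¬ (p : ℤ) ^ j ∣ n) : sm T n = sm T n' := by
  unfold sm
  refine Finset.prod_congr rfl fun p hp => ?_
  rw [Finset.mem_filter, Finset.mem_range] at hp
  obtain ⟨hpT, hpp⟩ := hp
  have : Fact p.Prime := ⟨hpp⟩
  have hj := h p hpp (by omega)
  have hd : (p : ℤ) ^ j ∣ n - n' := (hM p hpp (by omega)).trans hn
  have hj' : ¬ (p : ℤ) ^ j ∣ n' := fun h' => hj (by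
    have := dvd_add hd h'
    rwa [sub_add_cancel] at this)
  have hn0 : n ≠ 0 := fun h0 => hj (h0 ▸ dvd_zero _)
  have hn0' : n' ≠ 0 := fun h0 => hj' (h0 ▸ dvd_zero _)
  have hv : padicValInt p n < j := by
    by_contra hc
    exact hj ((padicValInt_dvd_iff j n).2 (Or.inr (not_lt.1 hc)))
  have hv' : padicValInt p n' < j := by
    by_contra hc
    exact hj' ((padicValInt_dvd_iff j n').2 (Or.inr (not_lt.1 hc)))
  have key : padicValInt p n = padicValInt p n' := by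
    apply le_antisymm
    · have h1 : (p : ℤ) ^ (padicValInt p n) ∣ n := padicValInt_dvd n
      have h2 : (p : ℤ) ^ (padicValInt p n) ∣ n - n' := (pow_dvd_pow _ hv.le).trans hd
      have h3 : (p : ℤ) ^ (padicValInt p n) ∣ n' := by
        have := dvd_sub h1 h2
        rwa [sub_sub_cancel] at this
      exact ((padicValInt_dvd_iff _ _).1 h3).resolve_left hn0'
    · have h1 : (p : ℤ) ^ (padicValInt p n') ∣ n' := padicValInt_dvd n'
      have h2 : (p : ℤ) ^ (padicValInt p n') ∣ n - n' := (pow_dvd_pow _ hv'.le).trans hd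
      have h3 : (p : ℤ) ^ (padicValInt p n') ∣ n := by
        have := dvd_add h2 h1
        rwa [sub_add_cancel] at this
      exact ((padicValInt_dvd_iff _ _).1 h3).resolve_left hn0
  rw [key]
-- END sm_congr

-- BEGIN sm_sqf
/-- L4. -/
theorem sm_sqf (T : ℕ) (n : ℤ) (hn : n ≠ 0) (h : ∀ p : ℕ, p.Prime → T < p → ¬ (p : ℤ) ^ 2 ∣ n) :
    Squarefree (n / sm T n).natAbs := by
  obtain ⟨h0, hd, hp⟩ := sm_basic T n hn
  rw [Nat.squarefree_iff_prime_squarefree]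
  intro p hpp hdvd
  have h1 : ((p * p : ℕ) : ℤ) ∣ n / sm T n := Int.natCast_dvd.2 hdvd
  rcases le_or_gt p T with hpT | hpT
  · apply hp p hpp hpT
    refine dvd_trans ?_ h1
    push_cast
    exact dvd_mul_right _ _
  · apply h p hpp hpT
    have h2 : n / sm T n ∣ n := Int.ediv_dvd_of_dvd hd
    refine dvd_trans ?_ (h1.trans h2)
    push_cast
    rw [pow_two]
-- END sm_sqf

-- BEGIN sm_prime
/-- L5. A prime `p > T` divides `n` iff it divides `n / sm T n`. -/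
theorem sm_prime (T : ℕ) (n : ℤ) (hn : n ≠ 0) (p : ℕ) (hp : p.Prime) (hpT : T < p) :
    (p : ℤ) ∣ n ↔ p ∣ (n / sm T n).natAbs := by
  obtain ⟨h0, hd, -⟩ := sm_basic T n hn
  rw [← Int.natCast_dvd]
  constructor
  · intro h
    have h1 : (sm T n : ℤ) * (n / sm T n) = n := Int.mul_ediv_cancel' hd
    rw [← h1] at h
    rcases (Nat.prime_iff_prime_int.1 hp).dvd_or_dvd h with h2 | h2
    · exfalso
      have h3 : p ∣ sm T n := by exact_mod_cast h2
      unfold sm at h3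
      rw [hp.prime.dvd_finsetProd_iff] at h3
      obtain ⟨q, hq, hpq⟩ := h3
      rw [Finset.mem_filter, Finset.mem_range] at hq
      have h4 : p ∣ q := hp.dvd_of_dvd_pow hpq
      have h5 : p = q := (Nat.prime_dvd_prime_iff_eq hp hq.2).1 h4
      omega
    · exact h2
  · intro h
    exact h.trans (Int.ediv_dvd_of_dvd hd)
-- END sm_prime

/-! ## Local root numbers -/

-- BEGIN wp_b
/-- L6. `p ∣ b`: `A = -3r²`, `BB = 2r³` mod `p`, so `(6B/p) = (12r³/p) = (3r/p)` (`p ∤ r`). -/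
theorem wp_b (A r : ℤ) (p : ℕ) (hp : p.Prime) (h5 : 5 ≤ p) (h : (p : ℤ) ∣ bb A r) (hA : ¬ (p : ℤ) ∣ A) :
    wp A (BB A r) p = - jacobiSym (3 * r) p := by
  have hpZ : Prime (p : ℤ) := Nat.prime_iff_prime_int.1 hp
  have hd : (p : ℤ) ∣ disc A (BB A r) := by
    rw [disc_BB]
    exact dvd_mul_of_dvd_left (dvd_pow h two_ne_zero) _
  have hr : ¬ (p : ℤ) ∣ r := by
    intro hr
    apply hA
    have h1 : A = bb A r - 3 * r ^ 2 := by unfold bb; ring
    rw [h1]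
    exact dvd_sub h (Dvd.dvd.mul_left (dvd_pow hr two_ne_zero) _)
  have h2 : ¬ (p : ℤ) ∣ 2 := by
    intro h2
    have := Int.le_of_dvd (by norm_num) h2
    omega
  have h2r : ¬ (p : ℤ) ∣ 2 * r := fun h3 => (hpZ.dvd_or_dvd h3).elim h2 hr
  have hg : Int.gcd (2 * r) p = 1 := by
    rw [Int.gcd_comm, Int.gcd_eq_natAbs, Int.natAbs_natCast]
    refine (Nat.Prime.coprime_iff_not_dvd hp).2 fun h3 => h2r ?_
    exact Int.natCast_dvd.2 h3
  have hc : jacobiSym (6 * BB A r) p = jacobiSym (3 * r * (2 * r) ^ 2) p := by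
    apply jacobiSym.mod_left'
    refine (Int.emod_emod_of_dvd _ (dvd_refl _)).symm.trans ?_ |>.trans (Int.emod_emod_of_dvd _ (dvd_refl _))
    congr 1
    refine Int.ModEq.symm ((Int.modEq_iff_dvd).2 ?_)
    have h3 : 6 * BB A r - 3 * r * (2 * r) ^ 2 = bb A r * (-(6 * r)) := by unfold bb BB; ring
    rw [h3]
    exact dvd_mul_of_dvd_left h _
  unfold wp
  rw [if_neg (not_not.2 hd), if_pos hA, hc, jacobiSym.mul_left, jacobiSym.sq_one' hg, mul_one]
-- END wp_b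

-- BEGIN wp_c
/-- L7. `p ∣ c`: `4A = -3r²`, `4 BB = -r³` mod `p`, so `(6B/p) = (-6r³/p) = (-6r/p)` (multiply by `4`). -/
theorem wp_c (A r : ℤ) (p : ℕ) (hp : p.Prime) (h5 : 5 ≤ p) (h : (p : ℤ) ∣ cc A r) (hA : ¬ (p : ℤ) ∣ A) :
    wp A (BB A r) p = - jacobiSym (-6 * r) p := by
  have hpZ : Prime (p : ℤ) := Nat.prime_iff_prime_int.mp hp
  have hdisc : (p : ℤ) ∣ disc A (BB A r) := by
    rw [disc_BB]; exact Dvd.dvd.mul_left h _
  have h2 : ¬ (p : ℤ) ∣ 2 := by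
    intro h'
    have := Int.le_of_dvd (by norm_num) h'
    omega
  have hr : ¬ (p : ℤ) ∣ r := by
    intro hr
    apply hA
    have h4 : (p : ℤ) ∣ 2 * (2 * A) := by
      have e : 2 * (2 * A) = cc A r - 3 * r ^ 2 := by unfold cc; ring
      rw [e]
      exact dvd_sub h (Dvd.dvd.mul_left (dvd_pow hr two_ne_zero) 3)
    rcases hpZ.dvd_or_dvd h4 with h' | h'
    · exact absurd h' h2
    · rcases hpZ.dvd_or_dvd h' with h'' | h''
      · exact absurd h'' h2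
      · exact h''
  have g2 : (2 : ℤ).gcd p = 1 := by
    rw [Int.gcd_comm]
    exact Int.isCoprime_iff_gcd_eq_one.mp ((Prime.coprime_iff_not_dvd hpZ).mpr h2)
  have gr : r.gcd p = 1 := by
    rw [Int.gcd_comm]
    exact Int.isCoprime_iff_gcd_eq_one.mp ((Prime.coprime_iff_not_dvd hpZ).mpr hr)
  have key : jacobiSym (6 * BB A r) p = jacobiSym (-6 * r) p := by
    have e1 : jacobiSym (2 ^ 2 * (6 * BB A r)) p = jacobiSym (6 * BB A r) p := by
      rw [jacobiSym.mul_left, jacobiSym.sq_one' g2, one_mul]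
    have e2 : jacobiSym (r ^ 2 * (-6 * r)) p = jacobiSym (-6 * r) p := by
      rw [jacobiSym.mul_left, jacobiSym.sq_one' gr, one_mul]
    rw [← e1, ← e2]
    apply jacobiSym.mod_left'
    rw [Int.emod_eq_emod_iff_emod_sub_eq_zero]
    apply Int.emod_eq_zero_of_dvd
    have e : (2 : ℤ) ^ 2 * (6 * BB A r) - r ^ 2 * (-6 * r) = (-6 * r) * cc A r := by
      unfold BB cc; ring
    rw [e]
    exact Dvd.dvd.mul_left h _
  unfold wp
  rw [if_neg (not_not.mpr hdisc), if_pos hA, key]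
-- END wp_c

-- BEGIN wp_pm
theorem wp_pm_cop (a : ℤ) (p : ℕ) (hp : p.Prime) (h : ¬ (p : ℤ) ∣ a) :
    jacobiSym a p = 1 ∨ jacobiSym a p = -1 := by
  apply jacobiSym.eq_one_or_neg_one
  rw [Int.gcd_comm]
  exact Int.isCoprime_iff_gcd_eq_one.mp
    ((Prime.coprime_iff_not_dvd (Nat.prime_iff_prime_int.mp hp)).mpr h)

/-- L8. -/
theorem wp_pm (A B : ℤ) (p : ℕ) (hp : p.Prime) (h5 : 5 ≤ p) : wp A B p = 1 ∨ wp A B p = -1 := by
  have hpi : Prime (p : ℤ) := Nat.prime_iff_prime_int.mp hp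
  have hsmall : ∀ m : ℤ, 0 < m → m < 5 → ¬ (p : ℤ) ∣ m := by
    intro m h0 h1 h2
    have := Int.le_of_dvd h0 h2
    omega
  have hneg : ∀ m : ℤ, 0 < m → m < 5 → ¬ (p : ℤ) ∣ -m := by
    intro m h0 h1 h2
    exact hsmall m h0 h1 ((dvd_neg).mp h2)
  unfold wp
  by_cases h1 : (p : ℤ) ∣ disc A B
  swap
  · rw [if_pos h1]
    left; rfl
  rw [if_neg (not_not.mpr h1)]
  by_cases h2 : (p : ℤ) ∣ A
  swap
  · rw [if_pos h2]
    have hB : ¬ (p : ℤ) ∣ 6 * B := by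
      intro h
      rcases hpi.dvd_or_dvd h with h | h
      · have h6 : (p : ℤ) ∣ 2 * 3 := by
          have : (6 : ℤ) = 2 * 3 := by norm_num
          rw [this] at h
          exact h
        rcases hpi.dvd_or_dvd h6 with h | h
        · exact hsmall 2 (by norm_num) (by norm_num) h
        · exact hsmall 3 (by norm_num) (by norm_num) h
      · apply h2
        have h8 : (p : ℤ) ∣ 4 * A ^ 3 := by
          have h9 : 4 * A ^ 3 = disc A B - 27 * B ^ 2 := by unfold disc; ring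
          rw [h9]
          exact dvd_sub h1 (Dvd.dvd.mul_left (dvd_pow h two_ne_zero) 27)
        rcases hpi.dvd_or_dvd h8 with h | h
        · exact absurd h (hsmall 4 (by norm_num) (by norm_num))
        · exact hpi.dvd_of_dvd_pow h
    rcases wp_pm_cop (6 * B) p hp hB with h | h
    · right; rw [h]
    · left; rw [h]; norm_num
  rw [if_neg (not_not.mpr h2)]
  have e1 := wp_pm_cop (-1) p hp (hneg 1 (by norm_num) (by norm_num))
  have e2 := wp_pm_cop (-2) p hp (hneg 2 (by norm_num) (by norm_num))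
  have e3 := wp_pm_cop (-3) p hp (hneg 3 (by norm_num) (by norm_num))
  split_ifs
  · exact e1
  · exact e3
  · exact e2
  · left; rfl
  · exact e1
-- END wp_pm

-- BEGIN wp_congr
theorem wp_congr_aux {p : ℕ} [Fact p.Prime] {k : ℕ} {x y : ℤ} (h : (p : ℤ) ^ k ∣ x - y)
    (hx : ¬ (p : ℤ) ^ k ∣ x) : ¬ (p : ℤ) ^ k ∣ y ∧ padicValInt p x = padicValInt p y := by
  have hy : ¬ (p : ℤ) ^ k ∣ y := fun hy => hx (by
    have := dvd_add h hy
    rwa [sub_add_cancel] at this)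
  have hx0 : x ≠ 0 := fun h0 => hx (h0 ▸ dvd_zero _)
  have hy0 : y ≠ 0 := fun h0 => hy (h0 ▸ dvd_zero _)
  have vx : padicValInt p x < k := by
    by_contra hc
    exact hx ((padicValInt_dvd_iff k x).2 (Or.inr (by omega)))
  have vy : padicValInt p y < k := by
    by_contra hc
    exact hy ((padicValInt_dvd_iff k y).2 (Or.inr (by omega)))
  refine ⟨hy, le_antisymm ?_ ?_⟩
  · have h1 : (p : ℤ) ^ padicValInt p x ∣ x := (padicValInt_dvd_iff _ x).2 (Or.inr le_rfl)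
    have h2 : (p : ℤ) ^ padicValInt p x ∣ x - y := (pow_dvd_pow _ vx.le).trans h
    have h3 : (p : ℤ) ^ padicValInt p x ∣ y := by
      have := dvd_sub h1 h2
      rwa [sub_sub_cancel] at this
    exact ((padicValInt_dvd_iff _ y).1 h3).resolve_left hy0
  · have h1 : (p : ℤ) ^ padicValInt p y ∣ y := (padicValInt_dvd_iff _ y).2 (Or.inr le_rfl)
    have h2 : (p : ℤ) ^ padicValInt p y ∣ x - y := (pow_dvd_pow _ vy.le).trans h
    have h3 : (p : ℤ) ^ padicValInt p y ∣ x := by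
      have := dvd_add h2 h1
      rwa [sub_add_cancel] at this
    exact ((padicValInt_dvd_iff _ x).1 h3).resolve_left hx0

/-- L9. `v_p(disc) < k`, so `v_p(disc)` is the same for `(A', B')`, and `3 v_p(A) < v_p(disc)` (with `A ≠ 0`) only if `v_p(A) < k`, and then `v_p(A') = v_p(A)`;
Jacobi symbols mod `p` (`k ≥ 1`). -/
theorem wp_congr (A B A' B' : ℤ) (p k : ℕ) (hp : p.Prime) (h5 : 5 ≤ p) (h1 : (p : ℤ) ^ k ∣ A - A')
    (h2 : (p : ℤ) ^ k ∣ B - B') (h3 : ¬ (p : ℤ) ^ k ∣ disc A B) : wp A B p = wp A' B' p := by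
  haveI : Fact p.Prime := ⟨hp⟩
  have hk : k ≠ 0 := by
    rintro rfl
    exact h3 (by rw [pow_zero]; exact one_dvd _)
  have hd : (p : ℤ) ^ k ∣ disc A B - disc A' B' := by
    have e : disc A B - disc A' B' = (A - A') * (4 * (A ^ 2 + A * A' + A' ^ 2)) +
        (B - B') * (27 * (B + B')) := by
      unfold disc
      ring
    rw [e]
    exact dvd_add (h1.mul_right _) (h2.mul_right _)
  obtain ⟨h3', hv⟩ := wp_congr_aux hd h3
  have hpk : (p : ℤ) ∣ (p : ℤ) ^ k := dvd_pow_self _ hk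
  have iff1 : (p : ℤ) ∣ disc A B ↔ (p : ℤ) ∣ disc A' B' := (dvd_iff_dvd_of_dvd_sub (hpk.trans hd))
  have iff2 : (p : ℤ) ∣ A ↔ (p : ℤ) ∣ A' := (dvd_iff_dvd_of_dvd_sub (hpk.trans h1))
  have vd : padicValInt p (disc A B) < k := by
    by_contra hc
    exact h3 ((padicValInt_dvd_iff k _).2 (Or.inr (by omega)))
  have h1s : (p : ℤ) ^ k ∣ A' - A := by
    rw [← neg_sub]
    exact (dvd_neg).2 h1
  have iff3 : (A ≠ 0 ∧ 3 * padicValInt p A < padicValInt p (disc A B)) ↔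
      (A' ≠ 0 ∧ 3 * padicValInt p A' < padicValInt p (disc A' B')) := by
    rw [← hv]
    constructor
    · rintro ⟨g1, g2⟩
      have g3 : ¬ (p : ℤ) ^ k ∣ A := fun hc => by
        have := ((padicValInt_dvd_iff k A).1 hc).resolve_left g1
        omega
      obtain ⟨g4, g5⟩ := wp_congr_aux h1 g3
      exact ⟨fun h0 => g4 (h0 ▸ dvd_zero _), by rw [← g5]; exact g2⟩
    · rintro ⟨g1, g2⟩
      have g3 : ¬ (p : ℤ) ^ k ∣ A' := fun hc => by
        have := ((padicValInt_dvd_iff k A').1 hc).resolve_left g1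
        omega
      obtain ⟨g4, g5⟩ := wp_congr_aux h1s g3
      exact ⟨fun h0 => g4 (h0 ▸ dvd_zero _), by rw [← g5]; exact g2⟩
  have hJ : jacobiSym (6 * B) p = jacobiSym (6 * B') p := by
    apply jacobiSym.mod_left'
    have h4 : (p : ℤ) ∣ 6 * B' - 6 * B := by
      have e : 6 * B' - 6 * B = (B - B') * (-6) := by ring
      rw [e]
      exact (hpk.trans h2).mul_right _
    exact Int.ModEq.eq ((Int.modEq_iff_dvd).2 h4)
  rw [hv] at iff3
  unfold wp
  simp only [iff1, iff2, hJ, hv, if_congr iff3 rfl rfl]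
-- END wp_congr

-- BEGIN lc_unif
/-- L10. The set of the `x` with `‖4 x.1³ + 27 x.2²‖ > p^(-k)` (that is `p^k ∤`) is compact (closed in the compact space `ℤ_p²`; values of the norm are
discrete) and `f` is locally constant on it: Lebesgue number / finite subcover by balls. `p^K ∣ A - A'` means distance `≤ p^(-K)` (`PadicInt.norm_int_le_pow_iff_dvd`). -/
theorem lc_unif (p : ℕ) [Fact p.Prime] (f : ℤ_[p] × ℤ_[p] → ℤ) (hf : LocalSign p f) (k : ℕ) :
    ∃ K : ℕ, ∀ A B A' B' : ℤ, (p : ℤ) ^ K ∣ A - A' → (p : ℤ) ^ K ∣ B - B' → ¬ (p : ℤ) ^ k ∣ disc A B →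
      f ((A : ℤ_[p]), (B : ℤ_[p])) = f ((A' : ℤ_[p]), (B' : ℤ_[p])) := by
  have hp : p.Prime := Fact.out
  have hp1 : (1 : ℝ) < p := by exact_mod_cast hp.one_lt
  have hp0 : (0 : ℝ) < p := by linarith
  set S : Set (ℤ_[p] × ℤ_[p]) := {x | (p : ℝ) ^ (-(k : ℤ) + 1) ≤ ‖4 * x.1 ^ 3 + 27 * x.2 ^ 2‖} with hS
  have hSc : IsClosed S := isClosed_le continuous_const (by fun_prop)
  have hSk : IsCompact S := hSc.isCompact
  have hcov : S ⊆ ⋃ v : ℤ, interior {x | f x = v} := by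
    intro x hx
    have hx0 : 4 * x.1 ^ 3 + 27 * x.2 ^ 2 ≠ 0 := by
      intro h0
      rw [hS, Set.mem_ofPred_eq, h0, norm_zero] at hx
      have : (0 : ℝ) < (p : ℝ) ^ (-(k : ℤ) + 1) := zpow_pos hp0 _
      linarith
    rw [Set.mem_iUnion]
    exact ⟨f x, mem_interior_iff_mem_nhds.2 (hf.2 x hx0)⟩
  obtain ⟨δ, hδ, hL⟩ := lebesgue_number_lemma_of_metric hSk (fun v => isOpen_interior) hcov
  obtain ⟨K, hK⟩ := exists_pow_lt_of_lt_one hδ (inv_lt_one_of_one_lt₀ hp1)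
  refine ⟨K, ?_⟩
  intro A B A' B' hA hB hd
  have hmem : ((A : ℤ_[p]), (B : ℤ_[p])) ∈ S := by
    rw [hS, Set.mem_ofPred_eq]
    by_contra hlt
    push Not at hlt
    have h1 : (4 : ℤ_[p]) * (A : ℤ_[p]) ^ 3 + 27 * (B : ℤ_[p]) ^ 2 = ((disc A B : ℤ) : ℤ_[p]) := by
      unfold disc
      push_cast
      ring
    have h2 : ‖((disc A B : ℤ) : ℤ_[p])‖ ≤ (p : ℝ) ^ (-(k : ℤ)) := by
      rw [PadicInt.norm_le_pow_iff_norm_lt_pow_add_one]
      rw [← h1]
      exact hlt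
    exact hd (PadicInt.norm_int_le_pow_iff_dvd.1 h2)
  obtain ⟨v, hv⟩ := hL _ hmem
  have key : ∀ C C' : ℤ, (p : ℤ) ^ K ∣ C - C' → dist (C' : ℤ_[p]) (C : ℤ_[p]) < δ := by
    intro C C' hC
    rw [dist_comm, dist_eq_norm]
    have h1 : (C : ℤ_[p]) - (C' : ℤ_[p]) = ((C - C' : ℤ) : ℤ_[p]) := by push_cast; ring
    rw [h1]
    have h2 : ‖((C - C' : ℤ) : ℤ_[p])‖ ≤ (p : ℝ) ^ (-(K : ℤ)) := PadicInt.norm_int_le_pow_iff_dvd.2 (by exact_mod_cast hC)
    have h3 : (p : ℝ) ^ (-(K : ℤ)) = ((p : ℝ)⁻¹) ^ K := by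
      rw [zpow_neg, zpow_natCast, inv_pow]
    rw [h3] at h2
    exact lt_of_le_of_lt h2 hK
  have h1 : ((A : ℤ_[p]), (B : ℤ_[p])) ∈ {x | f x = v} := interior_subset (hv (Metric.mem_ball_self hδ))
  have hb : ((A' : ℤ_[p]), (B' : ℤ_[p])) ∈ Metric.ball ((A : ℤ_[p]), (B : ℤ_[p])) δ := by
    rw [Metric.mem_ball, Prod.dist_eq]
    exact max_lt (key A A' hA) (key B B' hB)
  have h2 : ((A' : ℤ_[p]), (B' : ℤ_[p])) ∈ {x | f x = v} := interior_subset (hv hb)
  have h3 : f ((A : ℤ_[p]), (B : ℤ_[p])) = v := h1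
  have h4 : f ((A' : ℤ_[p]), (B' : ℤ_[p])) = v := h2
  rw [h3, h4]
-- END lc_unif

-- BEGIN prod_big
private theorem prod_big_aux (a : ℤ) (n : ℕ) : Squarefree n →
    ∏ p ∈ n.primeFactors, (-jacobiSym a p) = ArithmeticFunction.moebius n * jacobiSym a n := by
  induction n using induction_on_primes with
  | zero => intro h; exact absurd h not_squarefree_zero
  | one => intro _; simp
  | prime_mul p m hp ih =>
    intro h
    have hco : Nat.Coprime p m := Nat.coprime_of_squarefree_mul h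
    have hm : Squarefree m := h.of_mul_right
    have hm0 : m ≠ 0 := hm.ne_zero
    rw [hco.primeFactors_mul, prod_union hco.disjoint_primeFactors, ih hm, hp.primeFactors,
      prod_singleton, ArithmeticFunction.isMultiplicative_moebius.map_mul_of_coprime hco,
      ArithmeticFunction.moebius_apply_prime hp, jacobiSym.mul_right' a hp.ne_zero hm0]
    ring

/-- L11. A prime `p > T` dividing `disc = b²c` divides exactly one of `b`, `c` (both: `p ∣ 9r²`, so `p ∣ r` and `p ∣ A`) and not `A` (`p ∣ A`, `p ∣ b` or `c`: `p ∣ r`). The product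
over the primes of `b' = (b / sm T b).natAbs` (squarefree, `sm_sqf`, `sm_prime`) of `-(3r/p)` is `μ(b') (3r/b')` (`jacobiSym` is a product over the prime factors,
`ArithmeticFunction.moebius_apply_of_squarefree`, `cardFactors`); the same for `c`. -/
theorem prod_big (T j : ℕ) (hT : 5 ≤ T) (A r : ℤ) (h : ¬ Exc T j A r) :
    ∏ p ∈ (disc A (BB A r)).natAbs.primeFactors with T < p, wp A (BB A r) p =
      ArithmeticFunction.moebius (bb A r / sm T (bb A r)).natAbs *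
      ArithmeticFunction.moebius (cc A r / sm T (cc A r)).natAbs *
      (jacobiSym (3 * r) (bb A r / sm T (bb A r)).natAbs * jacobiSym (-6 * r) (cc A r / sm T (cc A r)).natAbs) := by
  unfold Exc at h
  push Not at h
  obtain ⟨hr0, hb0, hc0, hbig, hsmall⟩ := h
  have hbT : ∀ p : ℕ, p.Prime → T < p → ¬ (p : ℤ) ^ 2 ∣ bb A r := fun p hp hTp => (hbig p hp hTp).2.1
  have hcT : ∀ p : ℕ, p.Prime → T < p → ¬ (p : ℤ) ^ 2 ∣ cc A r := fun p hp hTp => (hbig p hp hTp).2.2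
  have hAr : ∀ p : ℕ, p.Prime → T < p → (p : ℤ) ∣ A → ¬ (p : ℤ) ∣ r := fun p hp hTp =>
    (hbig p hp hTp).1
  have h3r : ∀ p : ℕ, p.Prime → T < p → (p : ℤ) ∣ 3 * r ^ 2 → (p : ℤ) ∣ r := by
    intro p hp hTp hd
    have hpp : Prime (p : ℤ) := Nat.prime_iff_prime_int.1 hp
    rcases hpp.dvd_or_dvd hd with h3 | h2
    · exfalso
      have h4 := Int.le_of_dvd (by norm_num) h3
      omega
    · exact hpp.dvd_of_dvd_pow h2
  have hbA : ∀ p : ℕ, p.Prime → T < p → (p : ℤ) ∣ bb A r → ¬ (p : ℤ) ∣ A := by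
    intro p hp hTp hd hA
    refine hAr p hp hTp hA (h3r p hp hTp ?_)
    have h1 : 3 * r ^ 2 = bb A r - A := by unfold bb; ring
    rw [h1]
    exact dvd_sub hd hA
  have hcA : ∀ p : ℕ, p.Prime → T < p → (p : ℤ) ∣ cc A r → ¬ (p : ℤ) ∣ A := by
    intro p hp hTp hd hA
    refine hAr p hp hTp hA (h3r p hp hTp ?_)
    have h1 : 3 * r ^ 2 = cc A r - 4 * A := by unfold cc; ring
    rw [h1]
    exact dvd_sub hd (hA.mul_left 4)
  have hbc : ∀ p : ℕ, p.Prime → T < p → (p : ℤ) ∣ bb A r → ¬ (p : ℤ) ∣ cc A r := by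
    intro p hp hTp hd hc
    refine hbA p hp hTp hd ?_
    have hpp : Prime (p : ℤ) := Nat.prime_iff_prime_int.1 hp
    have h1 : (p : ℤ) ∣ 3 * A := by
      have h2 : 3 * A = cc A r - bb A r := by unfold cc bb; ring
      rw [h2]
      exact dvd_sub hc hd
    rcases hpp.dvd_or_dvd h1 with h3 | h2
    · exfalso
      have h4 := Int.le_of_dvd (by norm_num) h3
      omega
    · exact h2
  set b' : ℕ := (bb A r / sm T (bb A r)).natAbs with hb'
  set c' : ℕ := (cc A r / sm T (cc A r)).natAbs with hc'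
  have hsb : Squarefree b' := sm_sqf T _ hb0 hbT
  have hsc : Squarefree c' := sm_sqf T _ hc0 hcT
  have hpb : ∀ p : ℕ, p.Prime → (p ∣ b' ↔ T < p ∧ (p : ℤ) ∣ bb A r) := by
    intro p hp
    constructor
    · intro hd
      have hTp : T < p := by
        by_contra hle
        exact (sm_basic T (bb A r) hb0).2.2 p hp (by omega) (Int.natCast_dvd.2 hd)
      exact ⟨hTp, (sm_prime T (bb A r) hb0 p hp hTp).2 hd⟩
    · rintro ⟨hTp, hd⟩
      exact (sm_prime T (bb A r) hb0 p hp hTp).1 hd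
  have hpc : ∀ p : ℕ, p.Prime → (p ∣ c' ↔ T < p ∧ (p : ℤ) ∣ cc A r) := by
    intro p hp
    constructor
    · intro hd
      have hTp : T < p := by
        by_contra hle
        exact (sm_basic T (cc A r) hc0).2.2 p hp (by omega) (Int.natCast_dvd.2 hd)
      exact ⟨hTp, (sm_prime T (cc A r) hc0 p hp hTp).2 hd⟩
    · rintro ⟨hTp, hd⟩
      exact (sm_prime T (cc A r) hc0 p hp hTp).1 hd
  have hd0 : disc A (BB A r) ≠ 0 := by
    rw [disc_BB]
    exact mul_ne_zero (pow_ne_zero 2 hb0) hc0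
  have hset : (disc A (BB A r)).natAbs.primeFactors.filter (fun p => T < p) =
      b'.primeFactors ∪ c'.primeFactors := by
    ext p
    simp only [mem_filter, mem_union, Nat.mem_primeFactors]
    constructor
    · rintro ⟨⟨hp, hd, _⟩, hTp⟩
      have hpp : Prime (p : ℤ) := Nat.prime_iff_prime_int.1 hp
      rw [← Int.natCast_dvd, disc_BB] at hd
      rcases hpp.dvd_or_dvd hd with h1 | h1
      · exact Or.inl ⟨hp, (hpb p hp).2 ⟨hTp, hpp.dvd_of_dvd_pow h1⟩, hsb.ne_zero⟩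
      · exact Or.inr ⟨hp, (hpc p hp).2 ⟨hTp, h1⟩, hsc.ne_zero⟩
    · rintro (⟨hp, hd, _⟩ | ⟨hp, hd, _⟩)
      · obtain ⟨hTp, h1⟩ := (hpb p hp).1 hd
        refine ⟨⟨hp, ?_, Int.natAbs_ne_zero.2 hd0⟩, hTp⟩
        rw [← Int.natCast_dvd, disc_BB]
        exact (h1.trans (dvd_pow_self _ two_ne_zero)).mul_right _
      · obtain ⟨hTp, h1⟩ := (hpc p hp).1 hd
        refine ⟨⟨hp, ?_, Int.natAbs_ne_zero.2 hd0⟩, hTp⟩
        rw [← Int.natCast_dvd, disc_BB]
        exact h1.mul_left _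
  have hdis : Disjoint b'.primeFactors c'.primeFactors := by
    rw [disjoint_left]
    intro p h1 h2
    rw [Nat.mem_primeFactors] at h1 h2
    obtain ⟨hTp, h3⟩ := (hpb p h1.1).1 h1.2.1
    exact hbc p h1.1 hTp h3 ((hpc p h1.1).1 h2.2.1).2
  have e1 : ∏ p ∈ b'.primeFactors, wp A (BB A r) p = ∏ p ∈ b'.primeFactors, (-jacobiSym (3 * r) p) := by
    refine prod_congr rfl (fun p hp => ?_)
    rw [Nat.mem_primeFactors] at hp
    obtain ⟨hTp, h3⟩ := (hpb p hp.1).1 hp.2.1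
    exact wp_b A r p hp.1 (by omega) h3 (hbA p hp.1 hTp h3)
  have e2 : ∏ p ∈ c'.primeFactors, wp A (BB A r) p = ∏ p ∈ c'.primeFactors, (-jacobiSym (-6 * r) p) := by
    refine prod_congr rfl (fun p hp => ?_)
    rw [Nat.mem_primeFactors] at hp
    obtain ⟨hTp, h3⟩ := (hpc p hp.1).1 hp.2.1
    exact wp_c A r p hp.1 (by omega) h3 (hcA p hp.1 hTp h3)
  rw [hset, prod_union hdis, e1, e2, prod_big_aux _ _ hsb, prod_big_aux _ _ hsc]
  ring
-- END prod_big

/-! ## Reciprocity -/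

-- BEGIN jac_form
/-- L12. Pure Jacobi symbol computation. `b', c', r'` odd, positive and pairwise coprime. `J(3r|b') = J(3sρ|b') J(r'|b')`, `J(-6r|c') = J(-6sρ|c') J(r'|c')`,
`J(r'|b') J(r'|c') = J(r'|b'c')`, `jacobiSym.quadratic_reciprocity`, `J(b'c'|r') = J(t|r')` since `b' c' t = t² ·..`: with `t = u v sgn(b) sgn(c)`, `b'c' t (uv) .. = b c = 4b²` mod `r'`: precisely
`b c = sgn(b) sgn(c) u v b' c'` and `b c = 4 b²` mod `r'` (as `c = 4b - 9r²`), `J(4b²|r') = 1`, so `J(sgn sgn u v|r') J(b'c'|r') = 1`. -/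
theorem jac_form (b c r : ℤ) (u v ρ b' c' r' : ℕ) (hc : c = 4 * b - 9 * r ^ 2)
    (hb' : b = b.sign * (u * b' : ℕ)) (hc' : c = c.sign * (v * c' : ℕ)) (hr' : r = r.sign * (ρ * r' : ℕ))
    (hb0 : b ≠ 0) (hc0 : c ≠ 0) (hr0 : r ≠ 0) (ob : Odd b') (oc : Odd c') (or : Odd r')
    (h1 : Nat.Coprime b' r') (h2 : Nat.Coprime c' r') (h3 : IsCoprime (b : ℤ) (r' : ℤ)) (hu : Nat.Coprime u r') (hv : Nat.Coprime v r') :
    jacobiSym (3 * r) b' * jacobiSym (-6 * r) c' =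
      jacobiSym (3 * r.sign * ρ) b' * jacobiSym (-6 * r.sign * ρ) c' * jacobiSym (b.sign * c.sign * (u * v : ℕ)) r' *
      (-1) ^ (r' / 2 * (b' * c' / 2)) := by
  have nb : b' ≠ 0 := by rintro rfl; exact absurd ob (by decide)
  have nc : c' ≠ 0 := by rintro rfl; exact absurd oc (by decide)
  have e1 : jacobiSym (3 * r) b' = jacobiSym (3 * r.sign * ρ) b' * jacobiSym (r' : ℤ) b' := by
    rw [← jacobiSym.mul_left]
    congr 1
    conv_lhs => rw [hr']
    push_cast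
    ring
  have e2 : jacobiSym (-6 * r) c' = jacobiSym (-6 * r.sign * ρ) c' * jacobiSym (r' : ℤ) c' := by
    rw [← jacobiSym.mul_left]
    congr 1
    conv_lhs => rw [hr']
    push_cast
    ring
  have e3 : jacobiSym (r' : ℤ) b' * jacobiSym (r' : ℤ) c' = jacobiSym (r' : ℤ) (b' * c') := by
    have : NeZero b' := ⟨nb⟩
    have : NeZero c' := ⟨nc⟩
    rw [jacobiSym.mul_right]
  have e4 : jacobiSym (r' : ℤ) (b' * c') =
      (-1) ^ (r' / 2 * (b' * c' / 2)) * jacobiSym ((b' * c' : ℕ) : ℤ) r' :=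
    jacobiSym.quadratic_reciprocity or (ob.mul oc)
  have hdvd : (r' : ℤ) ∣ r := by
    refine ⟨r.sign * ρ, ?_⟩
    conv_lhs => rw [hr']
    push_cast
    ring
  have e5 : jacobiSym (b * c) r' = 1 := by
    have h4 : jacobiSym (b * c) r' = jacobiSym ((2 * b) ^ 2) r' := by
      apply jacobiSym.mod_left'
      apply Int.ModEq.eq
      rw [Int.modEq_iff_dvd]
      obtain ⟨k, hk⟩ := hdvd
      refine ⟨9 * b * k * r, ?_⟩
      rw [hc]
      linear_combination (9 * b * r) * hk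
    rw [h4]
    apply jacobiSym.sq_one'
    rw [← Int.isCoprime_iff_gcd_eq_one]
    refine IsCoprime.mul_left ?_ h3
    rw [Int.isCoprime_iff_gcd_eq_one]
    have h5 : Nat.Coprime 2 r' := (Nat.coprime_two_left).2 or
    simpa [Int.gcd] using h5
  have e6 : jacobiSym (b.sign * c.sign * (u * v : ℕ)) r' * jacobiSym ((b' * c' : ℕ) : ℤ) r' = 1 := by
    rw [← jacobiSym.mul_left, ← e5]
    congr 1
    conv_rhs => rw [hb', hc']
    push_cast
    ring
  have e7 : jacobiSym ((b' * c' : ℕ) : ℤ) r' = jacobiSym (b.sign * c.sign * (u * v : ℕ)) r' := by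
    rcases Int.eq_one_or_neg_one_of_mul_eq_one e6 with h | h
    · rw [h] at e6 ⊢
      linarith
    · rw [h] at e6 ⊢
      linarith
  rw [e1, e2]
  calc jacobiSym (3 * r.sign * ρ) b' * jacobiSym (r' : ℤ) b' *
        (jacobiSym (-6 * r.sign * ρ) c' * jacobiSym (r' : ℤ) c')
      = jacobiSym (3 * r.sign * ρ) b' * jacobiSym (-6 * r.sign * ρ) c' *
        (jacobiSym (r' : ℤ) b' * jacobiSym (r' : ℤ) c') := by ring
    _ = _ := by rw [e3, e4, e7]; ring
-- END jac_form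

-- BEGIN jac_mod
/-- L13. `jacobiSym.mod_right`: `J(a|n)` depends only on `n mod 4|a|` for odd `n`. -/
theorem jac_mod (a : ℤ) (n n' : ℕ) (hn : Odd n) (hn' : Odd n') (h : n ≡ n' [MOD 4 * a.natAbs]) :
    jacobiSym a n = jacobiSym a n' := by
  rw [jacobiSym.mod_right a hn, jacobiSym.mod_right a hn', h]
-- END jac_mod

/-- `∏_{p ≤ T} p^k` -/
noncomputable def PP (T k : ℕ) : ℕ := ∏ p ∈ (range (T + 1)).filter Nat.Prime, p ^ k

-- BEGIN rough_congr
/-- L14. If `n = n'` mod `PP T (j + i)`, same sign, and no `p^j ∣ n` for `p ≤ T`, then the rough parts `(n / sm T n).natAbs` are congruent mod `PP T i`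
(`sm T n = sm T n'` divides `PP T j`, and `PP T (j + i) = PP T j * PP T i`). -/
theorem rough_congr (T j i : ℕ) (n n' : ℤ) (hn : n ≠ 0) (hn' : n' ≠ 0) (hs : n.sign = n'.sign) (h : ((PP T (j + i) : ℕ) : ℤ) ∣ n - n')
    (hj : ∀ p : ℕ, p.Prime → p ≤ T → ¬ (p : ℤ) ^ j ∣ n) :
    (n / sm T n).natAbs ≡ (n' / sm T n').natAbs [MOD PP T i] := by
  have hPP : PP T (j + i) = PP T j * PP T i := by
    unfold PP
    rw [← prod_mul_distrib]
    exact prod_congr rfl fun p _ => pow_add p j i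
  have hM : ∀ p : ℕ, p.Prime → p ≤ T → (p : ℤ) ^ j ∣ ((PP T (j + i) : ℕ) : ℤ) := by
    intro p hp hpT
    have h1 : p ^ j ∣ PP T (j + i) :=
      (pow_dvd_pow p (Nat.le_add_right j i)).trans
        (dvd_prod_of_mem (fun p => p ^ (j + i)) (mem_filter.2 ⟨mem_range.2 (by omega), hp⟩))
    exact_mod_cast h1
  have hsm := sm_congr T j _ hM n n' h hj
  obtain ⟨hs0, hsn, -⟩ := sm_basic T n hn
  obtain ⟨-, hsn', -⟩ := sm_basic T n' hn'
  have hdiv : sm T n ∣ PP T j := sm_div T j n hn hj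
  rw [← hsm] at hsn' ⊢
  generalize sm T n = s at hs0 hsn hsn' hdiv ⊢
  have hs1 : (s : ℤ) ≠ 0 := by exact_mod_cast hs0.ne'
  have hs2 : (0 : ℤ) < s := by exact_mod_cast hs0
  obtain ⟨a, rfl⟩ := hsn
  obtain ⟨b, rfl⟩ := hsn'
  obtain ⟨t, ht⟩ := h
  obtain ⟨q, hq⟩ := hdiv
  rw [Int.mul_ediv_cancel_left _ hs1, Int.mul_ediv_cancel_left _ hs1]
  have hab : a - b = (PP T i : ℤ) * (q * t) := by
    have h2 : (s : ℤ) * (a - b) = s * ((PP T i : ℤ) * (q * t)) := by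
      rw [mul_sub, ht, hPP, hq]
      push_cast
      ring
    exact mul_left_cancel₀ hs1 h2
  rw [Int.sign_mul, Int.sign_mul, Int.sign_eq_one_of_pos hs2, one_mul, one_mul] at hs
  rw [Nat.modEq_iff_dvd]
  rcases lt_trichotomy a 0 with h3 | h3 | h3
  · have h4 : b < 0 := by
      rw [Int.sign_eq_neg_one_of_neg h3] at hs
      exact Int.sign_eq_neg_one_iff_neg.1 hs.symm
    rw [Int.ofNat_natAbs_of_nonpos h3.le, Int.ofNat_natAbs_of_nonpos h4.le]
    exact ⟨q * t, by rw [← hab]; ring⟩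
  · exact absurd (by rw [h3, mul_zero]) hn
  · have h4 : 0 < b := by
      rw [Int.sign_eq_one_of_pos h3] at hs
      exact Int.sign_eq_one_iff_pos.1 hs.symm
    rw [Int.natAbs_of_nonneg h3.le, Int.natAbs_of_nonneg h4.le]
    exact ⟨-(q * t), by rw [mul_neg, ← hab]; ring⟩
-- END rough_congr

-- BEGIN jac_congr
private theorem jac_congr_split (T : ℕ) (n : ℤ) (hn : n ≠ 0) :
    n = n.sign * ((sm T n * (n / sm T n).natAbs : ℕ) : ℤ) := by
  obtain ⟨h0, h1, -⟩ := sm_basic T n hn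
  have e : (sm T n : ℤ) * (n / sm T n) = n := Int.mul_ediv_cancel' h1
  have e2 : sm T n * (n / sm T n).natAbs = n.natAbs := by
    have := congrArg Int.natAbs e
    rwa [Int.natAbs_mul, Int.natAbs_natCast] at this
  rw [e2]
  exact (Int.sign_mul_natAbs n).symm

private theorem jac_congr_big (T : ℕ) (n : ℤ) (hn : n ≠ 0) (q : ℕ) (hq : q.Prime)
    (h : q ∣ (n / sm T n).natAbs) : T < q ∧ (q : ℤ) ∣ n := by
  obtain ⟨h0, h1, h2⟩ := sm_basic T n hn
  have h' : (q : ℤ) ∣ n / sm T n := Int.natCast_dvd.mpr h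
  constructor
  · by_contra hc
    exact h2 q hq (not_lt.mp hc) h'
  · have e : (sm T n : ℤ) * (n / sm T n) = n := Int.mul_ediv_cancel' h1
    rw [← e]
    exact Dvd.dvd.mul_left h' _

private theorem jac_congr_small (T : ℕ) (n : ℤ) (q : ℕ) (hq : q.Prime) (h : q ∣ sm T n) : q ≤ T := by
  unfold sm at h
  obtain ⟨p, hp, hqp⟩ := (Prime.dvd_finsetProd_iff hq.prime _).mp h
  rw [mem_filter, mem_range] at hp
  have h1 := hq.dvd_of_dvd_pow hqp
  have h2 := (Nat.prime_dvd_prime_iff_eq hq hp.2).mp h1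
  omega

private theorem jac_congr_odd (T : ℕ) (hT : 5 ≤ T) (n : ℤ) (hn : n ≠ 0) : Odd (n / sm T n).natAbs := by
  rw [← Nat.not_even_iff_odd, even_iff_two_dvd]
  intro h
  have := (jac_congr_big T n hn 2 Nat.prime_two h).1
  omega

private theorem jac_congr_form (T j : ℕ) (hT : 5 ≤ T) (A r : ℤ) (h : ¬ Exc T j A r) :
    jacobiSym (3 * r) (bb A r / sm T (bb A r)).natAbs * jacobiSym (-6 * r) (cc A r / sm T (cc A r)).natAbs =
      jacobiSym (3 * r.sign * (sm T r : ℕ)) (bb A r / sm T (bb A r)).natAbs *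
      jacobiSym (-6 * r.sign * (sm T r : ℕ)) (cc A r / sm T (cc A r)).natAbs *
      jacobiSym ((bb A r).sign * (cc A r).sign * (sm T (bb A r) * sm T (cc A r) : ℕ)) (r / sm T r).natAbs *
      (-1) ^ ((r / sm T r).natAbs / 2 *
        ((bb A r / sm T (bb A r)).natAbs * (cc A r / sm T (cc A r)).natAbs / 2)) := by
  unfold Exc at h
  push Not at h
  obtain ⟨hr0, hb0, hc0, hbig, hsmall⟩ := h
  have hA : ∀ q : ℕ, q.Prime → T < q → (q : ℤ) ∣ r → ¬ (q : ℤ) ∣ A := fun q hq hTq hr hA =>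
    (hbig q hq hTq).1 hA hr
  have hbr : ∀ q : ℕ, q.Prime → T < q → (q : ℤ) ∣ r → ¬ (q : ℤ) ∣ bb A r := by
    intro q hq hTq hr hb
    apply hA q hq hTq hr
    have e : A = bb A r - 3 * r ^ 2 := by unfold bb; ring
    rw [e]
    exact dvd_sub hb (Dvd.dvd.mul_left (dvd_pow hr two_ne_zero) 3)
  have hcr : ∀ q : ℕ, q.Prime → T < q → (q : ℤ) ∣ r → ¬ (q : ℤ) ∣ cc A r := by
    intro q hq hTq hr hc
    apply hbr q hq hTq hr
    have hqZ : Prime (q : ℤ) := Nat.prime_iff_prime_int.mp hq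
    have h4 : (q : ℤ) ∣ 2 * (2 * bb A r) := by
      have e : 2 * (2 * bb A r) = cc A r + 9 * r ^ 2 := by rw [cc_eq]; ring
      rw [e]
      exact dvd_add hc (Dvd.dvd.mul_left (dvd_pow hr two_ne_zero) 9)
    have h2 : ¬ (q : ℤ) ∣ 2 := by
      intro h'
      have := Int.le_of_dvd (by norm_num) h'
      omega
    rcases hqZ.dvd_or_dvd h4 with h' | h'
    · exact absurd h' h2
    · rcases hqZ.dvd_or_dvd h' with h'' | h''
      · exact absurd h'' h2
      · exact h''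
  refine jac_form (bb A r) (cc A r) r (sm T (bb A r)) (sm T (cc A r)) (sm T r) _ _ _ (cc_eq A r)
    (jac_congr_split T _ hb0) (jac_congr_split T _ hc0) (jac_congr_split T _ hr0) hb0 hc0 hr0
    (jac_congr_odd T hT _ hb0) (jac_congr_odd T hT _ hc0) (jac_congr_odd T hT _ hr0) ?_ ?_ ?_ ?_ ?_
  · apply Nat.Coprime.symm
    apply Nat.coprime_of_dvd
    intro q hq h1 h2
    obtain ⟨a1, a2⟩ := jac_congr_big T r hr0 q hq h1
    obtain ⟨b1, b2⟩ := jac_congr_big T (bb A r) hb0 q hq h2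
    exact hbr q hq a1 a2 b2
  · apply Nat.Coprime.symm
    apply Nat.coprime_of_dvd
    intro q hq h1 h2
    obtain ⟨a1, a2⟩ := jac_congr_big T r hr0 q hq h1
    obtain ⟨b1, b2⟩ := jac_congr_big T (cc A r) hc0 q hq h2
    exact hcr q hq a1 a2 b2
  · rw [Int.isCoprime_iff_gcd_eq_one, Int.gcd_comm]
    show Nat.gcd _ _ = 1
    rw [Int.natAbs_natCast]
    apply Nat.coprime_of_dvd
    intro q hq h1 h2
    obtain ⟨a1, a2⟩ := jac_congr_big T r hr0 q hq h1
    exact hbr q hq a1 a2 (Int.natCast_dvd.mpr h2)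
  · apply Nat.Coprime.symm
    apply Nat.coprime_of_dvd
    intro q hq h1 h2
    obtain ⟨a1, a2⟩ := jac_congr_big T r hr0 q hq h1
    have := jac_congr_small T _ q hq h2
    omega
  · apply Nat.Coprime.symm
    apply Nat.coprime_of_dvd
    intro q hq h1 h2
    obtain ⟨a1, a2⟩ := jac_congr_big T r hr0 q hq h1
    have := jac_congr_small T _ q hq h2
    omega

private theorem jac_congr_pp_add (T a b : ℕ) : PP T (a + b) = PP T a * PP T b := by
  unfold PP
  rw [← Finset.prod_mul_distrib]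
  exact Finset.prod_congr rfl (fun p _ => pow_add p a b)

private theorem jac_congr_pow_dvd (T k p : ℕ) (hp : p.Prime) (hpT : p ≤ T) : p ^ k ∣ PP T k := by
  unfold PP
  exact Finset.dvd_prod_of_mem (fun p => p ^ k) (mem_filter.mpr ⟨mem_range.mpr (by omega), hp⟩)

private theorem jac_congr_24 (T : ℕ) (hT : 5 ≤ T) : 24 ∣ PP T 4 := by
  have h1 : 2 ^ 4 ∣ PP T 4 := jac_congr_pow_dvd T 4 2 Nat.prime_two (by omega)
  have h2 : 3 ^ 4 ∣ PP T 4 := jac_congr_pow_dvd T 4 3 Nat.prime_three (by omega)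
  have h3 : 2 ^ 4 * 3 ^ 4 ∣ PP T 4 := Nat.Coprime.mul_dvd_of_dvd_of_dvd (by norm_num) h1 h2
  exact Dvd.dvd.trans (by norm_num) h3

/-- L15. The Jacobi symbols depend only on the classes mod `PP T (3 * j + 4)` and the signs: `jac_form` for both pairs (coprimality: a prime dividing `r'` is `> T`,
it does not divide `A`, so not `b`, nor `c`), `rough_congr` with `i = 2j + 4`, `jac_mod` (`4 · 3 · ρ`, `4 · 6 · ρ`, `4 u v` divide `PP T (2 * j + 4)`, `T ≥ 3`), `u, v, ρ` equal by `sm_congr`. -/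
theorem jac_congr (T j : ℕ) (hT : 5 ≤ T) (A r A' r' : ℤ) (h : ¬ Exc T j A r) (h' : ¬ Exc T j A' r')
    (h1 : ((PP T (3 * j + 4) : ℕ) : ℤ) ∣ A - A') (h2 : ((PP T (3 * j + 4) : ℕ) : ℤ) ∣ r - r')
    (s1 : r.sign = r'.sign) (s2 : (bb A r).sign = (bb A' r').sign) (s3 : (cc A r).sign = (cc A' r').sign) :
    jacobiSym (3 * r) (bb A r / sm T (bb A r)).natAbs * jacobiSym (-6 * r) (cc A r / sm T (cc A r)).natAbs =
    jacobiSym (3 * r') (bb A' r' / sm T (bb A' r')).natAbs *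
      jacobiSym (-6 * r') (cc A' r' / sm T (cc A' r')).natAbs := by
  rw [jac_congr_form T j hT A r h, jac_congr_form T j hT A' r' h']
  have hE := h
  have hE' := h'
  unfold Exc at hE hE'
  push Not at hE hE'
  obtain ⟨hr0, hb0, hc0, -, hsm⟩ := hE
  obtain ⟨hr0', hb0', hc0', -, -⟩ := hE'
  have hrr : ((PP T (3 * j + 4) : ℕ) : ℤ) ∣ r ^ 2 - r' ^ 2 := by
    have e : r ^ 2 - r' ^ 2 = (r + r') * (r - r') := by ring
    rw [e]
    exact Dvd.dvd.mul_left h2 _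
  have hb : ((PP T (3 * j + 4) : ℕ) : ℤ) ∣ bb A r - bb A' r' := by
    have e : bb A r - bb A' r' = (A - A') + 3 * (r ^ 2 - r' ^ 2) := by unfold bb; ring
    rw [e]
    exact dvd_add h1 (Dvd.dvd.mul_left hrr 3)
  have hc : ((PP T (3 * j + 4) : ℕ) : ℤ) ∣ cc A r - cc A' r' := by
    have e : cc A r - cc A' r' = 4 * (A - A') + 3 * (r ^ 2 - r' ^ 2) := by unfold cc; ring
    rw [e]
    exact dvd_add (Dvd.dvd.mul_left h1 4) (Dvd.dvd.mul_left hrr 3)
  have hM : ∀ p : ℕ, p.Prime → p ≤ T → (p : ℤ) ^ j ∣ ((PP T (3 * j + 4) : ℕ) : ℤ) := by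
    intro p hp hpT
    have a1 : p ^ (3 * j + 4) ∣ PP T (3 * j + 4) := jac_congr_pow_dvd T _ p hp hpT
    have a2 : p ^ j ∣ PP T (3 * j + 4) := dvd_trans (pow_dvd_pow p (by omega)) a1
    exact_mod_cast a2
  have e3 : 3 * j + 4 = j + (2 * j + 4) := by omega
  have smb : sm T (bb A r) = sm T (bb A' r') :=
    sm_congr T j _ hM _ _ hb (fun p hp hpT => (hsm p hp hpT).2.1)
  have smc : sm T (cc A r) = sm T (cc A' r') :=
    sm_congr T j _ hM _ _ hc (fun p hp hpT => (hsm p hp hpT).2.2)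
  have smr : sm T r = sm T r' :=
    sm_congr T j _ hM _ _ h2 (fun p hp hpT => (hsm p hp hpT).1)
  have cb : (bb A r / sm T (bb A r)).natAbs ≡ (bb A' r' / sm T (bb A' r')).natAbs [MOD PP T (2 * j + 4)] :=
    rough_congr T j (2 * j + 4) _ _ hb0 hb0' s2 (by rw [← e3]; exact hb) (fun p hp hpT => (hsm p hp hpT).2.1)
  have cc' : (cc A r / sm T (cc A r)).natAbs ≡ (cc A' r' / sm T (cc A' r')).natAbs [MOD PP T (2 * j + 4)] :=
    rough_congr T j (2 * j + 4) _ _ hc0 hc0' s3 (by rw [← e3]; exact hc) (fun p hp hpT => (hsm p hp hpT).2.2)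
  have cr : (r / sm T r).natAbs ≡ (r' / sm T r').natAbs [MOD PP T (2 * j + 4)] :=
    rough_congr T j (2 * j + 4) _ _ hr0 hr0' s1 (by rw [← e3]; exact h2) (fun p hp hpT => (hsm p hp hpT).1)
  have ob := jac_congr_odd T hT _ hb0
  have ob' := jac_congr_odd T hT _ hb0'
  have oc := jac_congr_odd T hT _ hc0
  have oc' := jac_congr_odd T hT _ hc0'
  have or1 := jac_congr_odd T hT _ hr0
  have or1' := jac_congr_odd T hT _ hr0'
  have dr : sm T r ∣ PP T j := sm_div T j r hr0 (fun p hp hpT => (hsm p hp hpT).1)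
  have db : sm T (bb A r) ∣ PP T j := sm_div T j _ hb0 (fun p hp hpT => (hsm p hp hpT).2.1)
  have dc : sm T (cc A r) ∣ PP T j := sm_div T j _ hc0 (fun p hp hpT => (hsm p hp hpT).2.2)
  have pp1 : PP T (2 * j + 4) = PP T 4 * PP T j * PP T j := by
    have e : 2 * j + 4 = 4 + j + j := by omega
    rw [e, jac_congr_pp_add, jac_congr_pp_add]
  have h24 := jac_congr_24 T hT
  have sgr : r.sign.natAbs = 1 := Int.natAbs_sign_of_ne_zero hr0
  have sgb : (bb A r).sign.natAbs = 1 := Int.natAbs_sign_of_ne_zero hb0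
  have sgc : (cc A r).sign.natAbs = 1 := Int.natAbs_sign_of_ne_zero hc0
  rw [← smb, ← smc, ← smr] at *
  rw [← s1, ← s2, ← s3]
  set b1 := (bb A r / sm T (bb A r)).natAbs
  set b2 := (bb A' r' / sm T (bb A r)).natAbs
  set c1 := (cc A r / sm T (cc A r)).natAbs
  set c2 := (cc A' r' / sm T (cc A r)).natAbs
  set r1 := (r / sm T r).natAbs
  set r2 := (r' / sm T r).natAbs
  have j1 : jacobiSym (3 * r.sign * (sm T r : ℕ)) b1 = jacobiSym (3 * r.sign * (sm T r : ℕ)) b2 := by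
    apply jac_mod _ _ _ ob ob'
    apply Nat.ModEq.of_dvd _ cb
    rw [Int.natAbs_mul, Int.natAbs_mul, sgr, Int.natAbs_natCast, pp1]
    have a1 : 4 * ((3 : ℤ).natAbs * 1 * sm T r) ∣ 24 * sm T r := ⟨2, by
      have : (3 : ℤ).natAbs = 3 := rfl
      rw [this]; ring⟩
    exact dvd_mul_of_dvd_left (dvd_trans a1 (mul_dvd_mul h24 dr)) _
  have j2 : jacobiSym (-6 * r.sign * (sm T r : ℕ)) c1 = jacobiSym (-6 * r.sign * (sm T r : ℕ)) c2 := by
    apply jac_mod _ _ _ oc oc'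
    apply Nat.ModEq.of_dvd _ cc'
    rw [Int.natAbs_mul, Int.natAbs_mul, sgr, Int.natAbs_natCast, pp1]
    have a1 : 4 * ((-6 : ℤ).natAbs * 1 * sm T r) ∣ 24 * sm T r := ⟨1, by
      have : (-6 : ℤ).natAbs = 6 := rfl
      rw [this]; ring⟩
    exact dvd_mul_of_dvd_left (dvd_trans a1 (mul_dvd_mul h24 dr)) _
  have j3 : jacobiSym ((bb A r).sign * (cc A r).sign * (sm T (bb A r) * sm T (cc A r) : ℕ)) r1 =
      jacobiSym ((bb A r).sign * (cc A r).sign * (sm T (bb A r) * sm T (cc A r) : ℕ)) r2 := by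
    apply jac_mod _ _ _ or1 or1'
    apply Nat.ModEq.of_dvd _ cr
    rw [Int.natAbs_mul, Int.natAbs_mul, sgb, sgc, Int.natAbs_natCast, pp1]
    have a1 : 4 * (1 * 1 * (sm T (bb A r) * sm T (cc A r))) ∣ 24 * sm T (bb A r) * sm T (cc A r) := ⟨6, by ring⟩
    exact dvd_trans a1 (mul_dvd_mul (mul_dvd_mul h24 db) dc)
  have h4 : 4 ∣ PP T (2 * j + 4) := by
    rw [pp1]
    exact dvd_mul_of_dvd_left (dvd_mul_of_dvd_left (dvd_trans (by norm_num) h24) _) _
  have m1 : r1 % 4 = r2 % 4 := cr.of_dvd h4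
  have m2 : (b1 * c1) % 4 = (b2 * c2) % 4 := (cb.mul cc').of_dvd h4
  have p1 : r1 / 2 % 2 = r2 / 2 % 2 := by omega
  have p2 : b1 * c1 / 2 % 2 = b2 * c2 / 2 % 2 := by omega
  have j4 : (-1 : ℤ) ^ (r1 / 2 * (b1 * c1 / 2)) = (-1) ^ (r2 / 2 * (b2 * c2 / 2)) := by
    rw [neg_one_pow_eq_pow_mod_two, neg_one_pow_eq_pow_mod_two (n := r2 / 2 * (b2 * c2 / 2)),
      Nat.mul_mod, p1, p2, ← Nat.mul_mod]
  rw [j1, j2, j3, j4]
-- END jac_congr

/-! ## Minimality -/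

-- BEGIN min_iff
/-- L16. `p⁴ ∣ A` and `p⁶ ∣ r (r² + A)` imply `p² ∣ r`: if `v(r) ≤ 1` then `v(r² + A) = 2 v(r)`, so `v = 3 v(r) ≤ 3`. -/
theorem min_iff (A r : ℤ) : Minimal A (BB A r) ↔ ∀ p : ℕ, p.Prime → ¬ ((p : ℤ) ^ 4 ∣ A ∧ (p : ℤ) ^ 2 ∣ r) := by
  unfold Minimal BB
  refine forall_congr' fun p => forall_congr' fun hp => not_congr (and_congr_right fun hA => ?_)
  have hpi : Prime (p : ℤ) := Nat.prime_iff_prime_int.1 hp
  have hp0 : (p : ℤ) ≠ 0 := hpi.ne_zero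
  rw [dvd_neg]
  obtain ⟨a, rfl⟩ := hA
  constructor
  · intro h
    have h1 : (p : ℤ) ∣ r := by
      refine hpi.dvd_of_dvd_pow (n := 3) ?_
      have h2 : (p : ℤ) ∣ r ^ 3 + (p : ℤ) ^ 4 * a * r := (dvd_pow_self _ (by norm_num)).trans h
      have h3 : (p : ℤ) ∣ (p : ℤ) ^ 4 * a * r :=
        ((dvd_pow_self (p : ℤ) (by norm_num)).mul_right a).mul_right r
      exact (dvd_add_left h3).1 h2
    obtain ⟨s, rfl⟩ := h1
    have h4 : (p : ℤ) ∣ s := by
      refine hpi.dvd_of_dvd_pow (n := 3) ?_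
      obtain ⟨t, ht⟩ := h
      have h5 : (p : ℤ) ^ 3 * (s ^ 3 + (p : ℤ) ^ 2 * a * s) = (p : ℤ) ^ 3 * ((p : ℤ) ^ 3 * t) := by
        linear_combination ht
      have h6 := mul_left_cancel₀ (pow_ne_zero 3 hp0) h5
      refine ⟨(p : ℤ) ^ 2 * t - p * a * s, ?_⟩
      linear_combination h6
    rw [pow_two]
    exact mul_dvd_mul_left _ h4
  · rintro ⟨s, rfl⟩
    exact ⟨s ^ 3 + a * s, by ring⟩
-- END min_iff

-- BEGIN min_congr
private theorem min_congr_dvd (T : ℕ) (p : ℕ) (hp : p.Prime) (hpT : p ≤ T) :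
    (p : ℤ) ^ 4 ∣ ((PP T 4 : ℕ) : ℤ) := by
  have h : p ^ 4 ∣ PP T 4 := by
    unfold PP
    exact Finset.dvd_prod_of_mem (fun q => q ^ 4)
      (Finset.mem_filter.2 ⟨Finset.mem_range.2 (by omega), hp⟩)
  exact_mod_cast Int.natCast_dvd_natCast.2 h

private theorem min_congr_aux (T j : ℕ) (A r A' r' : ℤ) (h' : ¬ Exc T j A' r')
    (h1 : ((PP T 4 : ℕ) : ℤ) ∣ A - A') (h2 : ((PP T 4 : ℕ) : ℤ) ∣ r - r')
    (hm : ∀ p : ℕ, p.Prime → ¬ ((p : ℤ) ^ 4 ∣ A ∧ (p : ℤ) ^ 2 ∣ r)) :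
    ∀ p : ℕ, p.Prime → ¬ ((p : ℤ) ^ 4 ∣ A' ∧ (p : ℤ) ^ 2 ∣ r') := by
  rintro p hp ⟨hA, hr⟩
  rcases le_or_gt p T with hpT | hpT
  · have hd := min_congr_dvd T p hp hpT
    refine hm p hp ⟨?_, ?_⟩
    · exact (dvd_iff_dvd_of_dvd_sub (hd.trans h1)).2 hA
    · exact (dvd_iff_dvd_of_dvd_sub (((pow_dvd_pow (p : ℤ) (by norm_num : 2 ≤ 4)).trans hd).trans h2)).2 hr
  · refine h' (Or.inr (Or.inr (Or.inr (Or.inl ⟨p, hp, hpT, Or.inl ⟨?_, ?_⟩⟩))))
    · exact (dvd_pow_self (p : ℤ) (by norm_num)).trans hA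
    · exact (dvd_pow_self (p : ℤ) (by norm_num)).trans hr

/-- L17. Primes `> T` do not matter for non exceptional pairs. -/
theorem min_congr (T j : ℕ) (A r A' r' : ℤ) (h : ¬ Exc T j A r) (h' : ¬ Exc T j A' r')
    (h1 : ((PP T 4 : ℕ) : ℤ) ∣ A - A') (h2 : ((PP T 4 : ℕ) : ℤ) ∣ r - r') :
    Minimal A (BB A r) ↔ Minimal A' (BB A' r') := by
  rw [min_iff, min_iff]
  refine ⟨min_congr_aux T j A r A' r' h' h1 h2, min_congr_aux T j A' r' A r h ?_ ?_⟩
  · rwa [dvd_sub_comm]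
  · rwa [dvd_sub_comm]
-- END min_congr

-- BEGIN ident
private theorem ident_small (T j : ℕ) (A r : ℤ) (h : ¬ Exc T j A r) (p : ℕ) (hp : p.Prime) (hpT : p ≤ T) :
    ¬ (p : ℤ) ^ (3 * j) ∣ disc A (BB A r) := by
  have : Fact p.Prime := ⟨hp⟩
  unfold Exc at h
  push Not at h
  obtain ⟨_, hb, hc, _, h5⟩ := h
  obtain ⟨_, h6, h7⟩ := h5 p hp hpT
  rw [disc_BB]
  intro hd
  rw [padicValInt_dvd_iff] at h6 h7 hd
  push Not at h6 h7
  have hb2 : bb A r ^ 2 ≠ 0 := pow_ne_zero 2 hb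
  rcases hd with hd | hd
  · exact mul_ne_zero hb2 hc hd
  · rw [padicValInt.mul hb2 hc, sq, padicValInt.mul hb hb] at hd
    have h8 := h6.2
    have h9 := h7.2
    omega

private theorem ident_rn (w2 : ℤ_[2] × ℤ_[2] → ℤ) (w3 : ℤ_[3] × ℤ_[3] → ℤ) (T j : ℕ) (hT : 5 ≤ T) (A r : ℤ)
    (h : ¬ Exc T j A r) : rootNumber w2 w3 A (BB A r) =
      -(w2 ((A : ℤ_[2]), (BB A r : ℤ_[2])) * w3 ((A : ℤ_[3]), (BB A r : ℤ_[3])) *
        ((∏ p ∈ (range (T + 1)).filter (fun p => p.Prime ∧ 5 ≤ p), wp A (BB A r) p) *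
        (ArithmeticFunction.moebius (bb A r / sm T (bb A r)).natAbs *
      ArithmeticFunction.moebius (cc A r / sm T (cc A r)).natAbs *
      (jacobiSym (3 * r) (bb A r / sm T (bb A r)).natAbs * jacobiSym (-6 * r) (cc A r / sm T (cc A r)).natAbs)))) := by
  have hD : disc A (BB A r) ≠ 0 := by
    unfold Exc at h
    push Not at h
    obtain ⟨_, hb, hc, _, _⟩ := h
    rw [disc_BB]
    exact mul_ne_zero (pow_ne_zero 2 hb) hc
  unfold rootNumber
  rw [← prod_big T j hT A r h,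
    ← Finset.prod_filter_mul_prod_filter_not ((disc A (BB A r)).natAbs.primeFactors.filter fun p => 5 ≤ p) (fun p => p ≤ T)]
  have e1 : ((disc A (BB A r)).natAbs.primeFactors.filter fun p => 5 ≤ p).filter (fun p => ¬ p ≤ T) =
      (disc A (BB A r)).natAbs.primeFactors.filter fun p => T < p := by
    ext p
    simp only [Finset.mem_filter, not_le]
    constructor
    · rintro ⟨⟨h1, h2⟩, h3⟩
      exact ⟨h1, h3⟩
    · rintro ⟨h1, h3⟩
      exact ⟨⟨h1, by omega⟩, h3⟩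
  have e2 : ∏ p ∈ ((disc A (BB A r)).natAbs.primeFactors.filter fun p => 5 ≤ p).filter (fun p => p ≤ T), wp A (BB A r) p =
      ∏ p ∈ (range (T + 1)).filter (fun p => p.Prime ∧ 5 ≤ p), wp A (BB A r) p := by
    refine Finset.prod_subset ?_ ?_
    · intro p hp
      obtain ⟨hp1, hp2⟩ := Finset.mem_filter.1 hp
      obtain ⟨hp3, hp4⟩ := Finset.mem_filter.1 hp1
      exact Finset.mem_filter.2 ⟨Finset.mem_range.2 (by omega), Nat.prime_of_mem_primeFactors hp3, hp4⟩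
    · intro p hp hp'
      obtain ⟨hp1, hp2, hp3⟩ := Finset.mem_filter.1 hp
      have hnd : ¬ (p : ℤ) ∣ disc A (BB A r) := by
        intro hd
        refine hp' (Finset.mem_filter.2 ⟨Finset.mem_filter.2 ⟨?_, hp3⟩, by have := Finset.mem_range.1 hp1; omega⟩)
        exact Nat.mem_primeFactors.2 ⟨hp2, Int.natCast_dvd.1 hd, Int.natAbs_ne_zero.2 hD⟩
      unfold wp
      rw [if_pos hnd]
  rw [e1, e2]

/-- L18. MAIN IDENTITY. `M = PP T (3 * j + 4 + K)` with `K` from `lc_unif` for `w2`, `w3` and `k = 3j`. `rootNumber` is `-(w2 w3 ∏_{5 ≤ p ≤ T})` (for `p ∤ disc` one has `wp = 1`, so the product may be taken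
over all primes `5 ≤ p ≤ T`) times the product of `prod_big`; `p^(3j) ∤ disc = b²c` as `p^j ∤ b, c`; `wp_congr` with `k = 3j`; `jac_congr`; `min_congr`; `mob² = 1` (`sm_sqf`). -/
theorem ident (w2 : ℤ_[2] × ℤ_[2] → ℤ) (w3 : ℤ_[3] × ℤ_[3] → ℤ) (h2 : LocalSign 2 w2) (h3 : LocalSign 3 w3)
    (T j : ℕ) (hT : 5 ≤ T) (hj : 1 ≤ j) : ∃ M : ℕ, 0 < M ∧ PP T (3 * j + 4) ∣ M ∧ ∀ A r A' r' : ℤ, ¬ Exc T j A r → ¬ Exc T j A' r' →
      (M : ℤ) ∣ A - A' → (M : ℤ) ∣ r - r' → r.sign = r'.sign → (bb A r).sign = (bb A' r').sign →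
      (cc A r).sign = (cc A' r').sign → (Minimal A (BB A r) ↔ Minimal A' (BB A' r')) ∧
        (rootNumber w2 w3 A (BB A r) : ℝ) * mob (bb A r / sm T (bb A r)) * mob (cc A r / sm T (cc A r)) =
          rootNumber w2 w3 A' (BB A' r') * mob (bb A' r' / sm T (bb A' r')) * mob (cc A' r' / sm T (cc A' r')) ∧
        mob (bb A r / sm T (bb A r)) ^ 2 = 1 ∧ mob (cc A r / sm T (cc A r)) ^ 2 = 1 := by
  obtain ⟨K2, hK2⟩ := lc_unif 2 w2 h2 (3 * j)
  obtain ⟨K3, hK3⟩ := lc_unif 3 w3 h3 (3 * j)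
  have hPP : ∀ m n, m ≤ n → PP T m ∣ PP T n := fun m n hmn =>
    Finset.prod_dvd_prod_of_dvd _ _ fun p _ => pow_dvd_pow p hmn
  have hpM : ∀ p : ℕ, p.Prime → p ≤ T → ∀ n, p ^ n ∣ PP T n := fun p hp hpT n =>
    Finset.dvd_prod_of_mem (fun p => p ^ n) (Finset.mem_filter.2 ⟨Finset.mem_range.2 (by omega), hp⟩)
  refine ⟨PP T (3 * j + 4 + (K2 + K3)), ?_, hPP _ _ (by omega), ?_⟩
  · exact Finset.prod_pos fun p hp => pow_pos (Finset.mem_filter.1 hp).2.pos _
  intro A r A' r' h h' hA hr s1 s2 s3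
  obtain ⟨M, hM⟩ : ∃ M, M = PP T (3 * j + 4 + (K2 + K3)) := ⟨_, rfl⟩
  rw [← hM] at hA hr
  have hdM : ∀ n, n ≤ 3 * j + 4 + (K2 + K3) → ((PP T n : ℕ) : ℤ) ∣ (M : ℤ) := fun n hn => by
    rw [hM]
    exact Int.natCast_dvd_natCast.2 (hPP _ _ hn)
  have hpd : ∀ p : ℕ, p.Prime → p ≤ T → ∀ n, n ≤ 3 * j + 4 + (K2 + K3) → (p : ℤ) ^ n ∣ (M : ℤ) := fun p hp hpT n hn => by
    refine dvd_trans ?_ (hdM n hn)
    exact_mod_cast hpM p hp hpT n
  have hB : (M : ℤ) ∣ BB A r - BB A' r' := by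
    have e : BB A r - BB A' r' = -((r - r') * (r ^ 2 + r * r' + r' ^ 2)) - ((A - A') * r + A' * (r - r')) := by
      unfold BB
      ring
    rw [e]
    exact dvd_sub (Int.dvd_neg.2 (hr.mul_right _)) (dvd_add (hA.mul_right _) (hr.mul_left _))
  have hmin := min_congr T j A r A' r' h h' ((hdM 4 (by omega)).trans hA) ((hdM 4 (by omega)).trans hr)
  have hJ := jac_congr T j hT A r A' r' h h' ((hdM _ (by omega)).trans hA) ((hdM _ (by omega)).trans hr) s1 s2 s3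
  have e2 : w2 ((A : ℤ_[2]), (BB A r : ℤ_[2])) = w2 ((A' : ℤ_[2]), (BB A' r' : ℤ_[2])) :=
    hK2 A (BB A r) A' (BB A' r') ((hpd 2 Nat.prime_two (by omega) K2 (by omega)).trans hA)
      ((hpd 2 Nat.prime_two (by omega) K2 (by omega)).trans hB) (ident_small T j A r h 2 Nat.prime_two (by omega))
  have e3 : w3 ((A : ℤ_[3]), (BB A r : ℤ_[3])) = w3 ((A' : ℤ_[3]), (BB A' r' : ℤ_[3])) :=
    hK3 A (BB A r) A' (BB A' r') ((hpd 3 Nat.prime_three (by omega) K3 (by omega)).trans hA)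
      ((hpd 3 Nat.prime_three (by omega) K3 (by omega)).trans hB) (ident_small T j A r h 3 Nat.prime_three (by omega))
  have e4 : ∏ p ∈ (range (T + 1)).filter (fun p => p.Prime ∧ 5 ≤ p), wp A (BB A r) p =
      ∏ p ∈ (range (T + 1)).filter (fun p => p.Prime ∧ 5 ≤ p), wp A' (BB A' r') p := by
    refine Finset.prod_congr rfl fun p hp => ?_
    obtain ⟨hp1, hp2, hp3⟩ := Finset.mem_filter.1 hp
    have hpT : p ≤ T := by
      have := Finset.mem_range.1 hp1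
      omega
    exact wp_congr A (BB A r) A' (BB A' r') p (3 * j) hp2 hp3 ((hpd p hp2 hpT _ (by omega)).trans hA)
      ((hpd p hp2 hpT _ (by omega)).trans hB) (ident_small T j A r h p hp2 hpT)
  have hsq : ∀ A r : ℤ, ¬ Exc T j A r → mob (bb A r / sm T (bb A r)) ^ 2 = 1 ∧ mob (cc A r / sm T (cc A r)) ^ 2 = 1 := by
    intro A r h
    unfold Exc at h
    push Not at h
    obtain ⟨_, hb, hc, h4, _⟩ := h
    have key : ∀ n : ℤ, n ≠ 0 → (∀ p : ℕ, p.Prime → T < p → ¬ (p : ℤ) ^ 2 ∣ n) → mob (n / sm T n) ^ 2 = 1 := by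
      intro n hn hn'
      have h5 := ArithmeticFunction.moebius_sq_eq_one_of_squarefree (sm_sqf T n hn hn')
      unfold mob
      exact_mod_cast h5
    exact ⟨key _ hb fun p hp hpT => (h4 p hp hpT).2.1, key _ hc fun p hp hpT => (h4 p hp hpT).2.2⟩
  refine ⟨hmin, ?_, hsq A r h⟩
  rw [ident_rn w2 w3 T j hT A r h, ident_rn w2 w3 T j hT A' r' h', e2, e3, e4, hJ]
  obtain ⟨q1, q2⟩ := hsq A r h
  obtain ⟨q3, q4⟩ := hsq A' r' h'
  push_cast
  have m1 : (((ArithmeticFunction.moebius (bb A r / sm T (bb A r)).natAbs : ℤ)) : ℝ) = mob (bb A r / sm T (bb A r)) := rfl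
  have m2 : (((ArithmeticFunction.moebius (cc A r / sm T (cc A r)).natAbs : ℤ)) : ℝ) = mob (cc A r / sm T (cc A r)) := rfl
  have m3 : (((ArithmeticFunction.moebius (bb A' r' / sm T (bb A' r')).natAbs : ℤ)) : ℝ) = mob (bb A' r' / sm T (bb A' r')) := rfl
  have m4 : (((ArithmeticFunction.moebius (cc A' r' / sm T (cc A' r')).natAbs : ℤ)) : ℝ) = mob (cc A' r' / sm T (cc A' r')) := rfl
  rw [m1, m2, m3, m4]
  generalize mob (bb A r / sm T (bb A r)) = x1 at *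
  generalize mob (cc A r / sm T (cc A r)) = x2 at *
  generalize mob (bb A' r' / sm T (bb A' r')) = x3 at *
  generalize mob (cc A' r' / sm T (cc A' r')) = x4 at *
  have f1 : ∀ W P J : ℝ, -(W * (P * (x1 * x2 * J))) * x1 * x2 = -(W * P * J) := by
    intro W P J
    calc -(W * (P * (x1 * x2 * J))) * x1 * x2 = -(W * P * J) * (x1 ^ 2 * x2 ^ 2) := by ring
      _ = -(W * P * J) := by rw [q1, q2]; ring
  have f2 : ∀ W P J : ℝ, -(W * (P * (x3 * x4 * J))) * x3 * x4 = -(W * P * J) := by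
    intro W P J
    calc -(W * (P * (x3 * x4 * J))) * x3 * x4 = -(W * P * J) * (x3 ^ 2 * x4 ^ 2) := by ring
      _ = -(W * P * J) := by rw [q3, q4]; ring
  rw [f1, f2]
-- END ident

-- BEGIN rn_pm
/-- L19. -/
theorem rn_pm (w2 : ℤ_[2] × ℤ_[2] → ℤ) (w3 : ℤ_[3] × ℤ_[3] → ℤ) (h2 : LocalSign 2 w2) (h3 : LocalSign 3 w3) (A B : ℤ) :
    rootNumber w2 w3 A B = 1 ∨ rootNumber w2 w3 A B = -1 := by
  have key : ∀ a b : ℤ, (a = 1 ∨ a = -1) → (b = 1 ∨ b = -1) → (a * b = 1 ∨ a * b = -1) := by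
    rintro a b (rfl | rfl) (rfl | rfl) <;> simp
  have hprod : (∏ p ∈ (disc A B).natAbs.primeFactors with 5 ≤ p, wp A B p) = 1 ∨
      (∏ p ∈ (disc A B).natAbs.primeFactors with 5 ≤ p, wp A B p) = -1 := by
    refine Finset.prod_induction _ (fun z : ℤ => z = 1 ∨ z = -1) (fun a b => key a b) (Or.inl rfl) ?_
    intro p hp
    rw [mem_filter] at hp
    exact wp_pm A B p (Nat.prime_of_mem_primeFactors hp.1) hp.2
  unfold rootNumber
  rcases key _ _ (key _ _ (h2.1 ((A : ℤ_[2]), (B : ℤ_[2]))) (h3.1 ((A : ℤ_[3]), (B : ℤ_[3])))) hprod with h | h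
  · right; rw [h]
  · left; rw [h]; norm_num
-- END rn_pm

end Rnt
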