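import Mathlib

/-!
# Root numbers of elliptic curves over `ℚ` with a rational point of order 2 (MP_b8563d_nt): definitions
-/

set_option autoImplicit false

namespace Rnt

open Finset Filter Topology

/-- `4A³ + 27B²`; the discriminant of `y² = x³ + Ax + B` is `-16` times this. -/
def disc (A B : ℤ) : ℤ := 4 * A ^ 3 + 27 * B ^ 2

/-- The local root number at a prime `p ≥ 5` of `y² = x³ + Ax + B`, an equation with `p⁴ ∤ A` or `p⁶ ∤ B`, by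
Rohrlich's formula. Good reduction: `1`; multiplicative reduction: minus the Legendre symbol `(6B/p)` (`-1` if split,
`1` if not); additive, potentially multiplicative: `(-1/p)`; additive, potentially good, with `e = 12 / gcd(v_p(disc), 12)`:
`(-3/p)` for `e = 3`, `(-2/p)` for `e = 4`, `(-1/p)` for `e = 2, 6`. -/
noncomputable def wp (A B : ℤ) (p : ℕ) : ℤ :=
  if ¬ (p : ℤ) ∣ disc A B then 1
  else if ¬ (p : ℤ) ∣ A then - jacobiSym (6 * B) p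
  else if A ≠ 0 ∧ 3 * padicValInt p A < padicValInt p (disc A B) then jacobiSym (-1) p
  else if Nat.gcd (padicValInt p (disc A B)) 12 = 4 then jacobiSym (-3) p
  else if Nat.gcd (padicValInt p (disc A B)) 12 = 3 then jacobiSym (-2) p
  else if Nat.gcd (padicValInt p (disc A B)) 12 = 12 then 1
  else jacobiSym (-1) p

/-- A choice of signs for all `(A, B) ∈ ℤ_p²` which is locally constant where `4A³ + 27B² ≠ 0`; the local root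
number at `p` of `y² = x³ + Ax + B` is such a choice. -/
def LocalSign (p : ℕ) [Fact p.Prime] (f : ℤ_[p] × ℤ_[p] → ℤ) : Prop :=
  (∀ x, f x = 1 ∨ f x = -1) ∧
    ∀ x : ℤ_[p] × ℤ_[p], 4 * x.1 ^ 3 + 27 * x.2 ^ 2 ≠ 0 → ∀ᶠ y in 𝓝 x, f y = f x

/-- The root number of `y² = x³ + Ax + B`: minus the product of the local root numbers, where `w2`, `w3` are those at
the primes `2` and `3`. -/
noncomputable def rootNumber (w2 : ℤ_[2] × ℤ_[2] → ℤ) (w3 : ℤ_[3] × ℤ_[3] → ℤ) (A B : ℤ) : ℤ :=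
  - (w2 ((A : ℤ_[2]), (B : ℤ_[2])) * w3 ((A : ℤ_[3]), (B : ℤ_[3])) *
    ∏ p ∈ (disc A B).natAbs.primeFactors with 5 ≤ p, wp A B p)

/-- No prime `p` has `p⁴ ∣ A` and `p⁶ ∣ B`. -/
def Minimal (A B : ℤ) : Prop := ∀ p : ℕ, p.Prime → ¬ ((p : ℤ) ^ 4 ∣ A ∧ (p : ℤ) ^ 6 ∣ B)

/-- The elliptic curves over `ℚ` with a rational point of order `2` and of naive height at most `X`, up to isomorphism:
the pairs `(A, B)` with `Minimal A B`, `4A³ + 27B² ≠ 0`, `max(4|A|³, 27B²) ≤ X` such that `x³ + Ax + B` has a rational root. -/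
def Fam (X : ℝ) : Set (ℤ × ℤ) :=
  {E | Minimal E.1 E.2 ∧ disc E.1 E.2 ≠ 0 ∧ (∃ r : ℚ, r ^ 3 + E.1 * r + E.2 = 0) ∧
    4 * |(E.1 : ℝ)| ^ 3 ≤ X ∧ 27 * (E.2 : ℝ) ^ 2 ≤ X}

/-! ## Auxiliary definitions -/

/-- `b = A + 3r²` -/
def bb (A r : ℤ) : ℤ := A + 3 * r ^ 2

/-- `c = 4A + 3r² = 4b - 9r²` -/
def cc (A r : ℤ) : ℤ := 4 * A + 3 * r ^ 2

/-- the `B` with `r³ + Ar + B = 0` -/
def BB (A r : ℤ) : ℤ := -(r ^ 3 + A * r)

theorem disc_BB (A r : ℤ) : disc A (BB A r) = bb A r ^ 2 * cc A r := by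
  unfold disc BB bb cc; ring

theorem cc_eq (A r : ℤ) : cc A r = 4 * bb A r - 9 * r ^ 2 := by
  unfold bb cc; ring

/-- Moebius function of `|n|` -/
noncomputable def mob (n : ℤ) : ℝ := ((ArithmeticFunction.moebius n.natAbs : ℤ) : ℝ)

/-- `mu(|n|/u)` for the `n = n₀ mod M` divisible by `u`, else `0` -/
noncomputable def gg (M u : ℕ) (n₀ n : ℤ) : ℝ := if (u : ℤ) ∣ n ∧ (M : ℤ) ∣ n - n₀ then mob (n / u) else 0

/-- the `T`-smooth part of `|n|` -/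
noncomputable def sm (T : ℕ) (n : ℤ) : ℕ := ∏ p ∈ (range (T + 1)).filter Nat.Prime, p ^ padicValInt p n

/-- exceptional pairs -/
def Exc (T j : ℕ) (A r : ℤ) : Prop :=
  r = 0 ∨ bb A r = 0 ∨ cc A r = 0 ∨
  (∃ p : ℕ, p.Prime ∧ T < p ∧ (((p : ℤ) ∣ A ∧ (p : ℤ) ∣ r) ∨ (p : ℤ) ^ 2 ∣ bb A r ∨ (p : ℤ) ^ 2 ∣ cc A r)) ∨
  (∃ p : ℕ, p.Prime ∧ p ≤ T ∧ ((p : ℤ) ^ j ∣ r ∨ (p : ℤ) ^ j ∣ bb A r ∨ (p : ℤ) ^ j ∣ cc A r))

open Classical in
/-- The pairs `(A, r)` of height at most `Y⁶`. -/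
noncomputable def Reg (Y : ℝ) : Finset (ℤ × ℤ) :=
  ((Icc (-⌊Y ^ 2⌋) ⌊Y ^ 2⌋) ×ˢ (Icc (-⌊Y⌋) ⌊Y⌋)).filter
    (fun x => 4 * |(x.1 : ℝ)| ^ 3 ≤ Y ^ 6 ∧ 27 * ((BB x.1 x.2 : ℤ) : ℝ) ^ 2 ≤ Y ^ 6)

/-- The term of the bilinear sums. -/
noncomputable def tm (M u v : ℕ) (b₀ n₀ r₀ r b : ℤ) : ℝ :=
  if (M : ℤ) ∣ r - r₀ then gg M u b₀ b * gg M v n₀ (4 * b - 9 * r ^ 2) else 0

end Rnt
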