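import Pool.Agent.Mrd.Mu
import Pool.Agent.Rnt.Defs

/-!
# Rnt ANA: bilinear sums of the Moebius function
-/

set_option autoImplicit false

namespace Rnt

open Finset Filter Topology

-- BEGIN ap1
private theorem ap1_orth (Q : ℕ) (hQ : 0 < Q) (z : ℂ) (hz : IsPrimitiveRoot z Q) (n c : ℕ) (hc : c < Q) :
    ∑ a ∈ range Q, (z ^ a) ^ n * ((z ^ a) ^ c)⁻¹ = if n % Q = c then (Q : ℂ) else 0 := by
  have hz0 : z ≠ 0 := hz.ne_zero hQ.ne'
  have hmod : z ^ n = z ^ (n % Q) := by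
    conv_lhs => rw [← Nat.div_add_mod n Q]
    rw [pow_add, pow_mul, hz.pow_eq_one, one_pow, one_mul]
  have hterm : ∀ a ∈ range Q, (z ^ a) ^ n * ((z ^ a) ^ c)⁻¹ = (z ^ n * (z ^ c)⁻¹) ^ a := by
    intro a _
    rw [mul_pow, inv_pow, ← pow_mul, ← pow_mul, ← pow_mul, ← pow_mul, mul_comm a n, mul_comm a c]
  rw [Finset.sum_congr rfl hterm]
  by_cases h : n % Q = c
  · rw [if_pos h, hmod, h, mul_inv_cancel₀ (pow_ne_zero c hz0)]
    simp
  · rw [if_neg h]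
    have hw : z ^ n * (z ^ c)⁻¹ ≠ 1 := by
      intro h1
      have h2 : z ^ n = z ^ c := by
        have h3 := congrArg (fun x => x * z ^ c) h1
        simp only [one_mul] at h3
        rwa [mul_assoc, inv_mul_cancel₀ (pow_ne_zero c hz0), mul_one] at h3
      rw [hmod] at h2
      exact h (hz.pow_inj (Nat.mod_lt n hQ) hc h2)
    rw [geom_sum_eq hw]
    have h4 : (z ^ n * (z ^ c)⁻¹) ^ Q = 1 := by
      rw [mul_pow, inv_pow, ← pow_mul, ← pow_mul, mul_comm n Q, mul_comm c Q, pow_mul, pow_mul,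
        hz.pow_eq_one, one_pow, one_pow, inv_one, one_mul]
    rw [h4, sub_self, zero_div]

/-- A1. From `Pool.Agent.Mrd.mr_mu` for the `Q` numbers `l = exp(2 pi i a / Q)`: for each residue `c` the sum over `n = c mod Q` is
`Q⁻¹ ∑_a l_a^(-c) ∑_n l_a^n μ(n)` (orthogonality), and `φ m (n % Q) = ∑_c φ m c 1_(n % Q = c)`. Take `ε / Q` for each of the finitely
many `l`, and the maximum of the `H₀` and, for each `H`, of the `N₀`. -/
theorem ap1 (Q : ℕ) (hQ : 0 < Q) (ε : ℝ) (hε : 0 < ε) : ∃ H₀ : ℕ, ∀ H : ℕ, H₀ ≤ H → ∃ N₀ : ℕ, ∀ N : ℕ, N₀ ≤ N →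
    ∀ φ : ℕ → ℕ → ℝ, (∀ m c, |φ m c| ≤ 1) →
      ∑ m ∈ range N, |∑ n ∈ Ioc m (m + H), φ m (n % Q) * mob (n : ℤ)| ≤ ε * N * H := by
  have hQR : (0 : ℝ) < Q := by exact_mod_cast hQ
  have hQC : (Q : ℂ) ≠ 0 := by exact_mod_cast hQ.ne'
  obtain ⟨z, hz⟩ : ∃ z : ℂ, IsPrimitiveRoot z Q := ⟨_, Complex.isPrimitiveRoot_exp Q hQ.ne'⟩
  have hza : ∀ a : ℕ, (z ^ a) ^ Q = 1 := fun a => by
    rw [← pow_mul, mul_comm, pow_mul, hz.pow_eq_one, one_pow]
  have hnorm : ∀ a : ℕ, ‖z ^ a‖ = 1 := fun a => Complex.norm_eq_one_of_pow_eq_one (hza a) hQ.ne'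
  have hmr := fun a : ℕ => Pool.Agent.Mrd.mr_mu (z ^ a) Q hQ (hza a) (ε / Q) (div_pos hε hQR)
  choose H₀ hH₀ using hmr
  choose N₀ hN₀ using hH₀
  refine ⟨(range Q).sup H₀, fun H hH => ?_⟩
  have hH' : ∀ a ∈ range Q, H₀ a ≤ H := fun a ha => le_trans (Finset.le_sup ha) hH
  refine ⟨(range Q).sup (fun a => if h : H₀ a ≤ H then N₀ a H h else 0), fun N hN φ hφ => ?_⟩
  have hS : ∀ a ∈ range Q, ∑ m ∈ range N,
      ‖∑ n ∈ Ioc m (m + H), (z ^ a) ^ n * ((ArithmeticFunction.moebius n : ℤ) : ℂ)‖ ≤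
        ε / Q * N * H := by
    intro a ha
    refine hN₀ a H (hH' a ha) N (le_trans ?_ hN)
    have h1 := Finset.le_sup (f := fun a => if h : H₀ a ≤ H then N₀ a H h else 0) ha
    simp only [dif_pos (hH' a ha)] at h1
    exact h1
  have hpt : ∀ m, |∑ n ∈ Ioc m (m + H), φ m (n % Q) * mob (n : ℤ)| ≤
      ∑ a ∈ range Q, ‖∑ n ∈ Ioc m (m + H), (z ^ a) ^ n * ((ArithmeticFunction.moebius n : ℤ) : ℂ)‖ := by
    intro m
    have h1 : ((∑ n ∈ Ioc m (m + H), φ m (n % Q) * mob (n : ℤ) : ℝ) : ℂ) =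
        ∑ c ∈ range Q, (φ m c : ℂ) * ((Q : ℂ)⁻¹ * ∑ a ∈ range Q, ((z ^ a) ^ c)⁻¹ *
          ∑ n ∈ Ioc m (m + H), (z ^ a) ^ n * ((ArithmeticFunction.moebius n : ℤ) : ℂ)) := by
      have h2 : ∀ c ∈ range Q, (φ m c : ℂ) * ((Q : ℂ)⁻¹ * ∑ a ∈ range Q, ((z ^ a) ^ c)⁻¹ *
          ∑ n ∈ Ioc m (m + H), (z ^ a) ^ n * ((ArithmeticFunction.moebius n : ℤ) : ℂ)) =
          ∑ n ∈ Ioc m (m + H), (if n % Q = c then (φ m c : ℂ) * ((ArithmeticFunction.moebius n : ℤ) : ℂ)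
            else 0) := by
        intro c hc
        have h3 : ∑ a ∈ range Q, ((z ^ a) ^ c)⁻¹ *
            ∑ n ∈ Ioc m (m + H), (z ^ a) ^ n * ((ArithmeticFunction.moebius n : ℤ) : ℂ) =
            ∑ n ∈ Ioc m (m + H), (if n % Q = c then (Q : ℂ) else 0) *
              ((ArithmeticFunction.moebius n : ℤ) : ℂ) := by
          simp only [Finset.mul_sum]
          rw [Finset.sum_comm]
          refine Finset.sum_congr rfl (fun n _ => ?_)
          rw [← ap1_orth Q hQ z hz n c (Finset.mem_range.1 hc), Finset.sum_mul]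
          refine Finset.sum_congr rfl (fun a _ => ?_)
          ring
        rw [h3, Finset.mul_sum, Finset.mul_sum]
        refine Finset.sum_congr rfl (fun n _ => ?_)
        split_ifs with h4
        · field_simp
        · ring
      rw [Finset.sum_congr rfl h2, Finset.sum_comm, Complex.ofReal_sum]
      refine Finset.sum_congr rfl (fun n _ => ?_)
      rw [Finset.sum_ite_eq, if_pos (Finset.mem_range.2 (Nat.mod_lt n hQ)), mob, Int.natAbs_natCast]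
      push_cast
      rfl
    have h5 : |∑ n ∈ Ioc m (m + H), φ m (n % Q) * mob (n : ℤ)| =
        ‖((∑ n ∈ Ioc m (m + H), φ m (n % Q) * mob (n : ℤ) : ℝ) : ℂ)‖ := by
      rw [Complex.norm_real, Real.norm_eq_abs]
    rw [h5, h1]
    refine le_trans (norm_sum_le _ _) ?_
    calc ∑ c ∈ range Q, ‖(φ m c : ℂ) * ((Q : ℂ)⁻¹ * ∑ a ∈ range Q, ((z ^ a) ^ c)⁻¹ *
          ∑ n ∈ Ioc m (m + H), (z ^ a) ^ n * ((ArithmeticFunction.moebius n : ℤ) : ℂ))‖
        ≤ ∑ _c ∈ range Q, (Q : ℝ)⁻¹ * ∑ a ∈ range Q,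
          ‖∑ n ∈ Ioc m (m + H), (z ^ a) ^ n * ((ArithmeticFunction.moebius n : ℤ) : ℂ)‖ := by
          refine Finset.sum_le_sum (fun c _ => ?_)
          rw [norm_mul, norm_mul, norm_inv, Complex.norm_natCast, Complex.norm_real,
            Real.norm_eq_abs]
          have h6 : ‖∑ a ∈ range Q, ((z ^ a) ^ c)⁻¹ *
              ∑ n ∈ Ioc m (m + H), (z ^ a) ^ n * ((ArithmeticFunction.moebius n : ℤ) : ℂ)‖ ≤
              ∑ a ∈ range Q,
              ‖∑ n ∈ Ioc m (m + H), (z ^ a) ^ n * ((ArithmeticFunction.moebius n : ℤ) : ℂ)‖ := by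
            refine le_trans (norm_sum_le _ _) (Finset.sum_le_sum (fun a _ => ?_))
            rw [norm_mul, norm_inv, norm_pow, hnorm, one_pow, inv_one, one_mul]
          have h7 : 0 ≤ (Q : ℝ)⁻¹ * ∑ a ∈ range Q,
              ‖∑ n ∈ Ioc m (m + H), (z ^ a) ^ n * ((ArithmeticFunction.moebius n : ℤ) : ℂ)‖ :=
            mul_nonneg (inv_nonneg.2 hQR.le) (Finset.sum_nonneg (fun a _ => norm_nonneg _))
          calc |φ m c| * ((Q : ℝ)⁻¹ * ‖∑ a ∈ range Q, ((z ^ a) ^ c)⁻¹ *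
              ∑ n ∈ Ioc m (m + H), (z ^ a) ^ n * ((ArithmeticFunction.moebius n : ℤ) : ℂ)‖)
              ≤ |φ m c| * ((Q : ℝ)⁻¹ * ∑ a ∈ range Q,
              ‖∑ n ∈ Ioc m (m + H), (z ^ a) ^ n * ((ArithmeticFunction.moebius n : ℤ) : ℂ)‖) :=
                mul_le_mul_of_nonneg_left (mul_le_mul_of_nonneg_left h6 (inv_nonneg.2 hQR.le))
                  (abs_nonneg _)
            _ ≤ 1 * ((Q : ℝ)⁻¹ * ∑ a ∈ range Q,
              ‖∑ n ∈ Ioc m (m + H), (z ^ a) ^ n * ((ArithmeticFunction.moebius n : ℤ) : ℂ)‖) :=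
                mul_le_mul_of_nonneg_right (hφ m c) h7
            _ = _ := one_mul _
      _ = ∑ a ∈ range Q,
          ‖∑ n ∈ Ioc m (m + H), (z ^ a) ^ n * ((ArithmeticFunction.moebius n : ℤ) : ℂ)‖ := by
          rw [Finset.sum_const, Finset.card_range, nsmul_eq_mul, ← mul_assoc,
            mul_inv_cancel₀ hQR.ne', one_mul]
  calc ∑ m ∈ range N, |∑ n ∈ Ioc m (m + H), φ m (n % Q) * mob (n : ℤ)|
      ≤ ∑ m ∈ range N, ∑ a ∈ range Q,
        ‖∑ n ∈ Ioc m (m + H), (z ^ a) ^ n * ((ArithmeticFunction.moebius n : ℤ) : ℂ)‖ :=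
        Finset.sum_le_sum (fun m _ => hpt m)
    _ = ∑ a ∈ range Q, ∑ m ∈ range N,
        ‖∑ n ∈ Ioc m (m + H), (z ^ a) ^ n * ((ArithmeticFunction.moebius n : ℤ) : ℂ)‖ :=
        Finset.sum_comm
    _ ≤ ∑ _a ∈ range Q, ε / Q * N * H := Finset.sum_le_sum hS
    _ = ε * N * H := by
        rw [Finset.sum_const, Finset.card_range, nsmul_eq_mul]
        field_simp
-- END ap1

-- BEGIN ap2
theorem ap2_dvd (E Q v k : ℕ) (c : ℤ) (hE : E ∣ Q) :
    ((E : ℤ) ∣ (v : ℤ) * ((k % Q : ℕ) : ℤ) - c) ↔ ((E : ℤ) ∣ (v : ℤ) * (k : ℤ) - c) := by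
  have h1 : (v : ℤ) * (k : ℤ) - c =
      ((v : ℤ) * ((k % Q : ℕ) : ℤ) - c) + (v : ℤ) * ((Q : ℤ) * ((k / Q : ℕ) : ℤ)) := by
    have h2 : (k : ℤ) = (Q : ℤ) * ((k / Q : ℕ) : ℤ) + ((k % Q : ℕ) : ℤ) := by
      exact_mod_cast (Nat.div_add_mod k Q).symm
    calc (v : ℤ) * (k : ℤ) - c
        = (v : ℤ) * ((Q : ℤ) * ((k / Q : ℕ) : ℤ) + ((k % Q : ℕ) : ℤ)) - c := by rw [← h2]
      _ = _ := by ring
  have h3 : (E : ℤ) ∣ (v : ℤ) * ((Q : ℤ) * ((k / Q : ℕ) : ℤ)) :=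
    Dvd.dvd.mul_left (Dvd.dvd.mul_right (Int.natCast_dvd_natCast.mpr hE) _) _
  rw [h1]
  exact (Int.dvd_add_left h3).symm

theorem ap2_inner (M v D : ℕ) (hv : 0 < v) (hD : 0 < D) (n₀ : ℤ) (a t J : ℕ)
    (ht : t < v) (hJ : 0 < J) :
    ∑ i ∈ range J, gg M v n₀ (((v * a + t + 1 : ℕ) : ℤ) + D * i) =
      ∑ k ∈ Ioc a (a + (t + 1 + D * (J - 1)) / v),
        (if (D : ℤ) ∣ (v : ℤ) * ((k % (D * M) : ℕ) : ℤ) - ((v * a + t + 1 : ℕ) : ℤ) ∧
          (M : ℤ) ∣ (v : ℤ) * ((k % (D * M) : ℕ) : ℤ) - n₀ then (1 : ℝ) else 0) *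
        mob (k : ℤ) := by
  have hR : ∀ k ∈ Ioc a (a + (t + 1 + D * (J - 1)) / v),
      (if (D : ℤ) ∣ (v : ℤ) * ((k % (D * M) : ℕ) : ℤ) - ((v * a + t + 1 : ℕ) : ℤ) ∧
          (M : ℤ) ∣ (v : ℤ) * ((k % (D * M) : ℕ) : ℤ) - n₀ then (1 : ℝ) else 0) *
        mob (k : ℤ) =
      if (D : ℤ) ∣ (v : ℤ) * (k : ℤ) - ((v * a + t + 1 : ℕ) : ℤ) ∧
          (M : ℤ) ∣ (v : ℤ) * (k : ℤ) - n₀ then mob (k : ℤ) else 0 := by
    intro k _
    have e1 := ap2_dvd D (D * M) v k ((v * a + t + 1 : ℕ) : ℤ) (Dvd.intro _ rfl)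
    have e2 := ap2_dvd M (D * M) v k n₀ (Dvd.intro_left _ rfl)
    by_cases h : (D : ℤ) ∣ (v : ℤ) * (k : ℤ) - ((v * a + t + 1 : ℕ) : ℤ) ∧
          (M : ℤ) ∣ (v : ℤ) * (k : ℤ) - n₀
    · rw [if_pos h, if_pos ⟨e1.mpr h.1, e2.mpr h.2⟩, one_mul]
    · rw [if_neg h, if_neg (fun h' => h ⟨e1.mp h'.1, e2.mp h'.2⟩), zero_mul]
  rw [Finset.sum_congr rfl hR, ← Finset.sum_filter]
  have hL : ∀ i ∈ range J, gg M v n₀ (((v * a + t + 1 : ℕ) : ℤ) + D * i) =
      if (v : ℤ) ∣ (((v * a + t + 1 : ℕ) : ℤ) + D * i) ∧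
        (M : ℤ) ∣ (((v * a + t + 1 : ℕ) : ℤ) + D * i) - n₀
      then mob ((((v * a + t + 1 : ℕ) : ℤ) + D * i) / v) else 0 := fun i _ => rfl
  rw [Finset.sum_congr rfl hL, ← Finset.sum_filter]
  have hdiv : ∀ i : ℕ, (v : ℤ) ∣ (((v * a + t + 1 : ℕ) : ℤ) + D * i) →
      v * ((v * a + t + 1 + D * i) / v) = v * a + t + 1 + D * i := by
    intro i hi
    have h1 : v ∣ v * a + t + 1 + D * i := by
      have h2 : ((v : ℕ) : ℤ) ∣ ((v * a + t + 1 + D * i : ℕ) : ℤ) := by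
        push_cast at hi ⊢
        exact hi
      exact Int.natCast_dvd_natCast.mp h2
    exact Nat.mul_div_cancel' h1
  have hsub : ∀ k : ℕ, a < k → (D : ℤ) ∣ (v : ℤ) * (k : ℤ) - ((v * a + t + 1 : ℕ) : ℤ) →
      v * a + t + 1 ≤ v * k ∧ D * ((v * k - (v * a + t + 1)) / D) = v * k - (v * a + t + 1) := by
    intro k hk hd
    have h1 : v * a + t + 1 ≤ v * k := by
      have : v * (a + 1) ≤ v * k := Nat.mul_le_mul_left v hk
      rw [Nat.mul_add, Nat.mul_one] at this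
      omega
    refine ⟨h1, ?_⟩
    have h2 : D ∣ v * k - (v * a + t + 1) := by
      have h3 : ((D : ℕ) : ℤ) ∣ ((v * k - (v * a + t + 1) : ℕ) : ℤ) := by
        rw [Nat.cast_sub h1]
        push_cast at hd ⊢
        exact hd
      exact Int.natCast_dvd_natCast.mp h3
    exact Nat.mul_div_cancel' h2
  refine Finset.sum_nbij' (fun i => (v * a + t + 1 + D * i) / v)
    (fun k => (v * k - (v * a + t + 1)) / D) ?_ ?_ ?_ ?_ ?_
  · intro i hi
    rw [Finset.mem_filter, Finset.mem_range] at hi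
    obtain ⟨hiJ, hi1, hi2⟩ := hi
    have h1 := hdiv i hi1
    rw [Finset.mem_filter, Finset.mem_Ioc]
    have hc : (v : ℤ) * (((v * a + t + 1 + D * i) / v : ℕ) : ℤ) =
        ((v * a + t + 1 : ℕ) : ℤ) + D * i := by
      have h2 : ((v * ((v * a + t + 1 + D * i) / v) : ℕ) : ℤ) =
        ((v * a + t + 1 + D * i : ℕ) : ℤ) := by rw [h1]
      push_cast at h2 ⊢
      exact h2
    refine ⟨⟨?_, ?_⟩, ?_, ?_⟩
    · by_contra h
      have h3 : v * ((v * a + t + 1 + D * i) / v) ≤ v * a := Nat.mul_le_mul_left v (by omega)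
      omega
    · have h4 : D * i ≤ D * (J - 1) := Nat.mul_le_mul_left D (by omega)
      have h5 : (v * a + t + 1 + D * i) / v ≤ (v * a + (t + 1 + D * (J - 1))) / v :=
        Nat.div_le_div_right (by omega)
      rwa [Nat.mul_add_div hv] at h5
    · rw [hc, add_sub_cancel_left]
      exact Dvd.intro _ rfl
    · rw [hc]
      exact hi2
  · intro k hk
    rw [Finset.mem_filter, Finset.mem_Ioc] at hk
    obtain ⟨⟨hk1, hk2⟩, hk3, hk4⟩ := hk
    obtain ⟨h1, h2⟩ := hsub k hk1 hk3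
    have hc : (((v * a + t + 1 : ℕ) : ℤ) + D * (((v * k - (v * a + t + 1)) / D : ℕ) : ℤ)) =
        (v : ℤ) * (k : ℤ) := by
      have h3 : ((D * ((v * k - (v * a + t + 1)) / D) : ℕ) : ℤ) =
          ((v * k - (v * a + t + 1) : ℕ) : ℤ) := by rw [h2]
      rw [Nat.cast_sub h1] at h3
      push_cast at h3 ⊢
      linarith
    rw [Finset.mem_filter, Finset.mem_range]
    refine ⟨?_, ?_, ?_⟩
    · have h4 : v * k ≤ v * (a + (t + 1 + D * (J - 1)) / v) := Nat.mul_le_mul_left v hk2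
      have h5 : v * ((t + 1 + D * (J - 1)) / v) ≤ t + 1 + D * (J - 1) := Nat.mul_div_le _ _
      rw [Nat.mul_add] at h4
      have h6 : D * ((v * k - (v * a + t + 1)) / D) ≤ D * (J - 1) := by
        rw [h2]
        omega
      have h7 := Nat.le_of_mul_le_mul_left h6 hD
      omega
    · rw [hc]
      exact Dvd.intro _ rfl
    · rw [hc]
      exact hk4
  · intro i hi
    rw [Finset.mem_filter] at hi
    have h1 := hdiv i hi.2.1
    show (v * ((v * a + t + 1 + D * i) / v) - (v * a + t + 1)) / D = i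
    rw [h1, Nat.add_sub_cancel_left, Nat.mul_div_cancel_left i hD]
  · intro k hk
    rw [Finset.mem_filter, Finset.mem_Ioc] at hk
    obtain ⟨h1, h2⟩ := hsub k hk.1.1 hk.2.1
    show (v * a + t + 1 + D * ((v * k - (v * a + t + 1)) / D)) / v = k
    rw [h2, Nat.add_sub_cancel' h1, Nat.mul_div_cancel_left k hv]
  · intro i hi
    congr 1

theorem ap2_split (v N : ℕ) (hv : 0 < v) (f : ℕ → ℝ) (hf : ∀ m, 0 ≤ f m) :
    ∑ m ∈ range N, f m ≤ ∑ t ∈ range v, ∑ a ∈ range (N / v + 1), f (v * a + t) := by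
  rw [← Finset.sum_product' (range v) (range (N / v + 1)) (fun t a => f (v * a + t))]
  have h1 : ∑ m ∈ range N, f m = ∑ x ∈ (range N).image (fun m => (m % v, m / v)),
      f (v * x.2 + x.1) := by
    rw [Finset.sum_image]
    · apply Finset.sum_congr rfl
      intro m _
      show f m = f (v * (m / v) + m % v)
      rw [Nat.div_add_mod]
    · intro m₁ _ m₂ _ h
      have h' : (m₁ % v, m₁ / v) = (m₂ % v, m₂ / v) := h
      rw [Prod.mk.injEq] at h'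
      rw [← Nat.div_add_mod m₁ v, ← Nat.div_add_mod m₂ v, h'.1, h'.2]
  rw [h1]
  apply Finset.sum_le_sum_of_subset_of_nonneg
  · intro x hx
    rw [Finset.mem_image] at hx
    obtain ⟨m, hm, rfl⟩ := hx
    rw [Finset.mem_range] at hm
    rw [Finset.mem_product, Finset.mem_range, Finset.mem_range]
    exact ⟨Nat.mod_lt _ hv, Nat.lt_succ_of_le (Nat.div_le_div_right hm.le)⟩
  · intro x _ _
    exact hf _

theorem ap2_mob (n : ℤ) : |mob n| ≤ 1 := by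
  unfold mob
  have h := ArithmeticFunction.abs_moebius_le_one (n := n.natAbs)
  have h2 : ((|ArithmeticFunction.moebius n.natAbs| : ℤ) : ℝ) ≤ ((1 : ℤ) : ℝ) := by
    exact_mod_cast h
  rw [Int.cast_abs] at h2
  simpa using h2

theorem ap2_gg (M v : ℕ) (n₀ n : ℤ) : |gg M v n₀ n| ≤ 1 := by
  unfold gg
  split_ifs
  · exact ap2_mob _
  · simp

/-- A2. The same along arithmetic progressions of difference `D`. For `m = v a + s`, `1 ≤ s ≤ v` (and `m = 0` apart), the `n = m + D i`,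
`i < J`, with `v ∣ n` are `n = v k` with `a < k` and `v k ≤ m + D (J - 1)`, `v k = m mod D`; the condition on `k` is periodic modulo
`Q = D M` (`M ∣ v k - n₀`). So the inner sum is a sum over `k ∈ Ioc a (a + H)`, `H = D J / v`, up to at most 2 terms, of `φ a (k % Q) μ(k)`; `ap1` for
each of the `v` values of `s`, with `N / v + 1` for `N`. -/
theorem ap2 (M v D : ℕ) (hM : 0 < M) (hv : 0 < v) (hD : 0 < D) (n₀ : ℤ) (ε : ℝ) (hε : 0 < ε) :
    ∃ J₀ : ℕ, ∀ J : ℕ, J₀ ≤ J → ∃ N₀ : ℕ, ∀ N : ℕ, N₀ ≤ N →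
      ∑ m ∈ range N, |∑ i ∈ range J, gg M v n₀ ((m : ℤ) + D * i)| ≤ ε * N * J := by
  have hvR : (0 : ℝ) < v := by exact_mod_cast hv
  have hDR : (0 : ℝ) < D := by exact_mod_cast hD
  obtain ⟨H₀, hH₀⟩ := ap1 (D * M) (Nat.mul_pos hD hM) (ε / (8 * v * D)) (by positivity)
  refine ⟨v * (H₀ + 1) + 1, fun J hJ => ?_⟩
  have hJ0 : 0 < J := by omega
  have hHt : ∀ t : ℕ, H₀ ≤ (t + 1 + D * (J - 1)) / v := by
    intro t
    rw [Nat.le_div_iff_mul_le hv]
    have h1 : J - 1 ≤ D * (J - 1) := Nat.le_mul_of_pos_left _ hD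
    have h2 : H₀ * v ≤ v * (H₀ + 1) := by
      rw [Nat.mul_comm]
      exact Nat.mul_le_mul_left v (Nat.le_succ _)
    omega
  choose N₁ hN₁ using fun t : ℕ => hH₀ ((t + 1 + D * (J - 1)) / v) (hHt t)
  refine ⟨v * (∑ t ∈ range v, N₁ t) + v + ⌈2 / ε⌉₊ + 2, fun N hN => ?_⟩
  obtain ⟨N', rfl⟩ : ∃ N', N = N' + 1 := ⟨N - 1, by omega⟩
  rw [Finset.sum_range_succ']
  have hJR : (0 : ℝ) < J := by exact_mod_cast hJ0
  have hlast : |∑ i ∈ range J, gg M v n₀ (((0 : ℕ) : ℤ) + D * i)| ≤ ε / 2 * ((N' + 1 : ℕ) : ℝ) * J := by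
    have h1 : |∑ i ∈ range J, gg M v n₀ (((0 : ℕ) : ℤ) + D * i)| ≤ J := by
      refine le_trans (Finset.abs_sum_le_sum_abs _ _) ?_
      refine le_trans (Finset.sum_le_sum (fun i _ => ap2_gg M v n₀ _)) ?_
      simp
    have h2 : 2 / ε ≤ ((N' + 1 : ℕ) : ℝ) := by
      refine le_trans (Nat.le_ceil _) ?_
      exact_mod_cast (by omega : ⌈2 / ε⌉₊ ≤ N' + 1)
    have h3 : 1 ≤ ε / 2 * ((N' + 1 : ℕ) : ℝ) := by
      have h4 := mul_le_mul_of_nonneg_left h2 (by positivity : (0 : ℝ) ≤ ε / 2)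
      have h5 : ε / 2 * (2 / ε) = 1 := by field_simp
      linarith
    calc |∑ i ∈ range J, gg M v n₀ (((0 : ℕ) : ℤ) + D * i)| ≤ J := h1
      _ = 1 * (J : ℝ) := by ring
      _ ≤ ε / 2 * ((N' + 1 : ℕ) : ℝ) * J := mul_le_mul_of_nonneg_right h3 hJR.le
  have hmain : ∑ m ∈ range N', |∑ i ∈ range J, gg M v n₀ (((m + 1 : ℕ) : ℤ) + D * i)| ≤
      ε / 2 * ((N' + 1 : ℕ) : ℝ) * J := by
    have h1 := ap2_split v N' hv
      (fun m => |∑ i ∈ range J, gg M v n₀ (((m + 1 : ℕ) : ℤ) + D * i)|) (fun m => abs_nonneg _)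
    refine le_trans h1 ?_
    have h2 : ∀ t ∈ range v, ∑ a ∈ range (N' / v + 1),
        |∑ i ∈ range J, gg M v n₀ (((v * a + t + 1 : ℕ) : ℤ) + D * i)| ≤
        ε / (8 * v * D) * (2 * ((N' + 1 : ℕ) : ℝ)) * (2 * D * J) := by
      intro t ht
      have htv : t < v := Finset.mem_range.mp ht
      have h3 := hN₁ t (N' / v + 1) (by
        have h4 : N₁ t ≤ ∑ t ∈ range v, N₁ t :=
          Finset.single_le_sum (f := N₁) (fun _ _ => Nat.zero_le _) ht
        have h5 : ∑ t ∈ range v, N₁ t ≤ N' / v := by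
          rw [Nat.le_div_iff_mul_le hv, Nat.mul_comm]
          omega
        omega)
        (fun a c => if (D : ℤ) ∣ (v : ℤ) * (c : ℤ) - ((v * a + t + 1 : ℕ) : ℤ) ∧
          (M : ℤ) ∣ (v : ℤ) * (c : ℤ) - n₀ then (1 : ℝ) else 0)
        (fun a c => by
          show |if (D : ℤ) ∣ (v : ℤ) * (c : ℤ) - ((v * a + t + 1 : ℕ) : ℤ) ∧
            (M : ℤ) ∣ (v : ℤ) * (c : ℤ) - n₀ then (1 : ℝ) else 0| ≤ 1
          split_ifs <;> simp)
      have h6 : ∑ a ∈ range (N' / v + 1),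
          |∑ i ∈ range J, gg M v n₀ (((v * a + t + 1 : ℕ) : ℤ) + D * i)| ≤
          ε / (8 * v * D) * ((N' / v + 1 : ℕ) : ℝ) * (((t + 1 + D * (J - 1)) / v : ℕ) : ℝ) := by
        refine le_trans (le_of_eq ?_) h3
        apply Finset.sum_congr rfl
        intro a _
        rw [ap2_inner M v D hv hD n₀ a t J htv hJ0]
      refine le_trans h6 ?_
      have h7 : ((N' / v + 1 : ℕ) : ℝ) ≤ 2 * ((N' + 1 : ℕ) : ℝ) := by
        have : N' / v ≤ N' := Nat.div_le_self _ _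
        exact_mod_cast (by omega : N' / v + 1 ≤ 2 * (N' + 1))
      have h8 : (((t + 1 + D * (J - 1)) / v : ℕ) : ℝ) ≤ 2 * D * J := by
        have h9 : (t + 1 + D * (J - 1)) / v ≤ 2 * D * J := by
          apply Nat.div_le_of_le_mul
          have h10 : D * J = D * (J - 1) + D := by
            obtain ⟨J', rfl⟩ : ∃ J', J = J' + 1 := ⟨J - 1, by omega⟩
            rw [Nat.add_sub_cancel, Nat.mul_add, Nat.mul_one]
          have h11 : v * (2 * D * J) = v * (D * J) + v * (D * J) := by ring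
          have h12 : D * J ≤ v * (D * J) := Nat.le_mul_of_pos_left _ hv
          have h13 : v ≤ v * (D * J) := Nat.le_mul_of_pos_right _ (Nat.mul_pos hD hJ0)
          rw [h11]
          omega
        exact_mod_cast h9
      have hpos : (0 : ℝ) ≤ ε / (8 * v * D) := by positivity
      exact mul_le_mul (mul_le_mul_of_nonneg_left h7 hpos) h8 (by positivity) (by positivity)
    refine le_trans (Finset.sum_le_sum h2) ?_
    rw [Finset.sum_const, Finset.card_range, nsmul_eq_mul]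
    apply le_of_eq
    field_simp
    ring
  have hsum : ε * ((N' + 1 : ℕ) : ℝ) * J =
      ε / 2 * ((N' + 1 : ℕ) : ℝ) * J + ε / 2 * ((N' + 1 : ℕ) : ℝ) * J := by ring
  rw [hsum]
  exact add_le_add hmain hlast
-- END ap2

-- BEGIN ap3
private theorem ap3_mob_le (n : ℤ) : |mob n| ≤ 1 := by
  unfold mob
  have h := ArithmeticFunction.abs_moebius_le_one (n := n.natAbs)
  exact_mod_cast h

private theorem ap3_gg_le (M v : ℕ) (n₀ n : ℤ) : |gg M v n₀ n| ≤ 1 := by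
  unfold gg
  split_ifs
  · exact ap3_mob_le _
  · simp

private theorem ap3_neg (M v : ℕ) (n₀ n : ℤ) : gg M v n₀ (-n) = gg M v (-n₀) n := by
  unfold gg
  have h1 : (v : ℤ) ∣ -n ↔ (v : ℤ) ∣ n := by rw [dvd_neg]
  have h2 : (M : ℤ) ∣ -n - n₀ ↔ (M : ℤ) ∣ n - -n₀ := by
    rw [← dvd_neg]
    have : -(-n - n₀) = n - -n₀ := by ring
    rw [this]
  by_cases h : (v : ℤ) ∣ n ∧ (M : ℤ) ∣ n - -n₀
  · rw [if_pos h, if_pos ⟨h1.2 h.1, h2.2 h.2⟩]
    unfold mob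
    rw [Int.neg_ediv_of_dvd h.1, Int.natAbs_neg]
  · rw [if_neg h, if_neg (fun h' => h ⟨h1.1 h'.1, h2.1 h'.2⟩)]

private theorem ap3_refl (M v D : ℕ) (n₀ : ℤ) (J : ℕ) (k : ℤ) :
    ∑ i ∈ range J, gg M v n₀ (-(k + D * ((J : ℤ) - 1)) + D * i) =
      ∑ i ∈ range J, gg M v (-n₀) (k + D * i) := by
  rw [← Finset.sum_range_reflect]
  refine Finset.sum_congr rfl fun i hi => ?_
  have hi' := Finset.mem_range.1 hi
  rw [← ap3_neg]
  congr 1
  have : ((J - 1 - i : ℕ) : ℤ) = (J : ℤ) - 1 - i := by omega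
  rw [this]
  ring

/-- A3. Two sided version. -/
theorem ap3 (M v D : ℕ) (hM : 0 < M) (hv : 0 < v) (hD : 0 < D) (n₀ : ℤ) (ε : ℝ) (hε : 0 < ε) :
    ∃ J₀ : ℕ, ∀ J : ℕ, J₀ ≤ J → ∃ N₀ : ℕ, ∀ N : ℕ, N₀ ≤ N →
      ∑ m ∈ Icc (-(N : ℤ)) N, |∑ i ∈ range J, gg M v n₀ (m + D * i)| ≤ ε * N * J := by
  obtain ⟨Ja, ha⟩ := ap2 M v D hM hv hD n₀ (ε / 8) (by positivity)
  obtain ⟨Jb, hb⟩ := ap2 M v D hM hv hD (-n₀) (ε / 8) (by positivity)
  refine ⟨max (max Ja Jb) 1, fun J hJ => ?_⟩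
  have hJa : Ja ≤ J := le_trans (le_trans (le_max_left _ _) (le_max_left _ _)) hJ
  have hJb : Jb ≤ J := le_trans (le_trans (le_max_right _ _) (le_max_left _ _)) hJ
  have hJ1 : 1 ≤ J := le_trans (le_max_right _ _) hJ
  obtain ⟨Na, hNa⟩ := ha J hJa
  obtain ⟨Nb, hNb⟩ := hb J hJb
  obtain ⟨Nc, hNc⟩ := exists_nat_ge (2 * (D : ℝ) * J / ε)
  refine ⟨max (max Na Nb) (max Nc 1), fun N hN => ?_⟩
  have h1 : Na ≤ N := le_trans (le_trans (le_max_left _ _) (le_max_left _ _)) hN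
  have h2 : Nb ≤ N := le_trans (le_trans (le_max_right _ _) (le_max_left _ _)) hN
  have h3 : Nc ≤ N := le_trans (le_trans (le_max_left _ _) (le_max_right _ _)) hN
  have h4 : 1 ≤ N := le_trans (le_trans (le_max_right _ _) (le_max_right _ _)) hN
  set T : ℤ → ℝ := fun m => |∑ i ∈ range J, gg M v n₀ (m + D * i)| with hT
  have hT0 : ∀ m, 0 ≤ T m := fun m => abs_nonneg _
  have hTJ : ∀ m, T m ≤ J := by
    intro m
    refine (Finset.abs_sum_le_sum_abs _ _).trans ?_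
    refine (Finset.sum_le_sum fun i _ => ap3_gg_le M v n₀ _).trans ?_
    simp
  set A : Finset ℤ := (range (N + 1)).image (fun k : ℕ => (k : ℤ)) with hA
  set B : Finset ℤ := (range (N + 1)).image (fun k : ℕ => -((k : ℤ) + D * ((J : ℤ) - 1))) with hB
  set C : Finset ℤ := Ioo (-((D : ℤ) * J)) 0 with hC
  have hsub : Icc (-(N : ℤ)) N ⊆ A ∪ (B ∪ C) := by
    intro m hm
    rw [Finset.mem_Icc] at hm
    rw [Finset.mem_union, Finset.mem_union]
    by_cases hm0 : 0 ≤ m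
    · refine Or.inl (Finset.mem_image.2 ⟨m.toNat, Finset.mem_range.2 ?_, ?_⟩)
      · omega
      · omega
    · push Not at hm0
      by_cases hm1 : m ≤ -((D : ℤ) * ((J : ℤ) - 1))
      · refine Or.inr (Or.inl (Finset.mem_image.2
          ⟨(-m - (D : ℤ) * ((J : ℤ) - 1)).toNat, Finset.mem_range.2 ?_, ?_⟩))
        · have hx : 0 ≤ (D : ℤ) * ((J : ℤ) - 1) := mul_nonneg (by positivity) (by omega)
          omega
        · have hx : 0 ≤ -m - (D : ℤ) * ((J : ℤ) - 1) := by omega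
          show -(((-m - (D : ℤ) * ((J : ℤ) - 1)).toNat : ℤ) + D * ((J : ℤ) - 1)) = m
          rw [Int.toNat_of_nonneg hx]
          ring
      · push Not at hm1
        refine Or.inr (Or.inr (Finset.mem_Ioo.2 ⟨?_, hm0⟩))
        have hx : -((D : ℤ) * J) ≤ -((D : ℤ) * ((J : ℤ) - 1)) := by nlinarith
        omega
  have hunion : ∀ s t : Finset ℤ, ∑ m ∈ s ∪ t, T m ≤ ∑ m ∈ s, T m + ∑ m ∈ t, T m := by
    intro s t
    have := Finset.sum_union_inter (s₁ := s) (s₂ := t) (f := T)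
    have h0 : 0 ≤ ∑ m ∈ s ∩ t, T m := Finset.sum_nonneg fun m _ => hT0 m
    linarith
  have hAs : ∑ m ∈ A, T m ≤ ε / 8 * ((N : ℝ) + 1) * J := by
    rw [hA, Finset.sum_image (fun a _ b _ h => by exact_mod_cast h)]
    have := hNa (N + 1) (by omega)
    push_cast at this
    exact this
  have hBs : ∑ m ∈ B, T m ≤ ε / 8 * ((N : ℝ) + 1) * J := by
    rw [hB, Finset.sum_image (fun a _ b _ h => by
      have h' : -((a : ℤ) + D * ((J : ℤ) - 1)) = -((b : ℤ) + D * ((J : ℤ) - 1)) := h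
      omega)]
    have := hNb (N + 1) (by omega)
    push_cast at this
    refine le_trans (le_of_eq ?_) this
    refine Finset.sum_congr rfl fun k _ => ?_
    show |∑ i ∈ range J, gg M v n₀ (-((k : ℤ) + D * ((J : ℤ) - 1)) + D * i)| = _
    rw [ap3_refl]
  have hCs : ∑ m ∈ C, T m ≤ (D : ℝ) * J * J := by
    refine (Finset.sum_le_sum fun m _ => hTJ m).trans ?_
    rw [Finset.sum_const, nsmul_eq_mul, hC, Int.card_Ioo]
    have hx : ((0 - -((D : ℤ) * J) - 1).toNat : ℝ) ≤ (D : ℝ) * J := by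
      have : (0 - -((D : ℤ) * J) - 1).toNat ≤ D * J := by
        rw [Int.toNat_le]
        push_cast
        omega
      exact_mod_cast this
    exact mul_le_mul_of_nonneg_right hx (by positivity)
  have hall : ∑ m ∈ Icc (-(N : ℤ)) N, T m ≤
      ε / 8 * ((N : ℝ) + 1) * J + (ε / 8 * ((N : ℝ) + 1) * J + (D : ℝ) * J * J) :=
    calc ∑ m ∈ Icc (-(N : ℤ)) N, T m ≤ ∑ m ∈ A ∪ (B ∪ C), T m :=
          Finset.sum_le_sum_of_subset_of_nonneg hsub fun m _ _ => hT0 m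
      _ ≤ ∑ m ∈ A, T m + ∑ m ∈ B ∪ C, T m := hunion _ _
      _ ≤ ∑ m ∈ A, T m + (∑ m ∈ B, T m + ∑ m ∈ C, T m) := by
          have := hunion B C
          linarith
      _ ≤ _ := by linarith
  have hN1 : (1 : ℝ) ≤ N := by exact_mod_cast h4
  have hJ0 : (0 : ℝ) ≤ J := by positivity
  have hNr : 2 * (D : ℝ) * J ≤ ε * N := by
    have h5 : 2 * (D : ℝ) * J / ε ≤ N := hNc.trans (by exact_mod_cast h3)
    rw [div_le_iff₀ hε] at h5
    linarith
  have h6 : (D : ℝ) * J * J ≤ ε * N * J / 2 := by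
    have := mul_le_mul_of_nonneg_right hNr hJ0
    linarith
  have h7 : ε / 8 * ((N : ℝ) + 1) * J ≤ ε * N * J / 4 := by
    have : 0 ≤ ε * J * ((N : ℝ) - 1) := by
      apply mul_nonneg (mul_nonneg hε.le hJ0)
      linarith
    nlinarith
  show ∑ m ∈ Icc (-(N : ℤ)) N, T m ≤ ε * N * J
  linarith
-- END ap3

-- BEGIN vdc
private theorem vdc_shift (x : ℤ → ℝ) (R : ℤ) (H : ℕ) (hx : ∀ r, r ∉ Ioc R (R + H) → x r = 0)
    (K : ℕ) (k : ℕ) (hk : k < K) :
    ∑ s ∈ Ioc (R - K) (R + H), x (s + k) = ∑ r ∈ Ioc R (R + H), x r := by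
  have h1 : ∑ s ∈ Ioc (R - K) (R + H), x (s + k) =
      ∑ r ∈ Ioc (R - K + k) (R + H + k), x r := by
    rw [← Finset.map_add_right_Ioc, Finset.sum_map]
    rfl
  rw [h1]
  symm
  apply Finset.sum_subset
  · intro r hr
    rw [Finset.mem_Ioc] at hr ⊢
    omega
  · intro r _ hr
    exact hx r hr

private theorem vdc_sum (c : ℕ → ℝ) (d : ℕ → ℕ → ℝ) (K₀ : ℕ) (hd : ∀ k k', k ≤ k' → k' < K₀ →
    d k k' = c (k' - k)) (hs : ∀ k k', d k k' = d k' k) : ∀ K : ℕ, K ≤ K₀ →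
    ∑ k ∈ range K, ∑ k' ∈ range K, d k k' = K * c 0 + 2 * ∑ h ∈ Ico 1 K, ((K : ℝ) - h) * c h := by
  intro K
  induction K with
  | zero => intro _; simp
  | succ K ih =>
    intro hK
    have ih' := ih (by omega)
    have h1 : ∑ k ∈ range (K + 1), ∑ k' ∈ range (K + 1), d k k' =
        ∑ k ∈ range K, ∑ k' ∈ range K, d k k' + 2 * ∑ k ∈ range K, d k K + d K K := by
      rw [Finset.sum_range_succ]
      have h2 : ∀ k ∈ range K, ∑ k' ∈ range (K + 1), d k k' = ∑ k' ∈ range K, d k k' + d k K :=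
        fun k _ => Finset.sum_range_succ _ _
      rw [Finset.sum_congr rfl h2, Finset.sum_add_distrib, Finset.sum_range_succ]
      have h3 : ∑ k' ∈ range K, d K k' = ∑ k ∈ range K, d k K :=
        Finset.sum_congr rfl fun k _ => hs _ _
      rw [h3]
      ring
    have h4 : ∑ k ∈ range K, d k K = ∑ h ∈ Ico 1 (K + 1), c h := by
      rw [Finset.sum_Ico_eq_sum_range, ← Finset.sum_range_reflect]
      refine Finset.sum_congr (by simp) fun k hk => ?_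
      have hk' : k < K := by simpa using hk
      rw [hd _ _ (by omega) (by omega)]
      congr 1
      omega
    have h5 : d K K = c 0 := by
      rw [hd K K le_rfl (by omega), Nat.sub_self]
    have h6 : ∑ h ∈ Ico 1 K, ((K : ℝ) - h) * c h = ∑ h ∈ Ico 1 (K + 1), ((K : ℝ) - h) * c h := by
      rcases Nat.eq_zero_or_pos K with h0 | h0
      · subst h0; simp
      · rw [Finset.sum_Ico_succ_top (by omega)]
        simp
    rw [h1, ih', h4, h5, h6]
    push_cast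
    have h7 : ∑ h ∈ Ico 1 (K + 1), ((K : ℝ) + 1 - h) * c h =
        ∑ h ∈ Ico 1 (K + 1), ((K : ℝ) - h) * c h + ∑ h ∈ Ico 1 (K + 1), c h := by
      rw [← Finset.sum_add_distrib]
      refine Finset.sum_congr rfl fun h _ => ?_
      ring
    rw [h7]
    ring

/-- A4. Van der Corput's inequality. -/
theorem vdc (R : ℤ) (H K : ℕ) (x : ℤ → ℝ) (hx : ∀ r, r ∉ Ioc R (R + H) → x r = 0) :
    (K : ℝ) ^ 2 * (∑ r ∈ Ioc R (R + H), x r) ^ 2 ≤
      (H + K) * (K * ∑ r ∈ Ioc R (R + H), x r ^ 2 +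
        2 * ∑ h ∈ Ico 1 K, ((K : ℝ) - h) * ∑ r ∈ Ioc R (R + H), x r * x (r + h)) := by
  set I := Ioc (R - K) (R + H) with hI
  have h1 : (K : ℝ) * ∑ r ∈ Ioc R (R + H), x r = ∑ s ∈ I, ∑ k ∈ range K, x (s + k) := by
    rw [Finset.sum_comm]
    rw [Finset.sum_congr rfl fun k hk => vdc_shift x R H hx K k (Finset.mem_range.1 hk)]
    simp
  have h2 : ∑ s ∈ I, (∑ k ∈ range K, x (s + k)) ^ 2 =
      ∑ k ∈ range K, ∑ k' ∈ range K, ∑ s ∈ I, x (s + k) * x (s + k') := by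
    calc ∑ s ∈ I, (∑ k ∈ range K, x (s + k)) ^ 2
        = ∑ s ∈ I, ∑ k ∈ range K, ∑ k' ∈ range K, x (s + k) * x (s + k') := by
          refine Finset.sum_congr rfl fun s _ => ?_
          rw [sq, Finset.sum_mul_sum]
      _ = ∑ k ∈ range K, ∑ s ∈ I, ∑ k' ∈ range K, x (s + k) * x (s + k') := Finset.sum_comm
      _ = _ := Finset.sum_congr rfl fun k _ => Finset.sum_comm
  have h3 := vdc_sum (fun h : ℕ => ∑ r ∈ Ioc R (R + H), x r * x (r + h))
    (fun k k' => ∑ s ∈ I, x (s + k) * x (s + k')) K (by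
      intro k k' hkk hk'
      have := vdc_shift (fun r => x r * x (r + ((k' - k : ℕ) : ℤ))) R H (fun r hr => by
        show x r * _ = 0
        rw [hx r hr, zero_mul]) K k (by omega)
      show ∑ s ∈ I, x (s + k) * x (s + k') = ∑ r ∈ Ioc R (R + H), x r * x (r + ((k' - k : ℕ) : ℤ))
      rw [← this]
      refine Finset.sum_congr rfl fun s _ => ?_
      show x (s + k) * x (s + k') = x (s + k) * x (s + k + ((k' - k : ℕ) : ℤ))
      have h4 : s + (k : ℤ) + ((k' - k : ℕ) : ℤ) = s + k' := by omega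
      rw [h4]) (by
      intro k k'
      exact Finset.sum_congr rfl fun s _ => mul_comm _ _) K le_rfl
  have hcard : (I.card : ℝ) = H + K := by
    rw [hI, Int.card_Ioc]
    have : (R + (H : ℤ) - (R - K)).toNat = H + K := by omega
    rw [this]
    push_cast
    ring
  have h5 := sq_sum_le_card_mul_sum_sq (s := I) (f := fun s => ∑ k ∈ range K, x (s + k))
  rw [← h1, h2, h3, hcard, mul_pow] at h5
  refine h5.trans (le_of_eq ?_)
  congr 2
  · congr 1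
    refine Finset.sum_congr rfl fun r _ => ?_
    simp [sq]
-- END vdc

/-- the terms of the inner sums -/
noncomputable def yy (M v : ℕ) (n₀ r₀ R : ℤ) (H : ℕ) (b r : ℤ) : ℝ :=
  if r ∈ Ioc R (R + H) ∧ (M : ℤ) ∣ r - r₀ then gg M v n₀ (4 * b - 9 * r ^ 2) else 0

-- BEGIN corr
private theorem corr_gg_le (M u : ℕ) (n₀ n : ℤ) : |gg M u n₀ n| ≤ 1 := by
  unfold gg
  split_ifs
  · unfold mob
    rw [← Int.cast_abs]
    exact_mod_cast ArithmeticFunction.abs_moebius_le_one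
  · rw [abs_zero]
    exact zero_le_one

private theorem corr_tel (χ : ℤ → ℝ) (B₁ B₂ : ℤ) (h : B₁ ≤ B₂) :
    ∑ b ∈ Ioc B₁ B₂, χ (b - 1) - ∑ b ∈ Ioc B₁ B₂, χ b = χ B₁ - χ B₂ := by
  obtain ⟨n, rfl⟩ : ∃ n : ℕ, B₂ = B₁ + n := ⟨(B₂ - B₁).toNat, by omega⟩
  clear h
  induction n with
  | zero => simp
  | succ n ih =>
    have h1 : Ioc B₁ (B₁ + (n + 1 : ℕ)) = insert (B₁ + (n + 1 : ℕ)) (Ioc B₁ (B₁ + n)) := by
      ext x
      simp only [mem_Ioc, mem_insert]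
      omega
    have h2 : B₁ + ((n + 1 : ℕ) : ℤ) ∉ Ioc B₁ (B₁ + (n : ℤ)) := by
      rw [mem_Ioc]
      omega
    rw [h1, sum_insert h2, sum_insert h2,
      show (B₁ + ((n + 1 : ℕ) : ℤ) - 1 : ℤ) = B₁ + n by push_cast; ring]
    linarith

private theorem corr_shift (φ : ℤ → ℝ) (hφ : ∀ b, |φ b| ≤ 1) (B₁ B₂ : ℤ) (s : ℤ) :
    |∑ b ∈ Ioc B₁ B₂, φ (b - s) - ∑ b ∈ Ioc B₁ B₂, φ b| ≤ 2 * |(s : ℝ)| := by
  have key : ∀ (ψ : ℤ → ℝ), (∀ b, |ψ b| ≤ 1) → ∀ t : ℕ,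
      |∑ b ∈ Ioc B₁ B₂, ψ (b - t) - ∑ b ∈ Ioc B₁ B₂, ψ b| ≤ 2 * (t : ℝ) := by
    intro ψ hψ t
    induction t with
    | zero => simp
    | succ t ih =>
      have h1 : |∑ b ∈ Ioc B₁ B₂, ψ (b - (t + 1 : ℕ)) - ∑ b ∈ Ioc B₁ B₂, ψ (b - t)| ≤ 2 := by
        rcases le_or_gt B₂ B₁ with h | h
        · rw [Ioc_eq_empty_of_le h]
          simp
        · have h2 := corr_tel (fun b => ψ (b - t)) B₁ B₂ h.le
          have h3 : ∑ b ∈ Ioc B₁ B₂, ψ (b - (t + 1 : ℕ)) = ∑ b ∈ Ioc B₁ B₂, ψ (b - 1 - t) := by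
            refine sum_congr rfl fun b _ => ?_
            rw [show (b - ((t + 1 : ℕ) : ℤ) : ℤ) = b - 1 - t by push_cast; ring]
          rw [h3, h2]
          have h4 := abs_le.1 (hψ (B₁ - t))
          have h5 := abs_le.1 (hψ (B₂ - t))
          rw [abs_le]
          constructor <;> linarith
      push_cast at h1 ih ⊢
      have h2 := abs_le.1 h1
      have h3 := abs_le.1 ih
      rw [abs_le]
      constructor <;> linarith
  rcases Int.eq_nat_or_neg s with ⟨t, rfl | rfl⟩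
  · have := key φ hφ t
    simpa using this
  · have h1 := key (fun b => φ (b + t)) (fun b => hφ _) t
    simp only [sub_add_cancel] at h1
    rw [abs_sub_comm] at h1
    simpa using h1

private theorem corr_ap (q : ℕ) (G : ℤ → ℝ) (R : ℤ) (J : ℕ) :
    ∑ r ∈ Ioc R (R + (q * J : ℕ)), G r =
      ∑ ρ ∈ Ioc R (R + q), ∑ i ∈ range J, G (ρ + (q * i : ℕ)) := by
  induction J with
  | zero => simp
  | succ J ih =>
    simp only [sum_range_succ, sum_add_distrib]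
    rw [← ih]
    have h1 : Ioc R (R + (q * (J + 1) : ℕ)) =
        Ioc R (R + (q * J : ℕ)) ∪ Ioc (R + (q * J : ℕ)) (R + (q * (J + 1) : ℕ)) := by
      rw [Ioc_union_Ioc_eq_Ioc]
      · omega
      · rw [Nat.mul_succ]
        omega
    rw [h1, sum_union (Ioc_disjoint_Ioc_of_le le_rfl)]
    congr 1
    refine sum_nbij' (fun r => r - (q * J : ℕ)) (fun r => r + (q * J : ℕ)) ?_ ?_ ?_ ?_ ?_
    · intro r hr
      rw [Nat.mul_succ] at hr
      simp only [mem_Ioc] at hr ⊢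
      omega
    · intro r hr
      rw [Nat.mul_succ]
      simp only [mem_Ioc] at hr ⊢
      omega
    · intro r _
      ring
    · intro r _
      ring
    · intro r _
      congr 1
      ring

private theorem corr_card (B₁ B₂ : ℤ) (X : ℝ) (h₁ : |(B₁ : ℝ)| ≤ X) (h₂ : |(B₂ : ℝ)| ≤ X) :
    ((Ioc B₁ B₂).card : ℝ) ≤ 2 * X := by
  have h3 := abs_le.1 h₁
  have h4 := abs_le.1 h₂
  rw [Int.card_Ioc]
  rcases le_total B₂ B₁ with h | h
  · rw [Int.toNat_of_nonpos (by omega)]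
    push_cast
    linarith [abs_nonneg (B₁ : ℝ)]
  · have h5 : (((B₂ - B₁).toNat : ℕ) : ℝ) = (B₂ : ℝ) - B₁ := by
      have h6 : (((B₂ - B₁).toNat : ℕ) : ℤ) = B₂ - B₁ := Int.toNat_of_nonneg (by omega)
      have h7 : (((B₂ - B₁).toNat : ℤ) : ℝ) = ((B₂ - B₁ : ℤ) : ℝ) := by rw [h6]
      push_cast at h7
      exact_mod_cast h7
    rw [h5]
    linarith

/-- the bound for one residue class -/
private theorem corr_class (M v : ℕ) (n₀ r₀ R : ℤ) (H h J : ℕ) (hJ : h + 2 * M * J ≤ H) (B₁ B₂ ρ : ℤ)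
    (hρ : ρ ∈ Ioc R (R + (2 * M : ℕ))) (N' : ℕ) (X E : ℝ)
    (hN' : ∀ b ∈ Ioc B₁ B₂, |(4 * b - 9 * ρ ^ 2 - 9 * h ^ 2 - 18 * h * ρ - 36 * h * M * (J - 1 : ℤ))| ≤ (N' : ℤ))
    (hX : ∑ m ∈ Icc (-(N' : ℤ)) N', |∑ i ∈ range J, gg M v n₀ (m + (36 * h * M : ℕ) * i)| ≤ X)
    (hE : ∀ i < J, |((9 * (M * ρ * i + M ^ 2 * i ^ 2) : ℤ) : ℝ)| ≤ E) :
    |∑ i ∈ range J, ∑ b ∈ Ioc B₁ B₂, yy M v n₀ r₀ R H b (ρ + (2 * M * i : ℕ)) *
      yy M v n₀ r₀ R H b (ρ + (2 * M * i : ℕ) + h)| ≤ X + J * (2 * E) := by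
  classical
  have hX0 : 0 ≤ X := le_trans (sum_nonneg fun _ _ => abs_nonneg _) hX
  by_cases hdiv : (M : ℤ) ∣ ρ - r₀ ∧ (M : ℤ) ∣ ρ + h - r₀
  swap
  · -- all terms vanish
    have h0 : ∀ i ∈ range J, ∑ b ∈ Ioc B₁ B₂, yy M v n₀ r₀ R H b (ρ + (2 * M * i : ℕ)) *
        yy M v n₀ r₀ R H b (ρ + (2 * M * i : ℕ) + h) = 0 := by
      intro i _
      refine sum_eq_zero fun b _ => ?_
      rw [not_and_or] at hdiv
      rcases hdiv with h1 | h1
      · have h2 : ¬ (M : ℤ) ∣ ρ + (2 * M * i : ℕ) - r₀ := by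
          intro h3
          apply h1
          have h4 : ρ - r₀ = (ρ + (2 * M * i : ℕ) - r₀) - M * (2 * i) := by push_cast; ring
          rw [h4]
          exact dvd_sub h3 (Dvd.intro _ rfl)
        rw [yy, if_neg (fun h3 => h2 h3.2), zero_mul]
      · have h2 : ¬ (M : ℤ) ∣ ρ + (2 * M * i : ℕ) + h - r₀ := by
          intro h3
          apply h1
          have h4 : ρ + h - r₀ = (ρ + (2 * M * i : ℕ) + h - r₀) - M * (2 * i) := by push_cast; ring
          rw [h4]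
          exact dvd_sub h3 (Dvd.intro _ rfl)
        rw [mul_comm, yy, if_neg (fun h3 => h2 h3.2), zero_mul]
    rw [sum_eq_zero h0, abs_zero]
    rcases Nat.eq_zero_or_pos J with h1 | h1
    · rw [h1]
      push_cast
      linarith
    · have h2 : 0 ≤ E := le_trans (abs_nonneg _) (hE 0 h1)
      positivity
  · -- the shifted terms
    set φ : ℕ → ℤ → ℝ := fun i b => gg M v n₀ (4 * b - 9 * ρ ^ 2) *
      gg M v n₀ (4 * b - 9 * ρ ^ 2 - 9 * h ^ 2 - 18 * h * ρ - 36 * h * M * i) with hφ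
    have hφ1 : ∀ i b, |φ i b| ≤ 1 := by
      intro i b
      rw [hφ]
      beta_reduce
      rw [abs_mul]
      exact mul_le_one₀ (corr_gg_le _ _ _ _) (abs_nonneg _) (corr_gg_le _ _ _ _)
    have hterm : ∀ i ∈ range J, ∀ b, yy M v n₀ r₀ R H b (ρ + (2 * M * i : ℕ)) *
        yy M v n₀ r₀ R H b (ρ + (2 * M * i : ℕ) + h) =
        φ i (b - (9 * (M * ρ * i + M ^ 2 * i ^ 2))) := by
      intro i hi b
      rw [mem_range] at hi
      have hi' : 2 * M * i + 2 * M ≤ 2 * M * J := by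
        rw [← Nat.mul_succ]
        exact Nat.mul_le_mul_left _ hi
      rw [mem_Ioc] at hρ
      have h1 : ρ + (2 * M * i : ℕ) ∈ Ioc R (R + H) := by
        rw [mem_Ioc]
        omega
      have h2 : ρ + (2 * M * i : ℕ) + h ∈ Ioc R (R + H) := by
        rw [mem_Ioc]
        omega
      have h3 : (M : ℤ) ∣ ρ + (2 * M * i : ℕ) - r₀ := by
        have h4 : ρ + (2 * M * i : ℕ) - r₀ = (ρ - r₀) + M * (2 * i) := by push_cast; ring
        rw [h4]
        exact dvd_add hdiv.1 (Dvd.intro _ rfl)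
      have h4 : (M : ℤ) ∣ ρ + (2 * M * i : ℕ) + h - r₀ := by
        have h5 : ρ + (2 * M * i : ℕ) + h - r₀ = (ρ + h - r₀) + M * (2 * i) := by push_cast; ring
        rw [h5]
        exact dvd_add hdiv.2 (Dvd.intro _ rfl)
      rw [yy, if_pos ⟨h1, h3⟩, yy, if_pos ⟨h2, h4⟩, hφ]
      beta_reduce
      congr 2
      · push_cast
        ring
      · push_cast
        ring
    have h1 : ∀ i ∈ range J, |∑ b ∈ Ioc B₁ B₂, yy M v n₀ r₀ R H b (ρ + (2 * M * i : ℕ)) *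
        yy M v n₀ r₀ R H b (ρ + (2 * M * i : ℕ) + h) - ∑ b ∈ Ioc B₁ B₂, φ i b| ≤ 2 * E := by
      intro i hi
      rw [sum_congr rfl fun b _ => hterm i hi b]
      refine (corr_shift (φ i) (hφ1 i) B₁ B₂ _).trans ?_
      have := hE i (mem_range.1 hi)
      linarith
    have h2 : |∑ i ∈ range J, ∑ b ∈ Ioc B₁ B₂, φ i b| ≤ X := by
      rw [sum_comm]
      refine le_trans ?_ hX
      refine le_trans (abs_sum_le_sum_abs _ _) ?_
      set F : ℤ → ℤ := fun b => 4 * b - 9 * ρ ^ 2 - 9 * h ^ 2 - 18 * h * ρ - 36 * h * M * (J - 1 : ℤ)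
        with hF
      have hFinj : Set.InjOn F (Ioc B₁ B₂ : Finset ℤ) := by
        intro x _ y _ hxy
        rw [hF] at hxy
        beta_reduce at hxy
        linarith
      have h3 : ∀ b ∈ Ioc B₁ B₂, |∑ i ∈ range J, φ i b| ≤
          |∑ i ∈ range J, gg M v n₀ (F b + (36 * h * M : ℕ) * i)| := by
        intro b _
        have h4 : ∑ i ∈ range J, φ i b = gg M v n₀ (4 * b - 9 * ρ ^ 2) *
            ∑ i ∈ range J, gg M v n₀ (F b + (36 * h * M : ℕ) * i) := by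
          rw [← sum_range_reflect (fun i => gg M v n₀ (F b + (36 * h * M : ℕ) * (i : ℤ))), mul_sum]
          refine sum_congr rfl fun i hi => ?_
          rw [mem_range] at hi
          rw [hφ, hF]
          beta_reduce
          congr 2
          rw [show ((J - 1 - i : ℕ) : ℤ) = (J : ℤ) - 1 - i by omega]
          push_cast
          ring
        rw [h4, abs_mul]
        exact mul_le_of_le_one_left (abs_nonneg _) (corr_gg_le _ _ _ _)
      refine (sum_le_sum h3).trans ?_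
      rw [← sum_image (f := fun m => |∑ i ∈ range J, gg M v n₀ (m + (36 * h * M : ℕ) * i)|)
        hFinj]
      refine sum_le_sum_of_subset_of_nonneg ?_ fun _ _ _ => abs_nonneg _
      intro m hm
      rw [mem_image] at hm
      obtain ⟨b, hb, rfl⟩ := hm
      rw [mem_Icc]
      exact abs_le.1 (hN' b hb)
    have h3 : |∑ i ∈ range J, ∑ b ∈ Ioc B₁ B₂, yy M v n₀ r₀ R H b (ρ + (2 * M * i : ℕ)) *
        yy M v n₀ r₀ R H b (ρ + (2 * M * i : ℕ) + h) -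
        ∑ i ∈ range J, ∑ b ∈ Ioc B₁ B₂, φ i b| ≤ J * (2 * E) := by
      rw [← sum_sub_distrib]
      refine (abs_sum_le_sum_abs _ _).trans ((sum_le_sum h1).trans ?_)
      rw [sum_const, card_range, nsmul_eq_mul]
    have h4 := abs_le.1 h2
    have h5 := abs_le.1 h3
    rw [abs_le]
    constructor <;> linarith

/-- A5. Correlations. Put `n = 4b - 9r²`; then `4b - 9(r+h)² = n - 9h² - 18hr`. For each `r` the `n` run through the interval
`(4B₁ - 9r², 4B₂ - 9r²]`, `n = -9r² mod 4`. Replace it by `(4B₁ - 9R², 4B₂ - 9R²]`: at most `18 (2|R|H + H²)` values of `n` change for each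
`r`. Now `n` is outside, and `r` runs through some residue classes mod `2M` (`M ∣ r - r₀`, `M ∣ r + h - r₀`, parity given by `n mod 4`) in
`(R, R + H - h]`: `r = R + 1 + ρ + 2 M i`, `ρ < 2M`; the arguments `n - 9h² - 18hr` form a progression of difference `36hM` (backwards);
`ap3` with `J = (H - h) / (2M)` (or one more), for each `ρ`. `|R| ≤ √(C N)`, `|n| ≤ 13 (C + 1) N` and the shifts are smaller. -/
theorem corr (M v : ℕ) (hM : 0 < M) (hv : 0 < v) (n₀ r₀ : ℤ) (C : ℝ) (hC : 0 < C) (h : ℕ) (hh : 0 < h) (ε : ℝ) (hε : 0 < ε) :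
    ∃ H₀ : ℕ, ∀ H : ℕ, H₀ ≤ H → ∃ N₀ : ℕ, ∀ N : ℕ, N₀ ≤ N → ∀ R B₁ B₂ : ℤ, (R : ℝ) ^ 2 ≤ C * N →
      |(B₁ : ℝ)| ≤ C * N → |(B₂ : ℝ)| ≤ C * N →
      |∑ b ∈ Ioc B₁ B₂, ∑ r ∈ Ioc R (R + H), yy M v n₀ r₀ R H b r * yy M v n₀ r₀ R H b (r + h)| ≤ ε * H * N := by
  obtain ⟨C', hC'⟩ := exists_nat_ge (40 * C + 1)
  have hC'1 : (1 : ℝ) ≤ C' := by linarith
  have hC'0 : 1 ≤ C' := by exact_mod_cast hC'1
  have hMR : (0 : ℝ) < M := by exact_mod_cast hM
  have hhR : (0 : ℝ) < h := by exact_mod_cast hh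
  obtain ⟨J₀, hJ₀⟩ := ap3 M v (36 * h * M) hM hv (by positivity) n₀ (ε / (4 * C')) (by positivity)
  obtain ⟨H₁, hH₁⟩ := exists_nat_ge (8 * C * (h + 2 * M) / ε)
  refine ⟨max (h + 2 * M * (J₀ + 1)) H₁, fun H hH => ?_⟩
  have hHJ : h + 2 * M * (J₀ + 1) ≤ H := (le_max_left _ _).trans hH
  have hHH₁ : H₁ ≤ H := (le_max_right _ _).trans hH
  obtain ⟨J, hJ⟩ : ∃ J, J = (H - h) / (2 * M) := ⟨_, rfl⟩
  have hJJ₁ : J₀ + 1 ≤ J := by
    rw [hJ, Nat.le_div_iff_mul_le (by positivity), mul_comm]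
    omega
  have hJJ₀ : J₀ ≤ J := by omega
  have hJ1R : (1 : ℝ) ≤ J := by
    have h1 : 1 ≤ J := by omega
    exact_mod_cast h1
  have hJ1 : 2 * M * J ≤ H - h := by
    rw [hJ]
    exact Nat.mul_div_le _ _
  have hJle : h + 2 * M * J ≤ H := by omega
  have hJ2 : H - h < 2 * M * (J + 1) := by
    rw [hJ]
    exact Nat.lt_mul_div_succ _ (by positivity)
  have hJgt : H < h + 2 * M * J + 2 * M := by
    rw [Nat.mul_succ] at hJ2
    omega
  obtain ⟨N₁, hN₁⟩ := hJ₀ J hJJ₀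
  obtain ⟨N₂, hN₂⟩ := exists_nat_ge (144 * (M : ℝ) ^ 2 + 18 * (h : ℝ) ^ 2 + 18 * h * H)
  obtain ⟨N₃, hN₃⟩ := exists_nat_ge ((ε * (M : ℝ) ^ 2 / (4 * C) + 81 * 32 * C * (H : ℝ) ^ 2 / ε +
    18 * (H : ℝ) ^ 2) * (16 / (3 * ε)))
  refine ⟨max N₁ (max N₂ N₃), fun N hN R B₁ B₂ hR hB₁ hB₂ => ?_⟩
  have hNN₁ : N₁ ≤ N := (le_max_left _ _).trans hN
  have hNN₂ : N₂ ≤ N := ((le_max_left _ _).trans (le_max_right _ _)).trans hN
  have hNN₃ : N₃ ≤ N := ((le_max_right _ _).trans (le_max_right _ _)).trans hN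
  have hN0 : (0 : ℝ) ≤ N := Nat.cast_nonneg N
  have hH0 : (0 : ℝ) ≤ H := Nat.cast_nonneg H
  have hJ0 : (0 : ℝ) ≤ J := Nat.cast_nonneg J
  have hN₂' : 144 * (M : ℝ) ^ 2 + 18 * (h : ℝ) ^ 2 + 18 * h * H ≤ N := by
    refine hN₂.trans ?_
    exact_mod_cast hNN₂
  have hN₃' : (ε * (M : ℝ) ^ 2 / (4 * C) + 81 * 32 * C * (H : ℝ) ^ 2 / ε + 18 * (H : ℝ) ^ 2) ≤
      3 * ε / 16 * N := by
    have h1 : (N₃ : ℝ) ≤ N := by exact_mod_cast hNN₃
    have h2 := hN₃.trans h1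
    have h3 := mul_le_mul_of_nonneg_left h2 (show (0 : ℝ) ≤ 3 * ε / 16 by positivity)
    refine le_trans (le_of_eq ?_) h3
    field_simp
  -- the product is bounded by 1
  have hyy : ∀ b r, |yy M v n₀ r₀ R H b r| ≤ 1 := by
    intro b r
    unfold yy
    split_ifs
    · exact corr_gg_le _ _ _ _
    · rw [abs_zero]
      exact zero_le_one
  have hf : ∀ b r, |yy M v n₀ r₀ R H b r * yy M v n₀ r₀ R H b (r + h)| ≤ 1 := by
    intro b r
    rw [abs_mul]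
    exact mul_le_one₀ (hyy _ _) (abs_nonneg _) (hyy _ _)
  have hcard := corr_card B₁ B₂ (C * N) hB₁ hB₂
  have hF : ∀ r : ℤ, |∑ b ∈ Ioc B₁ B₂, yy M v n₀ r₀ R H b r * yy M v n₀ r₀ R H b (r + h)| ≤
      2 * (C * N) := by
    intro r
    refine (abs_sum_le_sum_abs _ _).trans ((sum_le_sum fun b _ => hf b r).trans ?_)
    rw [sum_const, nsmul_eq_mul, mul_one]
    exact hcard
  rw [sum_comm]
  have hsplit : Ioc R (R + (H : ℤ)) = Ioc R (R + (2 * M * J : ℕ)) ∪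
      Ioc (R + (2 * M * J : ℕ)) (R + (H : ℤ)) := by
    rw [Ioc_union_Ioc_eq_Ioc] <;> omega
  rw [hsplit, sum_union (Ioc_disjoint_Ioc_of_le le_rfl)]
  -- the last terms
  have hlast : |∑ r ∈ Ioc (R + ((2 * M * J : ℕ) : ℤ)) (R + (H : ℤ)), ∑ b ∈ Ioc B₁ B₂,
      yy M v n₀ r₀ R H b r * yy M v n₀ r₀ R H b (r + h)| ≤ ε / 4 * H * N := by
    refine (abs_sum_le_sum_abs _ _).trans ((sum_le_sum fun r _ => hF r).trans ?_)
    rw [sum_const, nsmul_eq_mul, Int.card_Ioc]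
    have h1 : ((R + (H : ℤ) - (R + ((2 * M * J : ℕ) : ℤ))).toNat : ℝ) ≤ h + 2 * M := by
      have h2 : (R + (H : ℤ) - (R + ((2 * M * J : ℕ) : ℤ))).toNat ≤ h + 2 * M := by omega
      exact_mod_cast h2
    have h2 : 8 * C * (h + 2 * M) / ε ≤ H := hH₁.trans (by exact_mod_cast hHH₁)
    rw [div_le_iff₀ hε] at h2
    calc ((R + (H : ℤ) - (R + ((2 * M * J : ℕ) : ℤ))).toNat : ℝ) * (2 * (C * N))
        ≤ (h + 2 * M) * (2 * (C * N)) := mul_le_mul_of_nonneg_right h1 (by positivity)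
      _ = (8 * C * (h + 2 * M)) / 4 * N := by ring
      _ ≤ (H * ε) / 4 * N := by
          refine mul_le_mul_of_nonneg_right ?_ hN0
          linarith
      _ = ε / 4 * H * N := by ring
  -- the main terms
  have hmain : |∑ r ∈ Ioc R (R + ((2 * M * J : ℕ) : ℤ)), ∑ b ∈ Ioc B₁ B₂,
      yy M v n₀ r₀ R H b r * yy M v n₀ r₀ R H b (r + h)| ≤ ε / 2 * H * N := by
    rw [corr_ap (2 * M) (fun r => ∑ b ∈ Ioc B₁ B₂,
      yy M v n₀ r₀ R H b r * yy M v n₀ r₀ R H b (r + h)) R J]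
    have hMJ : 2 * (M : ℝ) * J ≤ H := by
      have h1 : 2 * M * J ≤ H := by omega
      exact_mod_cast h1
    have hcl : ∀ ρ ∈ Ioc R (R + ((2 * M : ℕ) : ℤ)), |∑ i ∈ range J, ∑ b ∈ Ioc B₁ B₂,
        yy M v n₀ r₀ R H b (ρ + (2 * M * i : ℕ)) * yy M v n₀ r₀ R H b (ρ + (2 * M * i : ℕ) + h)| ≤
        ε / 2 * N * J := by
      intro ρ hρ
      have hρ' := mem_Ioc.1 hρ
      have hρR : (ρ : ℝ) ^ 2 ≤ 2 * (C * N) + 8 * (M : ℝ) ^ 2 := by
        obtain ⟨t, ht⟩ : ∃ t : ℤ, ρ = R + t := ⟨ρ - R, by ring⟩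
        have ht0 : 0 ≤ t := by omega
        have ht1 : t ≤ 2 * M := by push_cast at hρ'; omega
        have ht0' : (0 : ℝ) ≤ t := by exact_mod_cast ht0
        have ht1' : (t : ℝ) ≤ 2 * M := by exact_mod_cast ht1
        rw [ht]
        push_cast
        have h1 := sq_nonneg ((R : ℝ) - t)
        have h2 := mul_le_mul ht1' ht1' ht0' (by positivity : (0 : ℝ) ≤ 2 * M)
        linarith
      have hD : ((36 * h * M : ℕ) : ℝ) * J ≤ 18 * h * H := by
        push_cast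
        have h1 := mul_le_mul_of_nonneg_left hMJ hhR.le
        linarith
      have hcls := corr_class M v n₀ r₀ R H h J hJle B₁ B₂ ρ hρ (C' * N)
        (ε / (4 * C') * ((C' * N : ℕ) : ℝ) * J) (ε / 8 * N) ?_
        (hN₁ (C' * N) (hNN₁.trans (Nat.le_mul_of_pos_left N hC'0))) ?_
      · refine hcls.trans (le_of_eq ?_)
        push_cast
        field_simp
        ring
      · -- the range
        intro b hb
        rw [mem_Ioc] at hb
        have hb1 : |(b : ℝ)| ≤ C * N := by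
          have h1 := (abs_le.1 hB₁).1
          have h2 := (abs_le.1 hB₂).2
          have h3 : (B₁ : ℝ) < b := by exact_mod_cast hb.1
          have h4 : (b : ℝ) ≤ B₂ := by exact_mod_cast hb.2
          rw [abs_le]
          constructor <;> linarith
        have hcast : ((|(4 * b - 9 * ρ ^ 2 - 9 * h ^ 2 - 18 * h * ρ - 36 * h * M * (J - 1 : ℤ))| : ℤ)
            : ℝ) ≤ ((C' * N : ℕ) : ℤ) := by
          push_cast
          have h1 : (40 * C + 1) * N ≤ C' * (N : ℝ) := mul_le_mul_of_nonneg_right hC' hN0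
          have h2 := abs_le.1 hb1
          have h5 : 0 ≤ 36 * (h : ℝ) * M * (J - 1) := by
            have : (0 : ℝ) ≤ J - 1 := by linarith
            positivity
          have h6 : 36 * (h : ℝ) * M * (J - 1) ≤ 18 * h * H := by
            push_cast at hD
            have h7 : 0 ≤ 36 * (h : ℝ) * M := by positivity
            linarith
          have h7 : ∀ x y : ℝ, 0 ≤ 9 * x ^ 2 + 9 * y ^ 2 + 18 * y * x := fun x y => by
            have := sq_nonneg (x + y)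
            linarith
          have h8 : ∀ x y : ℝ, 9 * x ^ 2 + 9 * y ^ 2 + 18 * y * x ≤ 18 * x ^ 2 + 18 * y ^ 2 :=
            fun x y => by
              have := sq_nonneg (x - y)
              linarith
          have h9 := h7 ρ h
          have h10 := h8 ρ h
          rw [abs_le]
          constructor <;> linarith
        exact_mod_cast hcast
      · -- the shifts
        intro i hi
        have hi' : (i : ℝ) ≤ J := by exact_mod_cast hi.le
        have hi0 : (0 : ℝ) ≤ i := Nat.cast_nonneg i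
        have hMi : (M : ℝ) * i ≤ H / 2 := by
          have := mul_le_mul_of_nonneg_left hi' hMR.le
          linarith
        have hMi0 : 0 ≤ (M : ℝ) * i := by positivity
        push_cast
        set a := (M : ℝ) * i with ha
        have h1 : (9 * ((M : ℝ) * ρ * i + M ^ 2 * i ^ 2) : ℝ) = 9 * (ρ * a + a ^ 2) := by
          rw [ha]; ring
        rw [h1]
        have h2 : |9 * (ρ * a + a ^ 2)| ≤ 9 * (|(ρ : ℝ)| * (H / 2) + (H / 2) ^ 2) := by
          rw [abs_mul, abs_of_pos (by norm_num : (0 : ℝ) < 9)]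
          refine mul_le_mul_of_nonneg_left ?_ (by norm_num)
          refine (abs_add_le _ _).trans ?_
          rw [abs_mul, abs_of_nonneg hMi0, abs_of_nonneg (sq_nonneg a)]
          have h3 := mul_le_mul_of_nonneg_left hMi (abs_nonneg (ρ : ℝ))
          have h4 : a ^ 2 ≤ (H / 2) ^ 2 := pow_le_pow_left₀ hMi0 hMi 2
          linarith
        refine h2.trans ?_
        -- `18 |ρ| H ≤ t ρ² + 81 H² / t`
        have h3 : 18 * (|(ρ : ℝ)| * H) ≤ ε / (32 * C) * ρ ^ 2 + 81 * 32 * C * (H : ℝ) ^ 2 / ε := by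
          have h4 : 0 ≤ ε / (32 * C) * (|(ρ : ℝ)| - 9 * 32 * C * H / ε) ^ 2 := by positivity
          have h5 : ε / (32 * C) * (|(ρ : ℝ)| - 9 * 32 * C * H / ε) ^ 2 =
              ε / (32 * C) * |(ρ : ℝ)| ^ 2 + 81 * 32 * C * (H : ℝ) ^ 2 / ε -
                18 * (|(ρ : ℝ)| * H) := by
            field_simp
            ring
          rw [sq_abs] at h5
          linarith
        have h4 : ε / (32 * C) * (ρ : ℝ) ^ 2 ≤ ε / 16 * N + ε * (M : ℝ) ^ 2 / (4 * C) := by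
          calc ε / (32 * C) * (ρ : ℝ) ^ 2 ≤ ε / (32 * C) * (2 * (C * N) + 8 * (M : ℝ) ^ 2) :=
                mul_le_mul_of_nonneg_left hρR (by positivity)
            _ = ε / 16 * N + ε * (M : ℝ) ^ 2 / (4 * C) := by
                field_simp
                ring
        have h5 : 9 * (|(ρ : ℝ)| * (H / 2) + ((H : ℝ) / 2) ^ 2) =
            9 / 2 * (|(ρ : ℝ)| * H) + 9 / 4 * (H : ℝ) ^ 2 := by ring
        rw [h5]
        have h6 : 0 ≤ (H : ℝ) ^ 2 := by positivity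
        have h7 : 0 ≤ ε * N := by positivity
        linarith
    refine (abs_sum_le_sum_abs _ _).trans ((sum_le_sum hcl).trans ?_)
    rw [sum_const, nsmul_eq_mul, Int.card_Ioc]
    have h1 : ((R + ((2 * M : ℕ) : ℤ) - R).toNat : ℝ) = 2 * M := by
      have h2 : (R + ((2 * M : ℕ) : ℤ) - R).toNat = 2 * M := by omega
      rw [h2]
      push_cast
      rfl
    rw [h1]
    calc 2 * (M : ℝ) * (ε / 2 * N * J) = ε / 2 * N * (2 * M * J) := by ring
      _ ≤ ε / 2 * N * H := mul_le_mul_of_nonneg_left hMJ (by positivity)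
      _ = ε / 2 * H * N := by ring
  refine (abs_add_le _ _).trans ?_
  have h5 : 0 ≤ ε * H * N := by positivity
  linarith
-- END corr

-- BEGIN core
private theorem core_gg_le (M u : ℕ) (n₀ n : ℤ) : |gg M u n₀ n| ≤ 1 := by
  unfold gg
  split_ifs
  · unfold mob
    have h := @ArithmeticFunction.abs_moebius_le_one (n / (u : ℤ)).natAbs
    have h2 : |((ArithmeticFunction.moebius (n / (u : ℤ)).natAbs : ℤ) : ℝ)| =
        ((|ArithmeticFunction.moebius (n / (u : ℤ)).natAbs| : ℤ) : ℝ) := by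
      rw [Int.cast_abs]
    rw [h2]
    exact_mod_cast h
  · simp

private theorem core_yy_le (M v : ℕ) (n₀ r₀ R : ℤ) (H : ℕ) (b r : ℤ) :
    |yy M v n₀ r₀ R H b r| ≤ 1 := by
  unfold yy
  split_ifs
  · exact core_gg_le _ _ _ _
  · simp

/-- A6. Cauchy-Schwarz over `b` (`|gg| ≤ 1`), then `vdc` with `x = yy M v n₀ r₀ R H b`, `K` large, summed over `b`, and `corr` for
`0 < h < K`. Diagonal: `(H + K) K H (2CN) / K²`. -/
theorem core (M u v : ℕ) (hM : 0 < M) (hu : 0 < u) (hv : 0 < v) (b₀ n₀ r₀ : ℤ) (C : ℝ) (hC : 0 < C) (ε : ℝ) (hε : 0 < ε) :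
    ∃ H₀ : ℕ, ∀ H : ℕ, H₀ ≤ H → ∃ N₀ : ℕ, ∀ N : ℕ, N₀ ≤ N → ∀ R B₁ B₂ : ℤ, (R : ℝ) ^ 2 ≤ C * N →
      |(B₁ : ℝ)| ≤ C * N → |(B₂ : ℝ)| ≤ C * N →
      |∑ r ∈ Ioc R (R + H), ∑ b ∈ Ioc B₁ B₂, tm M u v b₀ n₀ r₀ r b| ≤ ε * H * N := by
  obtain ⟨K, hK⟩ := exists_nat_ge (16 * C ^ 2 / ε ^ 2 + 1)
  have hε2 : 0 < ε ^ 2 := by positivity
  have hK0 : (0 : ℝ) < K := by
    have : 0 < 16 * C ^ 2 / ε ^ 2 := by positivity
    linarith
  have hKε : 16 * C ^ 2 ≤ K * ε ^ 2 := by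
    have h1 : 16 * C ^ 2 / ε ^ 2 ≤ K := by linarith
    rwa [div_le_iff₀ hε2] at h1
  set δ : ℝ := ε ^ 2 / (16 * C) with hδdef
  have hδ : 0 < δ := by rw [hδdef]; positivity
  have hδC : 16 * C * δ = ε ^ 2 := by
    rw [hδdef]; field_simp
  choose H1 hH1 using fun h : ℕ => corr M v hM hv n₀ r₀ C hC (h + 1) (Nat.succ_pos h) δ hδ
  refine ⟨max K ((range K).sup H1), fun H hH => ?_⟩
  have hKH : K ≤ H := (le_max_left _ _).trans hH
  have hHsup : (range K).sup H1 ≤ H := (le_max_right _ _).trans hH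
  have hex : ∀ h : ℕ, ∃ N₀ : ℕ, h < K → ∀ N : ℕ, N₀ ≤ N → ∀ R B₁ B₂ : ℤ, (R : ℝ) ^ 2 ≤ C * N →
      |(B₁ : ℝ)| ≤ C * N → |(B₂ : ℝ)| ≤ C * N →
      |∑ b ∈ Ioc B₁ B₂, ∑ r ∈ Ioc R (R + H), yy M v n₀ r₀ R H b r *
        yy M v n₀ r₀ R H b (r + ((h + 1 : ℕ) : ℤ))| ≤ δ * H * N := by
    intro h
    by_cases hh : h < K
    · obtain ⟨N₀, hN₀⟩ := hH1 h H ((Finset.le_sup (f := H1) (mem_range.2 hh)).trans hHsup)
      exact ⟨N₀, fun _ => hN₀⟩
    · exact ⟨0, fun h2 => absurd h2 hh⟩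
  choose N1 hN1 using hex
  refine ⟨(range K).sup N1, fun N hN R B₁ B₂ hR hB₁ hB₂ => ?_⟩
  have hcorr : ∀ h ∈ Ico 1 K, |∑ b ∈ Ioc B₁ B₂, ∑ r ∈ Ioc R (R + H), yy M v n₀ r₀ R H b r *
        yy M v n₀ r₀ R H b (r + (h : ℤ))| ≤ δ * H * N := by
    intro h hh
    rw [mem_Ico] at hh
    obtain ⟨h', rfl⟩ : ∃ h', h = h' + 1 := ⟨h - 1, by omega⟩
    have hlt : h' < K := by omega
    exact hN1 h' hlt N ((Finset.le_sup (f := N1) (mem_range.2 hlt)).trans hN) R B₁ B₂ hR hB₁ hB₂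
  have hN0 : (0 : ℝ) ≤ N := Nat.cast_nonneg N
  have hH0 : (0 : ℝ) ≤ H := Nat.cast_nonneg H
  have hKH' : (K : ℝ) ≤ H := by exact_mod_cast hKH
  set s : ℤ → ℝ := fun b => ∑ r ∈ Ioc R (R + H), yy M v n₀ r₀ R H b r with hs
  have hcardR : ((Ioc R (R + H)).card : ℝ) = H := by
    rw [Int.card_Ioc]
    simp
  have hcardB : ((Ioc B₁ B₂).card : ℝ) ≤ 2 * C * N := by
    rw [Int.card_Ioc]
    have hCN : 0 ≤ C * N := by positivity
    by_cases hle : B₁ ≤ B₂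
    · have e1 : (((B₂ - B₁).toNat : ℕ) : ℝ) = (B₂ : ℝ) - B₁ := by
        have : (((B₂ - B₁).toNat : ℕ) : ℤ) = B₂ - B₁ := Int.toNat_of_nonneg (by omega)
        exact_mod_cast this
      rw [e1]
      have := (abs_le.1 hB₁).1
      have := (abs_le.1 hB₂).2
      linarith
    · have e1 : (B₂ - B₁).toNat = 0 := Int.toNat_of_nonpos (by omega)
      rw [e1]
      push_cast
      linarith
  -- the sum in terms of `s`
  have hS : ∑ r ∈ Ioc R (R + H), ∑ b ∈ Ioc B₁ B₂, tm M u v b₀ n₀ r₀ r b =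
      ∑ b ∈ Ioc B₁ B₂, gg M u b₀ b * s b := by
    rw [Finset.sum_comm]
    refine Finset.sum_congr rfl fun b _ => ?_
    rw [hs]
    simp only
    rw [Finset.mul_sum]
    refine Finset.sum_congr rfl fun r hr => ?_
    unfold tm yy
    by_cases hd : (M : ℤ) ∣ r - r₀
    · rw [if_pos hd, if_pos ⟨hr, hd⟩]
    · rw [if_neg hd, if_neg (fun h => hd h.2), mul_zero]
  have hSabs : |∑ b ∈ Ioc B₁ B₂, gg M u b₀ b * s b| ≤ ∑ b ∈ Ioc B₁ B₂, |s b| := by
    refine (Finset.abs_sum_le_sum_abs _ _).trans (Finset.sum_le_sum fun b _ => ?_)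
    rw [abs_mul]
    calc |gg M u b₀ b| * |s b| ≤ 1 * |s b| :=
          mul_le_mul_of_nonneg_right (core_gg_le _ _ _ _) (abs_nonneg _)
      _ = |s b| := one_mul _
  have hCS : (∑ b ∈ Ioc B₁ B₂, |s b|) ^ 2 ≤ (2 * C * N) * ∑ b ∈ Ioc B₁ B₂, s b ^ 2 := by
    have h1 := sq_sum_le_card_mul_sum_sq (s := Ioc B₁ B₂) (f := fun b => |s b|)
    simp only [sq_abs] at h1
    refine h1.trans (mul_le_mul_of_nonneg_right hcardB (Finset.sum_nonneg fun b _ => sq_nonneg _))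
  -- van der Corput, summed
  have hvdc : (K : ℝ) ^ 2 * ∑ b ∈ Ioc B₁ B₂, s b ^ 2 ≤
      (H + K) * (K * (2 * C * N * H) + 2 * (K * (K * (δ * H * N)))) := by
    have h1 : ∀ b ∈ Ioc B₁ B₂, (K : ℝ) ^ 2 * s b ^ 2 ≤
        (H + K) * (K * ∑ r ∈ Ioc R (R + H), yy M v n₀ r₀ R H b r ^ 2 +
          2 * ∑ h ∈ Ico 1 K, ((K : ℝ) - h) * ∑ r ∈ Ioc R (R + H), yy M v n₀ r₀ R H b r *
            yy M v n₀ r₀ R H b (r + h)) := by
      intro b _
      refine vdc R H K (fun r => yy M v n₀ r₀ R H b r) ?_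
      intro r hr
      unfold yy
      rw [if_neg (fun h => hr h.1)]
    have h2 := Finset.sum_le_sum h1
    rw [← Finset.mul_sum, ← Finset.mul_sum] at h2
    refine h2.trans ?_
    apply mul_le_mul_of_nonneg_left _ (by positivity)
    rw [Finset.sum_add_distrib, ← Finset.mul_sum, ← Finset.mul_sum]
    apply add_le_add
    · apply mul_le_mul_of_nonneg_left _ hK0.le
      calc ∑ b ∈ Ioc B₁ B₂, ∑ r ∈ Ioc R (R + H), yy M v n₀ r₀ R H b r ^ 2
          ≤ ∑ b ∈ Ioc B₁ B₂, (H : ℝ) := by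
            refine Finset.sum_le_sum fun b _ => ?_
            calc ∑ r ∈ Ioc R (R + H), yy M v n₀ r₀ R H b r ^ 2 ≤ ∑ r ∈ Ioc R (R + H), (1 : ℝ) := by
                  refine Finset.sum_le_sum fun r _ => ?_
                  rw [← sq_abs]
                  have := core_yy_le M v n₀ r₀ R H b r
                  have h0 := abs_nonneg (yy M v n₀ r₀ R H b r)
                  nlinarith
              _ = H := by rw [Finset.sum_const, nsmul_eq_mul, mul_one, hcardR]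
        _ = ((Ioc B₁ B₂).card : ℝ) * H := by rw [Finset.sum_const, nsmul_eq_mul]
        _ ≤ 2 * C * N * H := mul_le_mul_of_nonneg_right hcardB hH0
    · apply mul_le_mul_of_nonneg_left _ (by norm_num)
      rw [Finset.sum_comm]
      calc ∑ h ∈ Ico 1 K, ∑ b ∈ Ioc B₁ B₂, ((K : ℝ) - h) * ∑ r ∈ Ioc R (R + H),
              yy M v n₀ r₀ R H b r * yy M v n₀ r₀ R H b (r + h)
          ≤ ∑ h ∈ Ico 1 K, (K * (δ * H * N) : ℝ) := by
            refine Finset.sum_le_sum fun h hh => ?_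
            rw [← Finset.mul_sum]
            have hh' := mem_Ico.1 hh
            have hhK : (h : ℝ) ≤ K := by exact_mod_cast hh'.2.le
            have hc := hcorr h hh
            have hh0 : (0 : ℝ) ≤ h := Nat.cast_nonneg h
            have hδHN : 0 ≤ δ * H * N := by positivity
            calc ((K : ℝ) - h) * ∑ b ∈ Ioc B₁ B₂, ∑ r ∈ Ioc R (R + H),
                  yy M v n₀ r₀ R H b r * yy M v n₀ r₀ R H b (r + h)
                ≤ ((K : ℝ) - h) * (δ * H * N) :=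
                  mul_le_mul_of_nonneg_left ((le_abs_self _).trans hc) (by linarith)
              _ ≤ K * (δ * H * N) := mul_le_mul_of_nonneg_right (by linarith) hδHN
        _ = ((Ico 1 K).card : ℝ) * (K * (δ * H * N)) := by rw [Finset.sum_const, nsmul_eq_mul]
        _ ≤ K * (K * (δ * H * N)) := by
            apply mul_le_mul_of_nonneg_right _ (by positivity)
            rw [Nat.card_Ico]
            exact_mod_cast Nat.sub_le K 1
  rw [hS]
  apply abs_le_of_sq_le_sq _ (by positivity)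
  have hsq : (∑ b ∈ Ioc B₁ B₂, gg M u b₀ b * s b) ^ 2 ≤ (2 * C * N) * ∑ b ∈ Ioc B₁ B₂, s b ^ 2 := by
    rw [← sq_abs]
    exact (pow_le_pow_left₀ (abs_nonneg _) hSabs 2).trans hCS
  have hK2 : (0 : ℝ) < K ^ 2 := by positivity
  have hfin : (K : ℝ) ^ 2 * (∑ b ∈ Ioc B₁ B₂, gg M u b₀ b * s b) ^ 2 ≤
      (K : ℝ) ^ 2 * (ε * H * N) ^ 2 := by
    have hCN : 0 ≤ 2 * C * N := by positivity
    have a1 : (K : ℝ) ^ 2 * (∑ b ∈ Ioc B₁ B₂, gg M u b₀ b * s b) ^ 2 ≤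
        (2 * C * N) * ((K : ℝ) ^ 2 * ∑ b ∈ Ioc B₁ B₂, s b ^ 2) := by
      have := mul_le_mul_of_nonneg_left hsq hK2.le
      linarith
    have a2 := mul_le_mul_of_nonneg_left hvdc hCN
    have a3 : (2 * C * N) * ((H + K) * (K * (2 * C * N * H) + 2 * (K * (K * (δ * H * N))))) ≤
        (2 * C * N) * ((H + H) * (K * (2 * C * N * H) + 2 * (K * (K * (δ * H * N))))) := by
      apply mul_le_mul_of_nonneg_left _ hCN
      apply mul_le_mul_of_nonneg_right (by linarith) (by positivity)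
    have a4 : (2 * C * N) * ((H + H) * (K * (2 * C * N * H) + 2 * (K * (K * (δ * H * N))))) =
        (H : ℝ) ^ 2 * N ^ 2 * (K * (16 * C ^ 2) + (K : ℝ) ^ 2 * (16 * C * δ)) / 2 := by
      ring
    have a5 : (H : ℝ) ^ 2 * N ^ 2 * (K * (16 * C ^ 2) + (K : ℝ) ^ 2 * (16 * C * δ)) / 2 ≤
        (K : ℝ) ^ 2 * (ε * H * N) ^ 2 := by
      rw [hδC]
      have b1 : K * (16 * C ^ 2) ≤ (K : ℝ) * (K * ε ^ 2) := mul_le_mul_of_nonneg_left hKε hK0.le
      have b2 : (H : ℝ) ^ 2 * N ^ 2 * (K * (16 * C ^ 2) + (K : ℝ) ^ 2 * ε ^ 2) ≤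
          (H : ℝ) ^ 2 * N ^ 2 * ((K : ℝ) * (K * ε ^ 2) + (K : ℝ) ^ 2 * ε ^ 2) :=
        mul_le_mul_of_nonneg_left (by linarith) (by positivity)
      nlinarith
    linarith
  exact le_of_mul_le_mul_left hfin hK2
-- END core

-- BEGIN region
theorem region_mob (n : ℤ) : |mob n| ≤ 1 := by
  unfold mob
  have h := ArithmeticFunction.abs_moebius_le_one (n := n.natAbs)
  exact_mod_cast h

theorem region_gg (M u : ℕ) (n₀ n : ℤ) : |gg M u n₀ n| ≤ 1 := by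
  unfold gg
  split_ifs
  · exact region_mob _
  · simp

theorem region_tm (M u v : ℕ) (b₀ n₀ r₀ r b : ℤ) : |tm M u v b₀ n₀ r₀ r b| ≤ 1 := by
  unfold tm
  split_ifs
  · rw [abs_mul]
    exact mul_le_one₀ (region_gg _ _ _ _) (abs_nonneg _) (region_gg _ _ _ _)
  · simp

theorem region_card (f : ℤ → ℝ) (hf : ∀ x, |f x| ≤ 1) (s : Finset ℤ) : |∑ x ∈ s, f x| ≤ s.card := by
  calc |∑ x ∈ s, f x| ≤ ∑ x ∈ s, |f x| := Finset.abs_sum_le_sum_abs _ _
    _ ≤ ∑ x ∈ s, (1 : ℝ) := Finset.sum_le_sum (fun x _ => hf x)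
    _ = s.card := by simp

theorem region_sd (a b a' b' : ℤ) :
    ((Ioc a b \ Ioc a' b').card : ℤ) ≤ max (a' - a) 0 + max (b - b') 0 := by
  have h : Ioc a b \ Ioc a' b' ⊆ Ioc a a' ∪ Ioc b' b := by
    intro x hx
    simp only [Finset.mem_sdiff, mem_union, mem_Ioc] at hx ⊢
    omega
  have h1 := (card_le_card h).trans (card_union_le _ _)
  have h2 : ((Ioc a b \ Ioc a' b').card : ℤ) ≤ (Ioc a a').card + (Ioc b' b).card := by
    exact_mod_cast h1
  rw [Int.card_Ioc, Int.card_Ioc, Int.toNat_eq_max, Int.toNat_eq_max] at h2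
  exact h2

theorem region_diff (f : ℤ → ℝ) (hf : ∀ x, |f x| ≤ 1) (a b a' b' : ℤ) :
    |∑ x ∈ Ioc a b, f x - ∑ x ∈ Ioc a' b', f x| ≤ |(a : ℝ) - a'| + |(b : ℝ) - b'| := by
  rw [← Finset.sum_sdiff_sub_sum_sdiff]
  have h1 := region_card f hf (Ioc a b \ Ioc a' b')
  have h2 := region_card f hf (Ioc a' b' \ Ioc a b)
  have h3 := region_sd a b a' b'
  have h4 := region_sd a' b' a b
  have h5 : ((Ioc a b \ Ioc a' b').card : ℤ) + (Ioc a' b' \ Ioc a b).card ≤ |a - a'| + |b - b'| := by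
    have e1 : max (a' - a) 0 + max (a - a') 0 = |a - a'| := by
      rcases le_total a a' with h | h
      · rw [abs_of_nonpos (by omega), max_eq_left (by omega), max_eq_right (by omega)]; omega
      · rw [abs_of_nonneg (by omega), max_eq_right (by omega), max_eq_left (by omega)]; omega
    have e2 : max (b - b') 0 + max (b' - b) 0 = |b - b'| := by
      rcases le_total b b' with h | h
      · rw [abs_of_nonpos (by omega), max_eq_right (by omega), max_eq_left (by omega)]; omega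
      · rw [abs_of_nonneg (by omega), max_eq_left (by omega), max_eq_right (by omega)]; omega
    omega
  have h6 : (((Ioc a b \ Ioc a' b').card : ℕ) : ℝ) + ((Ioc a' b' \ Ioc a b).card : ℕ) ≤
      |(a : ℝ) - a'| + |(b : ℝ) - b'| := by exact_mod_cast h5
  calc |∑ x ∈ Ioc a b \ Ioc a' b', f x - ∑ x ∈ Ioc a' b' \ Ioc a b, f x|
      ≤ |∑ x ∈ Ioc a b \ Ioc a' b', f x| + |∑ x ∈ Ioc a' b' \ Ioc a b, f x| := abs_sub _ _
    _ ≤ _ := by linarith

theorem region_split (f : ℤ → ℝ) (a b c : ℤ) (hab : a ≤ b) (hbc : b ≤ c) :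
    ∑ x ∈ Ioc a c, f x = ∑ x ∈ Ioc a b, f x + ∑ x ∈ Ioc b c, f x := by
  rw [← Finset.sum_union]
  · congr 1
    ext x
    simp only [mem_union, mem_Ioc]
    omega
  · rw [Finset.disjoint_left]
    intro x hx hx'
    rw [mem_Ioc] at hx hx'
    omega

theorem region_lip (R₁ R₂ : ℤ) (L : ℤ → ℤ) (D : ℝ)
    (h : ∀ r ∈ Ico R₁ R₂, |(L (r + 1) : ℝ) - L r| ≤ D) (R : ℤ) (hR : R₁ ≤ R) (k : ℕ) (hk : R + k ≤ R₂) :
    |(L (R + k) : ℝ) - L R| ≤ k * D := by
  induction k with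
  | zero => simp
  | succ k ih =>
    have h1 := ih (by push_cast at hk; omega)
    have h2 := h (R + k) (by rw [mem_Ico]; push_cast at hk; omega)
    have h3 : R + ((k + 1 : ℕ) : ℤ) = R + k + 1 := by push_cast; ring
    rw [h3]
    calc |(L (R + k + 1) : ℝ) - L R| = |((L (R + k + 1) : ℝ) - L (R + k)) + ((L (R + k) : ℝ) - L R)| := by
          congr 1; ring
      _ ≤ |(L (R + k + 1) : ℝ) - L (R + k)| + |(L (R + k) : ℝ) - L R| := abs_add_le _ _
      _ ≤ D + k * D := add_le_add h2 h1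
      _ = ((k + 1 : ℕ) : ℝ) * D := by push_cast; ring

theorem region_block (f : ℤ → ℤ → ℝ) (hf : ∀ r b, |f r b| ≤ 1) (R₁ R₂ : ℤ) (L U : ℤ → ℤ) (D E : ℝ)
    (hD : 0 ≤ D) (hL : ∀ r ∈ Ico R₁ R₂, |(L (r + 1) : ℝ) - L r| ≤ D ∧ |(U (r + 1) : ℝ) - U r| ≤ D)
    (R : ℤ) (H : ℕ) (hR : R₁ ≤ R) (hR2 : R + H ≤ R₂)
    (h : |∑ r ∈ Ioc R (R + H), ∑ b ∈ Ioc (L R) (U R), f r b| ≤ E) :
    |∑ r ∈ Ioc R (R + H), ∑ b ∈ Ioc (L r) (U r), f r b| ≤ E + H * (2 * H * D) := by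
  have h1 : ∀ r ∈ Ioc R (R + H),
      |∑ b ∈ Ioc (L r) (U r), f r b - ∑ b ∈ Ioc (L R) (U R), f r b| ≤ 2 * H * D := by
    intro r hr
    rw [mem_Ioc] at hr
    obtain ⟨k, rfl⟩ : ∃ k : ℕ, r = R + k := ⟨(r - R).toNat, by omega⟩
    have hk : k ≤ H := by omega
    have hkD : (k : ℝ) * D ≤ H * D := mul_le_mul_of_nonneg_right (by exact_mod_cast hk) hD
    have a1 := region_lip R₁ R₂ L D (fun r hr => (hL r hr).1) R hR k (by omega)
    have a2 := region_lip R₁ R₂ U D (fun r hr => (hL r hr).2) R hR k (by omega)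
    have a3 := region_diff (f (R + k)) (hf _) (L (R + k)) (U (R + k)) (L R) (U R)
    linarith
  have h2 : ∑ r ∈ Ioc R (R + H), ∑ b ∈ Ioc (L r) (U r), f r b =
      ∑ r ∈ Ioc R (R + H), ∑ b ∈ Ioc (L R) (U R), f r b +
      ∑ r ∈ Ioc R (R + H), (∑ b ∈ Ioc (L r) (U r), f r b - ∑ b ∈ Ioc (L R) (U R), f r b) := by
    rw [← Finset.sum_add_distrib]
    refine Finset.sum_congr rfl (fun r _ => by ring)
  have h3 : |∑ r ∈ Ioc R (R + H), (∑ b ∈ Ioc (L r) (U r), f r b - ∑ b ∈ Ioc (L R) (U R), f r b)| ≤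
      H * (2 * H * D) := by
    calc _ ≤ ∑ r ∈ Ioc R (R + H), |∑ b ∈ Ioc (L r) (U r), f r b - ∑ b ∈ Ioc (L R) (U R), f r b| :=
          Finset.abs_sum_le_sum_abs _ _
      _ ≤ ∑ r ∈ Ioc R (R + (H : ℤ)), 2 * H * D := Finset.sum_le_sum h1
      _ = H * (2 * H * D) := by
          rw [Finset.sum_const, Int.card_Ioc, nsmul_eq_mul]
          have : (R + (H : ℤ) - R).toNat = H := by omega
          rw [this]
  rw [h2]
  exact (abs_add_le _ _).trans (add_le_add h h3)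

/-- A7. Regions. Blocks `(R₁ + iH, R₁ + (i+1)H]` with the `H` of `core` (for `C' = 4 (C+1)²`, `ε' = ε / (8 (C + 1))`), `N = ⌈Y²⌉`; in a block
replace `L r, U r` by `L (R₁ + iH), U (R₁ + iH)`: error `≤ 2 H C Y` for each `r`; the last block trivially. -/
theorem region (M u v : ℕ) (hM : 0 < M) (hu : 0 < u) (hv : 0 < v) (b₀ n₀ r₀ : ℤ) (C : ℝ) (hC : 0 < C) (ε : ℝ) (hε : 0 < ε) :
    ∃ Y₀ : ℝ, ∀ Y : ℝ, Y₀ ≤ Y → ∀ (R₁ R₂ : ℤ) (L U : ℤ → ℤ), |(R₁ : ℝ)| ≤ C * Y → |(R₂ : ℝ)| ≤ C * Y →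
      (∀ r ∈ Icc R₁ R₂, |(L r : ℝ)| ≤ C * Y ^ 2 ∧ |(U r : ℝ)| ≤ C * Y ^ 2) →
      (∀ r ∈ Ico R₁ R₂, |(L (r + 1) : ℝ) - L r| ≤ C * Y ∧ |(U (r + 1) : ℝ) - U r| ≤ C * Y) →
      |∑ r ∈ Ioc R₁ R₂, ∑ b ∈ Ioc (L r) (U r), tm M u v b₀ n₀ r₀ r b| ≤ ε * Y ^ 3 := by
  obtain ⟨H₀, hH₀⟩ := core M u v hM hu hv b₀ n₀ r₀ ((C + 1) ^ 2) (by positivity)
    (ε / (8 * (C + 1))) (by positivity)
  set H := max H₀ 1 with hH
  have hH1 : 1 ≤ H := le_max_right _ _
  obtain ⟨N₀, hN₀⟩ := hH₀ H (le_max_left _ _)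
  have hH1' : (1 : ℝ) ≤ H := by exact_mod_cast hH1
  have hA1 : 0 ≤ 16 * C ^ 2 * H / ε := by positivity
  have hA2 : 0 ≤ 8 * C * H / ε := by positivity
  refine ⟨1 + 16 * C ^ 2 * H / ε + 8 * C * H / ε + N₀, ?_⟩
  intro Y hY R₁ R₂ L U hR₁ hR₂ hLU hLip
  have hN0 : (0 : ℝ) ≤ N₀ := Nat.cast_nonneg _
  have hY1 : 1 ≤ Y := by linarith
  have hY2 : 16 * C ^ 2 * H / ε ≤ Y := by linarith
  have hY3 : 8 * C * H / ε ≤ Y := by linarith
  have hY4 : (N₀ : ℝ) ≤ Y := by linarith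
  rw [div_le_iff₀ hε] at hY2 hY3
  have hY0 : 0 < Y := by linarith
  rcases lt_or_ge R₂ R₁ with hlt | hle
  · rw [Finset.Ioc_eq_empty (by omega)]
    simp only [Finset.sum_empty, abs_zero]
    positivity
  -- `N`
  obtain ⟨N, hN1, hN2⟩ : ∃ N : ℕ, Y ^ 2 ≤ N ∧ (N : ℝ) ≤ 2 * Y ^ 2 := by
    refine ⟨⌈Y ^ 2⌉₊, Nat.le_ceil _, ?_⟩
    have h1 := Nat.ceil_lt_add_one (a := Y ^ 2) (by positivity)
    nlinarith
  have hNN : N₀ ≤ N := by
    have : (N₀ : ℝ) ≤ N := by nlinarith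
    exact_mod_cast this
  have hcore := hN₀ N hNN
  have hCN : ∀ z : ℝ, |z| ≤ C * Y ^ 2 → |z| ≤ (C + 1) ^ 2 * N := by
    intro z hz
    have h1 : C * Y ^ 2 ≤ (C + 1) ^ 2 * Y ^ 2 := mul_le_mul_of_nonneg_right (by nlinarith) (by positivity)
    have h2 : (C + 1) ^ 2 * Y ^ 2 ≤ (C + 1) ^ 2 * N := mul_le_mul_of_nonneg_left hN1 (by positivity)
    linarith
  have hblock : ∀ R : ℤ, R₁ ≤ R → R + H ≤ R₂ →
      |∑ r ∈ Ioc R (R + H), ∑ b ∈ Ioc (L r) (U r), tm M u v b₀ n₀ r₀ r b| ≤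
        ε / (8 * (C + 1)) * H * N + H * (2 * H * (C * Y)) := by
    intro R hR hR2
    apply region_block _ (fun r b => region_tm M u v b₀ n₀ r₀ r b) R₁ R₂ L U (C * Y) _ (by positivity)
      hLip R H hR hR2
    have hRI : R ∈ Icc R₁ R₂ := by rw [mem_Icc]; omega
    refine hcore R (L R) (U R) ?_ (hCN _ (hLU R hRI).1) (hCN _ (hLU R hRI).2)
    have hRa : |(R : ℝ)| ≤ C * Y := by
      rw [abs_le] at hR₁ hR₂ ⊢
      have e1 : (R₁ : ℝ) ≤ R := by exact_mod_cast hR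
      have e2 : (R : ℝ) ≤ R₂ := by
        have : R ≤ R₂ := by omega
        exact_mod_cast this
      exact ⟨by linarith, by linarith⟩
    have e3 : (R : ℝ) ^ 2 ≤ (C * Y) ^ 2 := by
      rw [← sq_abs (R : ℝ)]
      exact pow_le_pow_left₀ (abs_nonneg _) hRa 2
    have e4 : (C * Y) ^ 2 ≤ (C + 1) ^ 2 * Y ^ 2 := by
      rw [mul_pow]
      exact mul_le_mul_of_nonneg_right (by nlinarith) (by positivity)
    have e5 : (C + 1) ^ 2 * Y ^ 2 ≤ (C + 1) ^ 2 * N := mul_le_mul_of_nonneg_left hN1 (by positivity)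
    linarith
  have hblocks : ∀ i : ℕ, R₁ + i * H ≤ R₂ →
      |∑ r ∈ Ioc R₁ (R₁ + i * H), ∑ b ∈ Ioc (L r) (U r), tm M u v b₀ n₀ r₀ r b| ≤
        i * (ε / (8 * (C + 1)) * H * N + H * (2 * H * (C * Y))) := by
    intro i
    induction i with
    | zero => intro _; simp
    | succ i ih =>
      intro hi
      have hiH : (0 : ℤ) ≤ (i : ℤ) * H := by positivity
      have e0 : R₁ + ((i + 1 : ℕ) : ℤ) * H = R₁ + i * H + H := by push_cast; ring
      rw [e0] at hi ⊢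
      have e1 := ih (by omega)
      have e2 := hblock (R₁ + i * H) (by omega) hi
      rw [region_split _ R₁ (R₁ + i * H) (R₁ + i * H + H) (by omega) (by omega)]
      calc _ ≤ _ := abs_add_le _ _
        _ ≤ _ := add_le_add e1 e2
        _ = _ := by push_cast; ring
  -- the number of blocks
  obtain ⟨I, hI1, hI2⟩ : ∃ I : ℕ, R₁ + I * H ≤ R₂ ∧ R₂ < R₁ + I * H + H := by
    refine ⟨((R₂ - R₁) / H).toNat, ?_, ?_⟩
    · have hq : 0 ≤ (R₂ - R₁) / H := Int.ediv_nonneg (by omega) (by omega)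
      rw [Int.toNat_of_nonneg hq]
      have := Int.ediv_mul_le (R₂ - R₁) (b := (H : ℤ)) (by omega)
      omega
    · have hq : 0 ≤ (R₂ - R₁) / H := Int.ediv_nonneg (by omega) (by omega)
      rw [Int.toNat_of_nonneg hq]
      have := Int.lt_ediv_add_one_mul_self (R₂ - R₁) (b := (H : ℤ)) (by omega)
      rw [add_mul, one_mul] at this
      omega
  have hIH : (0 : ℤ) ≤ (I : ℤ) * H := by positivity
  have hlast : |∑ r ∈ Ioc (R₁ + I * H) R₂, ∑ b ∈ Ioc (L r) (U r), tm M u v b₀ n₀ r₀ r b| ≤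
      H * (2 * (C * Y ^ 2)) := by
    calc _ ≤ ∑ r ∈ Ioc (R₁ + I * H) R₂, |∑ b ∈ Ioc (L r) (U r), tm M u v b₀ n₀ r₀ r b| :=
          Finset.abs_sum_le_sum_abs _ _
      _ ≤ ∑ r ∈ Ioc (R₁ + (I : ℤ) * H) R₂, 2 * (C * Y ^ 2) := by
          apply Finset.sum_le_sum
          intro r hr
          rw [mem_Ioc] at hr
          have hrI : r ∈ Icc R₁ R₂ := by rw [mem_Icc]; omega
          have h1 := region_diff (fun b => tm M u v b₀ n₀ r₀ r b) (fun b => region_tm _ _ _ _ _ _ _ _)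
            (L r) (U r) 0 0
          have h2 := hLU r hrI
          simp only [Finset.Ioc_self, Finset.sum_empty, Int.cast_zero, sub_zero] at h1
          linarith [h2.1, h2.2]
      _ = ((Ioc (R₁ + (I : ℤ) * H) R₂).card : ℝ) * (2 * (C * Y ^ 2)) := by
          rw [Finset.sum_const, nsmul_eq_mul]
      _ ≤ H * (2 * (C * Y ^ 2)) := by
          apply mul_le_mul_of_nonneg_right _ (by positivity)
          have : (Ioc (R₁ + (I : ℤ) * H) R₂).card ≤ H := by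
            rw [Int.card_Ioc]; omega
          exact_mod_cast this
  rw [region_split _ R₁ (R₁ + I * H) R₂ (by omega) hI1]
  have hmain := (abs_add_le (∑ r ∈ Ioc R₁ (R₁ + I * H), ∑ b ∈ Ioc (L r) (U r), tm M u v b₀ n₀ r₀ r b)
    (∑ r ∈ Ioc (R₁ + I * H) R₂, ∑ b ∈ Ioc (L r) (U r), tm M u v b₀ n₀ r₀ r b)).trans
      (add_le_add (hblocks I hI1) hlast)
  refine hmain.trans ?_
  have hIr : (I : ℝ) * H ≤ 2 * (C * Y) := by
    have e1 : ((I : ℤ) : ℝ) * ((H : ℤ) : ℝ) ≤ (R₂ : ℝ) - R₁ := by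
      have : (I : ℤ) * H ≤ R₂ - R₁ := by omega
      exact_mod_cast this
    rw [abs_le] at hR₁ hR₂
    simp only [Int.cast_natCast] at e1
    linarith
  have hI0 : (0 : ℝ) ≤ (I : ℝ) * H := by positivity
  have g1 : ε / (8 * (C + 1)) * ((I : ℝ) * H) * N ≤ ε / 2 * Y ^ 3 := by
    have k1 : ((I : ℝ) * H) * N ≤ (2 * (C * Y)) * (2 * Y ^ 2) :=
      mul_le_mul hIr hN2 (by positivity) (by positivity)
    have k2 : ε / (8 * (C + 1)) * (((I : ℝ) * H) * N) ≤ ε / (8 * (C + 1)) * ((2 * (C * Y)) * (2 * Y ^ 2)) :=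
      mul_le_mul_of_nonneg_left k1 (by positivity)
    have k3 : ε / (8 * (C + 1)) * ((2 * (C * Y)) * (2 * Y ^ 2)) = ε / 2 * Y ^ 3 * (C / (C + 1)) := by
      field_simp
      ring
    have k4 : C / (C + 1) ≤ 1 := by
      rw [div_le_one (by positivity)]
      linarith
    have k5 : ε / 2 * Y ^ 3 * (C / (C + 1)) ≤ ε / 2 * Y ^ 3 * 1 :=
      mul_le_mul_of_nonneg_left k4 (by positivity)
    calc ε / (8 * (C + 1)) * ((I : ℝ) * H) * N = ε / (8 * (C + 1)) * (((I : ℝ) * H) * N) := by ring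
      _ ≤ _ := by linarith
  have g2 : ((I : ℝ) * H) * (2 * H * (C * Y)) ≤ ε / 4 * Y ^ 3 := by
    have k1 : ((I : ℝ) * H) * (2 * H * (C * Y)) ≤ (2 * (C * Y)) * (2 * H * (C * Y)) :=
      mul_le_mul_of_nonneg_right hIr (by positivity)
    have k2 : (2 * (C * Y)) * (2 * H * (C * Y)) = (16 * C ^ 2 * H) * (Y ^ 2 / 4) := by ring
    have k3 : (16 * C ^ 2 * H) * (Y ^ 2 / 4) ≤ (Y * ε) * (Y ^ 2 / 4) :=
      mul_le_mul_of_nonneg_right hY2 (by positivity)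
    calc _ ≤ _ := k1
      _ = _ := k2
      _ ≤ _ := k3
      _ = _ := by ring
  have g3 : (H : ℝ) * (2 * (C * Y ^ 2)) ≤ ε / 4 * Y ^ 3 := by
    have k2 : (H : ℝ) * (2 * (C * Y ^ 2)) = (8 * C * H) * (Y ^ 2 / 4) := by ring
    have k3 : (8 * C * H) * (Y ^ 2 / 4) ≤ (Y * ε) * (Y ^ 2 / 4) :=
      mul_le_mul_of_nonneg_right hY3 (by positivity)
    calc _ = _ := k2
      _ ≤ _ := k3
      _ = _ := by ring
  calc _ = ε / (8 * (C + 1)) * ((I : ℝ) * H) * N + ((I : ℝ) * H) * (2 * H * (C * Y)) +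
        (H : ℝ) * (2 * (C * Y ^ 2)) := by ring
    _ ≤ ε / 2 * Y ^ 3 + ε / 4 * Y ^ 3 + ε / 4 * Y ^ 3 := by linarith
    _ = ε * Y ^ 3 := by ring
-- END region

end Rnt
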