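import Pool.Agent.Rnt.Ana
import Pool.Agent.Rnt.Loc
import Pool.Agent.Rnt.Cnt

/-!
# Rnt ASM: assembly
-/

set_option autoImplicit false

namespace Rnt

open Finset Filter Topology

open scoped Classical

/-- the positive and the negative range of `r` -/
noncomputable def rng (δ Y : ℝ) (s : Bool) : Finset ℤ :=
  if s then Ioc ⌈δ * Y⌉ ⌊Y⌋ else Ioc (-⌊Y⌋) (-⌈δ * Y⌉)

/-- the cells: sign of `r` (and `|r| ≥ δY`), sign pattern, residue classes -/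
noncomputable def Cell (M : ℕ) (A₀ r₀ : ℤ) (δ : ℝ) (t : Fin 3) (s : Bool) (Y : ℝ) : Finset (ℤ × ℤ) :=
  (Reg Y).filter (fun x => x.2 ∈ rng δ Y s ∧ pat t x.1 x.2 ∧ (M : ℤ) ∣ x.1 - A₀ ∧ (M : ℤ) ∣ x.2 - r₀)

-- BEGIN cell_sum
private theorem cell_sum_ends (δ Y : ℝ) (hδ : 0 < δ) (hδ1 : δ ≤ 1) (hY : 1 ≤ Y) (s : Bool) :
    ∃ R₁ R₂ : ℤ, rng δ Y s = Ioc R₁ R₂ ∧ |(R₁ : ℝ)| ≤ 20 / δ ^ 2 * Y ∧ |(R₂ : ℝ)| ≤ 20 / δ ^ 2 * Y ∧
      ∀ r ∈ Icc R₁ R₂, δ * Y ≤ |(r : ℝ)| ∧ |(r : ℝ)| ≤ Y := by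
  have hC : (20 : ℝ) ≤ 20 / δ ^ 2 := by
    rw [le_div_iff₀ (by positivity)]
    nlinarith
  have h20 : 20 * Y ≤ 20 / δ ^ 2 * Y := mul_le_mul_of_nonneg_right hC (by linarith)
  have hδY : 0 < δ * Y := by positivity
  have hδYY : δ * Y ≤ Y := by nlinarith
  have c1 : δ * Y ≤ (⌈δ * Y⌉ : ℝ) := Int.le_ceil _
  have c2 : (⌈δ * Y⌉ : ℝ) < δ * Y + 1 := Int.ceil_lt_add_one _
  have f1 : (⌊Y⌋ : ℝ) ≤ Y := Int.floor_le _
  have f2 : Y - 1 < (⌊Y⌋ : ℝ) := Int.sub_one_lt_floor _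
  cases s with
  | true =>
    refine ⟨⌈δ * Y⌉, ⌊Y⌋, by simp [rng], ?_, ?_, ?_⟩
    · rw [abs_le]; constructor <;> linarith
    · rw [abs_le]; constructor <;> linarith
    · intro r hr
      rw [mem_Icc] at hr
      have h1 : (⌈δ * Y⌉ : ℝ) ≤ r := by exact_mod_cast hr.1
      have h2 : (r : ℝ) ≤ ⌊Y⌋ := by exact_mod_cast hr.2
      rw [abs_of_pos (by linarith)]
      constructor <;> linarith
  | false =>
    refine ⟨-⌊Y⌋, -⌈δ * Y⌉, by simp [rng], ?_, ?_, ?_⟩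
    · push_cast; rw [abs_le]; constructor <;> linarith
    · push_cast; rw [abs_le]; constructor <;> linarith
    · intro r hr
      rw [mem_Icc] at hr
      have h1 : (-(⌊Y⌋ : ℝ)) ≤ r := by exact_mod_cast hr.1
      have h2 : (r : ℝ) ≤ -(⌈δ * Y⌉ : ℝ) := by exact_mod_cast hr.2
      rw [abs_of_neg (by linarith)]
      constructor <;> linarith

private theorem cell_sum_tm (M u v : ℕ) (huM : u ∣ M) (hvM : v ∣ M) (A₀ r₀ : ℤ)
    (hub : (u : ℤ) ∣ bb A₀ r₀) (hvc : (v : ℤ) ∣ cc A₀ r₀) (A r : ℤ) (hA : (M : ℤ) ∣ A - A₀) (hr : (M : ℤ) ∣ r - r₀) :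
    tm M u v (bb A₀ r₀) (cc A₀ r₀) r₀ r (bb A r) = mob (bb A r / u) * mob (cc A r / v) := by
  have huM' : (u : ℤ) ∣ M := by exact_mod_cast huM
  have hvM' : (v : ℤ) ∣ M := by exact_mod_cast hvM
  have hb : (M : ℤ) ∣ bb A r - bb A₀ r₀ := by
    have : bb A r - bb A₀ r₀ = (A - A₀) + (r - r₀) * (3 * (r + r₀)) := by unfold bb; ring
    rw [this]
    exact dvd_add hA (Dvd.dvd.mul_right hr _)
  have hc : (M : ℤ) ∣ cc A r - cc A₀ r₀ := by
    have : cc A r - cc A₀ r₀ = (A - A₀) * 4 + (r - r₀) * (3 * (r + r₀)) := by unfold cc; ring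
    rw [this]
    exact dvd_add (Dvd.dvd.mul_right hA _) (Dvd.dvd.mul_right hr _)
  have hub' : (u : ℤ) ∣ bb A r := by
    have := dvd_add (huM'.trans hb) hub
    rwa [sub_add_cancel] at this
  have hvc' : (v : ℤ) ∣ cc A r := by
    have := dvd_add (hvM'.trans hc) hvc
    rwa [sub_add_cancel] at this
  unfold tm gg
  rw [← cc_eq A r, if_pos hr, if_pos ⟨hub', hb⟩, if_pos ⟨hvc', hc⟩]

private theorem cell_sum_zero (M u v : ℕ) (A₀ r₀ r b : ℤ)
    (h : ¬ ((M : ℤ) ∣ r - r₀ ∧ (M : ℤ) ∣ b - bb A₀ r₀)) :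
    tm M u v (bb A₀ r₀) (cc A₀ r₀) r₀ r b = 0 := by
  unfold tm gg
  by_cases hr : (M : ℤ) ∣ r - r₀
  · have hb : ¬ (M : ℤ) ∣ b - bb A₀ r₀ := fun hb => h ⟨hr, hb⟩
    rw [if_pos hr, if_neg (fun h => hb h.2), zero_mul]
  · rw [if_neg hr]

/-- T1. `region` with `C = 20/δ²` (`≥ 1`), `L = lo Y t`, `U = hi Y t`, `b₀ = bb A₀ r₀`, `n₀ = cc A₀ r₀`, `R₁, R₂` the ends of `rng`; `(A, r) ↦ (r, bb A r)` is a bijection of `Cell` onto the pairs with
`r ∈ rng`, `b ∈ Ioc (lo) (hi)`, `M ∣ r - r₀`, `M ∣ b - b₀` (`lohi_mem`), and there `tm = mob (b/u) mob (c/v)`; the other terms `tm` are `0`. If `⌊Y⌋ < ⌈δY⌉` (only small `Y` or `δ ≥ 1`) the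
range is empty. -/
theorem cell_sum (M u v : ℕ) (hM : 0 < M) (hu : 0 < u) (hv : 0 < v) (huM : u ∣ M) (hvM : v ∣ M) (A₀ r₀ : ℤ)
    (hub : (u : ℤ) ∣ bb A₀ r₀) (hvc : (v : ℤ) ∣ cc A₀ r₀) (δ : ℝ) (hδ : 0 < δ) (hδ1 : δ ≤ 1) (ε : ℝ) (hε : 0 < ε) (t : Fin 3) (s : Bool) :
    ∃ Y₀ : ℝ, ∀ Y : ℝ, Y₀ ≤ Y →
      |∑ x ∈ Cell M A₀ r₀ δ t s Y, mob (bb x.1 x.2 / u) * mob (cc x.1 x.2 / v)| ≤ ε * Y ^ 3 := by
  have hC : (0 : ℝ) < 20 / δ ^ 2 := by positivity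
  obtain ⟨Y₀, h⟩ := region M u v hM hu hv (bb A₀ r₀) (cc A₀ r₀) r₀ (20 / δ ^ 2) hC ε hε
  refine ⟨max Y₀ 1, fun Y hY => ?_⟩
  have hY0 : Y₀ ≤ Y := le_trans (le_max_left _ _) hY
  have hY1 : 1 ≤ Y := le_trans (le_max_right _ _) hY
  obtain ⟨R₁, R₂, hR, hR1, hR2, hin⟩ := cell_sum_ends δ Y hδ hδ1 hY1 s
  have hne : ∀ r ∈ Ioc R₁ R₂, r ≠ 0 := by
    intro r hr h0
    have h1 := (hin r (Ioc_subset_Icc_self hr)).1
    rw [h0] at h1
    simp only [Int.cast_zero, abs_zero] at h1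
    have : 0 < δ * Y := by positivity
    linarith
  have key := h Y hY0 R₁ R₂ (lo Y t) (hi Y t) hR1 hR2
    (fun r hr => by
      obtain ⟨h1, h2⟩ := hin r hr
      obtain ⟨h3, h4⟩ := lohi_bd δ hδ hδ1 Y hY1 t r h1 h2
      have h5 : 10 / δ ^ 2 * Y ^ 2 ≤ 20 / δ ^ 2 * Y ^ 2 := by
        apply mul_le_mul_of_nonneg_right _ (by positivity)
        apply div_le_div_of_nonneg_right (by norm_num) (by positivity)
      exact ⟨h3.trans h5, h4.trans h5⟩)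
    (fun r hr => by
      rw [mem_Ico] at hr
      obtain ⟨h1, h2⟩ := hin r (mem_Icc.2 ⟨hr.1, hr.2.le⟩)
      obtain ⟨h3, h4⟩ := hin (r + 1) (mem_Icc.2 ⟨by linarith [hr.1], by linarith [hr.2]⟩)
      exact lohi_lip δ hδ hδ1 Y hY1 t r h1 h2 h3 h4)
  have e : ∑ x ∈ Cell M A₀ r₀ δ t s Y, mob (bb x.1 x.2 / u) * mob (cc x.1 x.2 / v) =
      ∑ r ∈ Ioc R₁ R₂, ∑ b ∈ Ioc (lo Y t r) (hi Y t r), tm M u v (bb A₀ r₀) (cc A₀ r₀) r₀ r b := by
    rw [Finset.sum_sigma']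
    rw [← Finset.sum_filter_add_sum_filter_not ((Ioc R₁ R₂).sigma fun r => Ioc (lo Y t r) (hi Y t r))
      (fun p => (M : ℤ) ∣ p.1 - r₀ ∧ (M : ℤ) ∣ p.2 - bb A₀ r₀)]
    have z : ∑ p ∈ ((Ioc R₁ R₂).sigma fun r => Ioc (lo Y t r) (hi Y t r)).filter
        (fun p => ¬ ((M : ℤ) ∣ p.1 - r₀ ∧ (M : ℤ) ∣ p.2 - bb A₀ r₀)),
        tm M u v (bb A₀ r₀) (cc A₀ r₀) r₀ p.1 p.2 = 0 := by
      apply Finset.sum_eq_zero
      intro p hp
      exact cell_sum_zero M u v A₀ r₀ p.1 p.2 (Finset.mem_filter.1 hp).2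
    rw [z, add_zero]
    refine Finset.sum_bij' (fun x _ => (⟨x.2, bb x.1 x.2⟩ : Σ _ : ℤ, ℤ)) (fun p _ => (p.2 - 3 * p.1 ^ 2, p.1)) ?_ ?_ ?_ ?_ ?_
    · intro x hx
      unfold Cell at hx
      rw [Finset.mem_filter, hR] at hx
      obtain ⟨hx1, hx2, hx3, hx4, hx5⟩ := hx
      have hmem := (lohi_mem Y hY1 t x.1 x.2 (hne _ hx2)).1 ⟨hx1, hx3⟩
      rw [Finset.mem_filter, Finset.mem_sigma]
      refine ⟨⟨hx2, hmem⟩, hx5, ?_⟩
      have : bb x.1 x.2 - bb A₀ r₀ = (x.1 - A₀) + (x.2 - r₀) * (3 * (x.2 + r₀)) := by unfold bb; ring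
      show (M : ℤ) ∣ bb x.1 x.2 - bb A₀ r₀
      rw [this]
      exact dvd_add hx4 (Dvd.dvd.mul_right hx5 _)
    · intro p hp
      rw [Finset.mem_filter, Finset.mem_sigma] at hp
      obtain ⟨⟨hp1, hp2⟩, hp3, hp4⟩ := hp
      have hbb : bb (p.2 - 3 * p.1 ^ 2) p.1 = p.2 := by unfold bb; ring
      have hmem := (lohi_mem Y hY1 t (p.2 - 3 * p.1 ^ 2) p.1 (hne _ hp1)).2 (by rw [hbb]; exact hp2)
      unfold Cell
      rw [Finset.mem_filter, hR]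
      refine ⟨hmem.1, hp1, hmem.2, ?_, hp3⟩
      have : p.2 - 3 * p.1 ^ 2 - A₀ = (p.2 - bb A₀ r₀) - (p.1 - r₀) * (3 * (p.1 + r₀)) := by unfold bb; ring
      show (M : ℤ) ∣ p.2 - 3 * p.1 ^ 2 - A₀
      rw [this]
      exact dvd_sub hp4 (Dvd.dvd.mul_right hp3 _)
    · intro x _
      have : bb x.1 x.2 - 3 * x.2 ^ 2 = x.1 := by unfold bb; ring
      show (bb x.1 x.2 - 3 * x.2 ^ 2, x.2) = x
      rw [this]
    · intro p _
      have hbb : bb (p.2 - 3 * p.1 ^ 2) p.1 = p.2 := by unfold bb; ring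
      show (⟨p.1, bb (p.2 - 3 * p.1 ^ 2) p.1⟩ : Σ _ : ℤ, ℤ) = p
      rw [hbb]
    · intro x hx
      unfold Cell at hx
      rw [Finset.mem_filter] at hx
      obtain ⟨_, _, _, hx4, hx5⟩ := hx
      exact (cell_sum_tm M u v huM hvM A₀ r₀ hub hvc x.1 x.2 hx4 hx5).symm
  rw [e]
  exact key
-- END cell_sum

variable (w2 : ℤ_[2] × ℤ_[2] → ℤ) (w3 : ℤ_[3] × ℤ_[3] → ℤ)

/-- the root number of minimal non singular pairs, else `0` -/
noncomputable def wm (x : ℤ × ℤ) : ℝ :=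
  if Minimal x.1 (BB x.1 x.2) ∧ disc x.1 (BB x.1 x.2) ≠ 0 then (rootNumber w2 w3 x.1 (BB x.1 x.2) : ℝ) else 0

-- BEGIN cell_bound
private theorem cell_bound_wm (w2 : ℤ_[2] × ℤ_[2] → ℤ) (w3 : ℤ_[3] × ℤ_[3] → ℤ) (h2 : LocalSign 2 w2) (h3 : LocalSign 3 w3)
    (x : ℤ × ℤ) : |wm w2 w3 x| ≤ 1 := by
  unfold wm
  split_ifs
  · rcases rn_pm w2 w3 h2 h3 x.1 (BB x.1 x.2) with h | h <;> rw [h] <;> norm_num
  · simp

private theorem cell_bound_mob (n : ℤ) : |mob n| ≤ 1 := by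
  unfold mob
  have h := ArithmeticFunction.abs_moebius_le_one (n := n.natAbs)
  exact_mod_cast h

private theorem cell_bound_pat (t : Fin 3) (A r A' r' : ℤ) (h : pat t A r) (h' : pat t A' r') :
    (bb A r).sign = (bb A' r').sign ∧ (cc A r).sign = (cc A' r').sign := by
  unfold pat at h h'
  rcases h with ⟨e, a, b⟩ | ⟨e, a, b⟩ | ⟨e, a, b⟩ <;>
    rcases h' with ⟨e', a', b'⟩ | ⟨e', a', b'⟩ | ⟨e', a', b'⟩ <;>
    first
    | (exfalso; rw [e] at e'; revert e'; decide)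
    | (constructor <;>
        simp only [Int.sign_eq_neg_one_of_neg, Int.sign_eq_one_of_pos, a, b, a', b'])

private theorem cell_bound_sign (δ Y : ℝ) (hδ : 0 < δ) (hY : 0 < Y) (s : Bool) (r : ℤ) (h : r ∈ rng δ Y s) :
    r.sign = if s then 1 else -1 := by
  have h0 : 0 < ⌈δ * Y⌉ := Int.ceil_pos.2 (by positivity)
  cases s with
  | true =>
    simp only [rng, if_true, mem_Ioc] at h
    rw [if_pos rfl]
    exact Int.sign_eq_one_of_pos (by linarith [h.1])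
  | false =>
    simp only [rng, Bool.false_eq_true, if_false, mem_Ioc] at h
    rw [if_neg (by decide)]
    exact Int.sign_eq_neg_one_of_neg (by linarith [h.2])

/-- T2. `M` from `ident`. If no pair of sign `s`, pattern `t` and class `(A₀, r₀)` is non exceptional, the sum is over exceptional pairs. Otherwise take such a pair `x*` (not depending on `Y`):
`u = sm T (bb x*) = sm T (bb x)` for all non exceptional `x` of the cell (`sm_congr` with `p^j ∣ PP T (3j+4) ∣ M`), `u ∣ M` (`sm_div`), `u ∣ bb A₀ r₀`; the same for `v`; by `ident`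
`wm x = Φ mob (bb x / u) mob (cc x / v)` for the non exceptional `x` of the cell, with a constant `|Φ| ≤ 1`; `cell_sum`; `|wm| ≤ 1`, `|mob| ≤ 1` for the exceptional ones. -/
theorem cell_bound (h2 : LocalSign 2 w2) (h3 : LocalSign 3 w3) (T j : ℕ) (hT : 5 ≤ T) (hj : 1 ≤ j) :
    ∃ M : ℕ, 0 < M ∧ ∀ (A₀ r₀ : ℤ) (δ : ℝ), 0 < δ → δ ≤ 1 → ∀ ε : ℝ, 0 < ε → ∀ (t : Fin 3) (s : Bool),
      ∃ Y₀ : ℝ, ∀ Y : ℝ, Y₀ ≤ Y →
        |∑ x ∈ Cell M A₀ r₀ δ t s Y, wm w2 w3 x| ≤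
          ε * Y ^ 3 + 2 * (((Cell M A₀ r₀ δ t s Y).filter (fun x => Exc T j x.1 x.2)).card : ℝ) := by
  obtain ⟨M, hM, hPM, hid⟩ := ident w2 w3 h2 h3 T j hT hj
  refine ⟨M, hM, ?_⟩
  intro A₀ r₀ δ hδ hδ1 ε hε t s
  have hwm := cell_bound_wm w2 w3 h2 h3
  by_cases hx : ∃ A r : ℤ, ¬ Exc T j A r ∧ (M : ℤ) ∣ A - A₀ ∧ (M : ℤ) ∣ r - r₀ ∧ pat t A r ∧
      r.sign = if s then 1 else -1
  · obtain ⟨A, r, hE, hA, hr, hpat, hs⟩ := hx
    -- the primes at most `T`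
    have hpow : ∀ p : ℕ, p.Prime → p ≤ T → p ^ j ∣ M := by
      intro p hp hpT
      refine dvd_trans ?_ hPM
      unfold PP
      refine dvd_trans (pow_dvd_pow p (show j ≤ 3 * j + 4 by omega)) ?_
      exact Finset.dvd_prod_of_mem (fun p => p ^ (3 * j + 4))
        (Finset.mem_filter.2 ⟨Finset.mem_range.2 (by omega), hp⟩)
    have hPP : PP T j ∣ M := by
      refine dvd_trans ?_ hPM
      unfold PP
      exact Finset.prod_dvd_prod_of_dvd _ _ (fun p _ => pow_dvd_pow p (by omega))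
    have hb0 : bb A r ≠ 0 := fun h => hE (Or.inr (Or.inl h))
    have hc0 : cc A r ≠ 0 := fun h => hE (Or.inr (Or.inr (Or.inl h)))
    have hEb : ∀ A r : ℤ, ¬ Exc T j A r → ∀ p : ℕ, p.Prime → p ≤ T → ¬ (p : ℤ) ^ j ∣ bb A r := by
      intro A r hE p hp hpT h
      exact hE (Or.inr (Or.inr (Or.inr (Or.inr ⟨p, hp, hpT, Or.inr (Or.inl h)⟩))))
    have hEc : ∀ A r : ℤ, ¬ Exc T j A r → ∀ p : ℕ, p.Prime → p ≤ T → ¬ (p : ℤ) ^ j ∣ cc A r := by
      intro A r hE p hp hpT h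
      exact hE (Or.inr (Or.inr (Or.inr (Or.inr ⟨p, hp, hpT, Or.inr (Or.inr h)⟩))))
    have hcongb : ∀ A' r' : ℤ, (M : ℤ) ∣ A' - A → (M : ℤ) ∣ r' - r → (M : ℤ) ∣ bb A' r' - bb A r := by
      intro A' r' h h'
      have : bb A' r' - bb A r = (A' - A) + (r' - r) * (3 * (r' + r)) := by unfold bb; ring
      rw [this]
      exact dvd_add h (Dvd.dvd.mul_right h' _)
    have hcongc : ∀ A' r' : ℤ, (M : ℤ) ∣ A' - A → (M : ℤ) ∣ r' - r → (M : ℤ) ∣ cc A' r' - cc A r := by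
      intro A' r' h h'
      have : cc A' r' - cc A r = (A' - A) * 4 + (r' - r) * (3 * (r' + r)) := by unfold cc; ring
      rw [this]
      exact dvd_add (Dvd.dvd.mul_right h _) (Dvd.dvd.mul_right h' _)
    have huM : sm T (bb A r) ∣ M := (sm_div T j (bb A r) hb0 (hEb A r hE)).trans hPP
    have hvM : sm T (cc A r) ∣ M := (sm_div T j (cc A r) hc0 (hEc A r hE)).trans hPP
    have huM' : ((sm T (bb A r) : ℕ) : ℤ) ∣ M := by exact_mod_cast huM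
    have hvM' : ((sm T (cc A r) : ℕ) : ℤ) ∣ M := by exact_mod_cast hvM
    have hA' : (M : ℤ) ∣ A₀ - A := by
      have := (dvd_neg (α := ℤ)).2 hA
      rwa [neg_sub] at this
    have hr' : (M : ℤ) ∣ r₀ - r := by
      have := (dvd_neg (α := ℤ)).2 hr
      rwa [neg_sub] at this
    have hub : ((sm T (bb A r) : ℕ) : ℤ) ∣ bb A₀ r₀ := by
      have := dvd_add (huM'.trans (hcongb A₀ r₀ hA' hr')) (sm_basic T (bb A r) hb0).2.1
      rwa [sub_add_cancel] at this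
    have hvc : ((sm T (cc A r) : ℕ) : ℤ) ∣ cc A₀ r₀ := by
      have := dvd_add (hvM'.trans (hcongc A₀ r₀ hA' hr')) (sm_basic T (cc A r) hc0).2.1
      rwa [sub_add_cancel] at this
    obtain ⟨Y₀, hY₀⟩ := cell_sum M (sm T (bb A r)) (sm T (cc A r)) hM (sm_basic T (bb A r) hb0).1
      (sm_basic T (cc A r) hc0).1 huM hvM A₀ r₀ hub hvc δ hδ hδ1 ε hε t s
    refine ⟨max Y₀ 1, fun Y hY => ?_⟩
    have hY0 : Y₀ ≤ Y := le_trans (le_max_left _ _) hY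
    have hY1 : 1 ≤ Y := le_trans (le_max_right _ _) hY
    have hsum := hY₀ Y hY0
    -- the constant
    obtain ⟨Φ, hΦ, hval⟩ : ∃ Φ : ℝ, |Φ| ≤ 1 ∧ ∀ x ∈ Cell M A₀ r₀ δ t s Y, ¬ Exc T j x.1 x.2 →
        wm w2 w3 x = Φ * (mob (bb x.1 x.2 / sm T (bb A r)) * mob (cc x.1 x.2 / sm T (cc A r))) := by
      refine ⟨if Minimal A (BB A r) then (rootNumber w2 w3 A (BB A r) : ℝ) * mob (bb A r / sm T (bb A r)) *
        mob (cc A r / sm T (cc A r)) else 0, ?_, ?_⟩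
      · split_ifs
        · rw [abs_mul, abs_mul]
          have e1 : |(rootNumber w2 w3 A (BB A r) : ℝ)| = 1 := by
            rcases rn_pm w2 w3 h2 h3 A (BB A r) with h | h <;> rw [h] <;> norm_num
          rw [e1, one_mul]
          exact mul_le_one₀ (cell_bound_mob _) (abs_nonneg _) (cell_bound_mob _)
        · simp
      · intro x hxC hxE
        unfold Cell at hxC
        rw [Finset.mem_filter] at hxC
        obtain ⟨_, hx2, hx3, hx4, hx5⟩ := hxC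
        have hxA : (M : ℤ) ∣ x.1 - A := by
          have := dvd_sub hx4 hA
          rwa [sub_sub_sub_cancel_right] at this
        have hxr : (M : ℤ) ∣ x.2 - r := by
          have := dvd_sub hx5 hr
          rwa [sub_sub_sub_cancel_right] at this
        have hsg : x.2.sign = r.sign := by
          rw [cell_bound_sign δ Y hδ (by linarith) s x.2 hx2, hs]
        obtain ⟨hsb, hsc⟩ := cell_bound_pat t x.1 x.2 A r hx3 hpat
        obtain ⟨k1, k2, k3, k4⟩ := hid x.1 x.2 A r hxE hE hxA hxr hsg hsb hsc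
        have eb : sm T (bb x.1 x.2) = sm T (bb A r) :=
          sm_congr T j M (fun p hp hpT => by exact_mod_cast hpow p hp hpT) _ _ (hcongb x.1 x.2 hxA hxr)
            (hEb x.1 x.2 hxE)
        have ec : sm T (cc x.1 x.2) = sm T (cc A r) :=
          sm_congr T j M (fun p hp hpT => by exact_mod_cast hpow p hp hpT) _ _ (hcongc x.1 x.2 hxA hxr)
            (hEc x.1 x.2 hxE)
        rw [eb, ec] at k2
        rw [eb] at k3
        rw [ec] at k4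
        have hd : disc x.1 (BB x.1 x.2) ≠ 0 := by
          rw [disc_BB]
          exact mul_ne_zero (pow_ne_zero 2 (fun h => hxE (Or.inr (Or.inl h))))
            (fun h => hxE (Or.inr (Or.inr (Or.inl h))))
        unfold wm
        by_cases hmin : Minimal x.1 (BB x.1 x.2)
        · rw [if_pos ⟨hmin, hd⟩, if_pos (k1.1 hmin), ← k2]
          have : (rootNumber w2 w3 x.1 (BB x.1 x.2) : ℝ) * mob (bb x.1 x.2 / sm T (bb A r)) *
              mob (cc x.1 x.2 / sm T (cc A r)) *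
              (mob (bb x.1 x.2 / sm T (bb A r)) * mob (cc x.1 x.2 / sm T (cc A r))) =
              (rootNumber w2 w3 x.1 (BB x.1 x.2) : ℝ) * (mob (bb x.1 x.2 / sm T (bb A r)) ^ 2 *
                mob (cc x.1 x.2 / sm T (cc A r)) ^ 2) := by ring
          rw [this, k3, k4, mul_one, mul_one]
        · rw [if_neg (fun h => hmin h.1), if_neg (fun h => hmin (k1.2 h)), zero_mul]
    -- the sum
    set g : ℤ × ℤ → ℝ := fun x => mob (bb x.1 x.2 / sm T (bb A r)) * mob (cc x.1 x.2 / sm T (cc A r)) with hg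
    have hg1 : ∀ x, |g x| ≤ 1 := by
      intro x
      rw [hg]
      simp only
      rw [abs_mul]
      exact mul_le_one₀ (cell_bound_mob _) (abs_nonneg _) (cell_bound_mob _)
    have e1 : ∑ x ∈ Cell M A₀ r₀ δ t s Y, wm w2 w3 x =
        Φ * ∑ x ∈ Cell M A₀ r₀ δ t s Y, g x + ∑ x ∈ Cell M A₀ r₀ δ t s Y, (wm w2 w3 x - Φ * g x) := by
      rw [Finset.mul_sum, ← Finset.sum_add_distrib]
      exact Finset.sum_congr rfl (fun x _ => by ring)
    have e2 : ∑ x ∈ Cell M A₀ r₀ δ t s Y, (wm w2 w3 x - Φ * g x) =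
        ∑ x ∈ (Cell M A₀ r₀ δ t s Y).filter (fun x => Exc T j x.1 x.2), (wm w2 w3 x - Φ * g x) := by
      rw [Finset.sum_filter_of_ne]
      intro x hx hne
      by_contra hE'
      exact hne (by rw [hval x hx hE', sub_self])
    rw [e1, e2]
    have b1 : |Φ * ∑ x ∈ Cell M A₀ r₀ δ t s Y, g x| ≤ ε * Y ^ 3 := by
      rw [abs_mul]
      calc |Φ| * |∑ x ∈ Cell M A₀ r₀ δ t s Y, g x| ≤ 1 * |∑ x ∈ Cell M A₀ r₀ δ t s Y, g x| :=
            mul_le_mul_of_nonneg_right hΦ (abs_nonneg _)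
        _ ≤ ε * Y ^ 3 := by rw [one_mul]; exact hsum
    have b2 : |∑ x ∈ (Cell M A₀ r₀ δ t s Y).filter (fun x => Exc T j x.1 x.2), (wm w2 w3 x - Φ * g x)| ≤
        2 * (((Cell M A₀ r₀ δ t s Y).filter (fun x => Exc T j x.1 x.2)).card : ℝ) := by
      refine (Finset.abs_sum_le_sum_abs _ _).trans ?_
      have : ∀ x ∈ (Cell M A₀ r₀ δ t s Y).filter (fun x => Exc T j x.1 x.2), |wm w2 w3 x - Φ * g x| ≤ 2 := by
        intro x _
        have h1 := hwm x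
        have h2' : |Φ * g x| ≤ 1 := by
          rw [abs_mul]
          exact mul_le_one₀ hΦ (abs_nonneg _) (hg1 x)
        have h3' := abs_sub (wm w2 w3 x) (Φ * g x)
        linarith
      have h5 := Finset.sum_le_card_nsmul _ _ _ this
      rw [nsmul_eq_mul] at h5
      linarith
    exact (abs_add_le _ _).trans (add_le_add b1 b2)
  · refine ⟨1, fun Y hY => ?_⟩
    have hall : ∀ x ∈ Cell M A₀ r₀ δ t s Y, Exc T j x.1 x.2 := by
      intro x hxC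
      by_contra hE
      unfold Cell at hxC
      rw [Finset.mem_filter] at hxC
      obtain ⟨_, hx2, hx3, hx4, hx5⟩ := hxC
      exact hx ⟨x.1, x.2, hE, hx4, hx5, hx3, cell_bound_sign δ Y hδ (by linarith) s x.2 hx2⟩
    rw [Finset.filter_true_of_mem hall]
    refine (Finset.abs_sum_le_sum_abs _ _).trans ?_
    have h5 := Finset.sum_le_card_nsmul (Cell M A₀ r₀ δ t s Y) (fun x => |wm w2 w3 x|) 1 (fun x _ => hwm x)
    rw [nsmul_eq_mul, mul_one] at h5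
    have h6 : 0 ≤ ε * Y ^ 3 := by positivity
    have h7 : (0 : ℝ) ≤ ((Cell M A₀ r₀ δ t s Y).card : ℝ) := Nat.cast_nonneg _
    linarith
-- END cell_bound

-- BEGIN small_r
/-- T3. At most `2⌈δY⌉ + 2` values of `r`, `|A| ≤ Y²`. -/
theorem small_r (δ : ℝ) (hδ : 0 < δ) (Y : ℝ) (hY : 1 ≤ Y) :
    (((Reg Y).filter (fun x => x.2 ∉ rng δ Y true ∧ x.2 ∉ rng δ Y false)).card : ℝ) ≤ 6 * δ * Y ^ 3 + 18 * Y ^ 2 := by
  have hY0 : 0 < Y := by linarith
  have hsub : (Reg Y).filter (fun x => x.2 ∉ rng δ Y true ∧ x.2 ∉ rng δ Y false) ⊆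
      (Icc (-⌊Y ^ 2⌋) ⌊Y ^ 2⌋) ×ˢ (insert (-⌊Y⌋) (Ioc (-⌈δ * Y⌉) ⌈δ * Y⌉)) := by
    intro x hx
    rw [mem_filter] at hx
    obtain ⟨hR, h1, h2⟩ := hx
    unfold Reg at hR
    rw [mem_filter, mem_product, mem_Icc, mem_Icc] at hR
    obtain ⟨⟨hA, hr⟩, -⟩ := hR
    have h1' : x.2 ∉ Ioc ⌈δ * Y⌉ ⌊Y⌋ := by
      intro h; exact h1 (by unfold rng; rw [if_pos rfl]; exact h)
    have h2' : x.2 ∉ Ioc (-⌊Y⌋) (-⌈δ * Y⌉) := by
      intro h; exact h2 (by unfold rng; rw [if_neg (by simp)]; exact h)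
    rw [mem_Ioc] at h1' h2'
    rw [mem_product, mem_Icc, mem_insert, mem_Ioc]
    refine ⟨hA, ?_⟩
    by_cases h3 : x.2 = -⌊Y⌋
    · exact Or.inl h3
    · right
      omega
  have hc := card_le_card hsub
  rw [card_product] at hc
  have hf0 : 0 ≤ ⌊Y ^ 2⌋ := Int.floor_nonneg.2 (by positivity)
  have hd0 : 0 ≤ ⌈δ * Y⌉ := Int.ceil_nonneg (by positivity)
  have e1 : ((Icc (-⌊Y ^ 2⌋) ⌊Y ^ 2⌋).card : ℝ) ≤ 3 * Y ^ 2 := by
    rw [Int.card_Icc]
    have h4 : (((⌊Y ^ 2⌋ + 1 - -⌊Y ^ 2⌋).toNat : ℕ) : ℝ) = 2 * (⌊Y ^ 2⌋ : ℝ) + 1 := by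
      have : (((⌊Y ^ 2⌋ + 1 - -⌊Y ^ 2⌋).toNat : ℕ) : ℤ) = 2 * ⌊Y ^ 2⌋ + 1 := by
        rw [Int.toNat_of_nonneg (by omega)]; ring
      exact_mod_cast this
    rw [h4]
    have h5 := Int.floor_le (Y ^ 2)
    nlinarith
  have e2 : ((insert (-⌊Y⌋) (Ioc (-⌈δ * Y⌉) ⌈δ * Y⌉)).card : ℝ) ≤ 2 * δ * Y + 3 := by
    have h6 : (insert (-⌊Y⌋) (Ioc (-⌈δ * Y⌉) ⌈δ * Y⌉)).card ≤ (Ioc (-⌈δ * Y⌉) ⌈δ * Y⌉).card + 1 :=
      card_insert_le _ _
    rw [Int.card_Ioc] at h6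
    have h7 : (((⌈δ * Y⌉ - -⌈δ * Y⌉).toNat : ℕ) : ℝ) = 2 * (⌈δ * Y⌉ : ℝ) := by
      have : (((⌈δ * Y⌉ - -⌈δ * Y⌉).toNat : ℕ) : ℤ) = 2 * ⌈δ * Y⌉ := by
        rw [Int.toNat_of_nonneg (by omega)]; ring
      exact_mod_cast this
    have h8 : ((insert (-⌊Y⌋) (Ioc (-⌈δ * Y⌉) ⌈δ * Y⌉)).card : ℝ) ≤
        (((⌈δ * Y⌉ - -⌈δ * Y⌉).toNat : ℕ) : ℝ) + 1 := by exact_mod_cast h6
    rw [h7] at h8
    have h9 := Int.ceil_lt_add_one (δ * Y)
    linarith
  have hc' : (((Reg Y).filter (fun x => x.2 ∉ rng δ Y true ∧ x.2 ∉ rng δ Y false)).card : ℝ) ≤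
      ((Icc (-⌊Y ^ 2⌋) ⌊Y ^ 2⌋).card : ℝ) * ((insert (-⌊Y⌋) (Ioc (-⌈δ * Y⌉) ⌈δ * Y⌉)).card : ℝ) := by
    exact_mod_cast hc
  refine hc'.trans ?_
  calc ((Icc (-⌊Y ^ 2⌋) ⌊Y ^ 2⌋).card : ℝ) * ((insert (-⌊Y⌋) (Ioc (-⌈δ * Y⌉) ⌈δ * Y⌉)).card : ℝ)
      ≤ (3 * Y ^ 2) * (2 * δ * Y + 3) := mul_le_mul e1 e2 (by positivity) (by positivity)
    _ = 6 * δ * Y ^ 3 + 9 * Y ^ 2 := by ring
    _ ≤ 6 * δ * Y ^ 3 + 18 * Y ^ 2 := by nlinarith [sq_nonneg Y]
-- END small_r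

-- BEGIN split
private theorem split_res (M : ℕ) (hM : 0 < M) (z : ℤ) : ∃ a ∈ range M, (M : ℤ) ∣ z - (a : ℤ) ∧
    ∀ a' ∈ range M, (M : ℤ) ∣ z - (a' : ℤ) → a' = a := by
  have hM' : (0 : ℤ) < M := by exact_mod_cast hM
  have h0 := Int.emod_nonneg z hM'.ne'
  have h1 := Int.emod_lt_of_pos z hM'
  have h2 : ((z % (M : ℤ)).toNat : ℤ) = z % M := Int.toNat_of_nonneg h0
  refine ⟨(z % (M : ℤ)).toNat, mem_range.2 (by omega), ?_, ?_⟩
  · rw [h2]
    exact ⟨z / M, by have := Int.emod_add_mul_ediv z M; linarith⟩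
  · intro a' ha' hd
    have h3 := mem_range.1 ha'
    have h4 : ((a' : ℤ)) % M = z % M := by
      apply Int.ModEq.symm
      exact (Int.modEq_iff_dvd.2 (by rw [← dvd_neg]; simpa using hd))
    have h5 : ((a' : ℤ)) % M = a' := Int.emod_eq_of_lt (by omega) (by omega)
    omega

private theorem split_pat (A r : ℤ) (h : disc A (BB A r) ≠ 0) :
    ∃ t : Fin 3, pat t A r ∧ ∀ t' : Fin 3, pat t' A r → t' = t := by
  have hb : bb A r ≠ 0 := by
    intro h0; apply h; rw [disc_BB, h0]; ring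
  have hc : cc A r ≠ 0 := by
    intro h0; apply h; rw [disc_BB, h0]; ring
  have hbc : bb A r < 0 → cc A r < 0 := by
    intro h0
    have := cc_eq A r
    nlinarith [sq_nonneg r]
  rcases lt_or_gt_of_ne hb with h1 | h1
  · refine ⟨0, Or.inl ⟨rfl, h1, hbc h1⟩, ?_⟩
    rintro t' (⟨h2, -, -⟩ | ⟨-, h3, -⟩ | ⟨-, h3, -⟩)
    · exact h2
    · omega
    · omega
  · rcases lt_or_gt_of_ne hc with h2 | h2
    · refine ⟨1, Or.inr (Or.inl ⟨rfl, h1, h2⟩), ?_⟩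
      rintro t' (⟨-, h3, -⟩ | ⟨h3, -, -⟩ | ⟨-, -, h3⟩)
      · omega
      · exact h3
      · omega
    · refine ⟨2, Or.inr (Or.inr ⟨rfl, h1, h2⟩), ?_⟩
      rintro t' (⟨-, h3, -⟩ | ⟨-, -, h3⟩ | ⟨h3, -, -⟩)
      · omega
      · omega
      · exact h3

private theorem split_rng (δ : ℝ) (hδ : 0 < δ) (Y : ℝ) (hY : 1 ≤ Y) (r : ℤ)
    (h1 : r ∈ rng δ Y true) (h2 : r ∈ rng δ Y false) : False := by
  simp only [rng, if_true, mem_Ioc, Bool.false_eq_true, if_false] at h1 h2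
  have h3 : 0 < ⌈δ * Y⌉ := Int.ceil_pos.2 (by positivity)
  omega

/-- T4. The pairs of `Reg Y` with `wm ≠ 0` and `r` in one of the ranges are in exactly one cell with `0 ≤ A₀, r₀ < M` (`bb, cc ≠ 0`, and `bb < 0` implies `cc < 0`). -/
theorem split (M : ℕ) (hM : 0 < M) (δ : ℝ) (hδ : 0 < δ) (Y : ℝ) (hY : 1 ≤ Y) (f : ℤ × ℤ → ℝ)
    (hf : ∀ x, disc x.1 (BB x.1 x.2) = 0 → f x = 0) :
    ∑ x ∈ Reg Y, f x = ∑ x ∈ (Reg Y).filter (fun x => x.2 ∉ rng δ Y true ∧ x.2 ∉ rng δ Y false), f x +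
      ∑ a ∈ range M, ∑ c ∈ range M, ∑ t : Fin 3, ∑ s : Bool, ∑ x ∈ Cell M a c δ t s Y, f x := by
  have key : ∀ x : ℤ × ℤ, f x = (if x.2 ∉ rng δ Y true ∧ x.2 ∉ rng δ Y false then f x else 0) +
      ∑ a ∈ range M, ∑ c ∈ range M, ∑ t : Fin 3, ∑ s : Bool,
        (if x.2 ∈ rng δ Y s ∧ pat t x.1 x.2 ∧ (M : ℤ) ∣ x.1 - (a : ℤ) ∧ (M : ℤ) ∣ x.2 - (c : ℤ)
          then f x else 0) := by
    intro x
    by_cases hd : disc x.1 (BB x.1 x.2) = 0
    · simp [hf x hd]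
    by_cases hr : x.2 ∉ rng δ Y true ∧ x.2 ∉ rng δ Y false
    · rw [if_pos hr]
      have hz : ∀ s : Bool, x.2 ∉ rng δ Y s := by
        intro s; cases s
        · exact hr.2
        · exact hr.1
      have : ∀ a ∈ range M, ∑ c ∈ range M, ∑ t : Fin 3, ∑ s : Bool,
        (if x.2 ∈ rng δ Y s ∧ pat t x.1 x.2 ∧ (M : ℤ) ∣ x.1 - (a : ℤ) ∧ (M : ℤ) ∣ x.2 - (c : ℤ)
          then f x else 0) = 0 := by
        intro a _
        apply Finset.sum_eq_zero; intro c _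
        apply Finset.sum_eq_zero; intro t _
        apply Finset.sum_eq_zero; intro s _
        exact if_neg (fun h => hz s h.1)
      rw [Finset.sum_eq_zero this, add_zero]
    · rw [if_neg hr, zero_add]
      obtain ⟨s0, hs0, hs1⟩ : ∃ s0 : Bool, x.2 ∈ rng δ Y s0 ∧ ∀ s, x.2 ∈ rng δ Y s → s = s0 := by
        by_cases h1 : x.2 ∈ rng δ Y true
        · refine ⟨true, h1, fun s hs => ?_⟩
          cases s
          · exact (split_rng δ hδ Y hY _ h1 hs).elim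
          · rfl
        · have h2 : x.2 ∈ rng δ Y false := by
            by_contra h2; exact hr ⟨h1, h2⟩
          refine ⟨false, h2, fun s hs => ?_⟩
          cases s
          · rfl
          · exact (h1 hs).elim
      obtain ⟨t0, ht0, ht1⟩ := split_pat x.1 x.2 hd
      obtain ⟨a0, ha0, ha1, ha2⟩ := split_res M hM x.1
      obtain ⟨c0, hc0, hc1, hc2⟩ := split_res M hM x.2
      rw [Finset.sum_eq_single_of_mem a0 ha0, Finset.sum_eq_single_of_mem c0 hc0,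
        Finset.sum_eq_single_of_mem t0 (mem_univ _), Finset.sum_eq_single_of_mem s0 (mem_univ _),
        if_pos ⟨hs0, ht0, ha1, hc1⟩]
      · intro s _ hne
        exact if_neg (fun h => hne (hs1 s h.1))
      · intro t _ hne
        apply Finset.sum_eq_zero; intro s _
        exact if_neg (fun h => hne (ht1 t h.2.1))
      · intro c hc hne
        apply Finset.sum_eq_zero; intro t _
        apply Finset.sum_eq_zero; intro s _
        exact if_neg (fun h => hne (hc2 c hc h.2.2.2))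
      · intro a ha hne
        apply Finset.sum_eq_zero; intro c _
        apply Finset.sum_eq_zero; intro t _
        apply Finset.sum_eq_zero; intro s _
        exact if_neg (fun h => hne (ha2 a ha h.2.2.1))
  rw [Finset.sum_congr rfl (fun x _ => key x), Finset.sum_add_distrib, Finset.sum_filter,
    Finset.sum_comm]
  congr 1
  apply Finset.sum_congr rfl; intro a _
  rw [Finset.sum_comm]
  apply Finset.sum_congr rfl; intro c _
  rw [Finset.sum_comm]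
  apply Finset.sum_congr rfl; intro t _
  rw [Finset.sum_comm]
  apply Finset.sum_congr rfl; intro s _
  rw [Cell, Finset.sum_filter]
-- END split

-- BEGIN main_sum
private theorem main_sum_abs (h2 : LocalSign 2 w2) (h3 : LocalSign 3 w3) (x : ℤ × ℤ) : |wm w2 w3 x| ≤ 1 := by
  unfold wm
  split_ifs
  · rcases rn_pm w2 w3 h2 h3 x.1 (BB x.1 x.2) with h | h
    · rw [h]
      norm_num
    · rw [h]
      norm_num
  · norm_num

private theorem main_sum_exc (M : ℕ) (hM : 0 < M) (δ : ℝ) (hδ : 0 < δ) (Y : ℝ) (hY : 1 ≤ Y) (T j : ℕ) :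
    ∑ a ∈ range M, ∑ c ∈ range M, ∑ t : Fin 3, ∑ s : Bool,
      (((Cell M a c δ t s Y).filter (fun x => Exc T j x.1 x.2)).card : ℝ) ≤
        (((Box Y).filter (fun x => Exc T j x.1 x.2)).card : ℝ) := by
  set g : ℤ × ℤ → ℝ := fun x => if disc x.1 (BB x.1 x.2) ≠ 0 ∧ Exc T j x.1 x.2 then 1 else 0 with hg
  have hg0 : ∀ x, 0 ≤ g x := by
    intro x
    rw [hg]
    dsimp only
    split_ifs <;> norm_num
  have h1 := split M hM δ hδ Y hY g (by
    intro x hx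
    rw [hg]
    dsimp only
    rw [if_neg]
    rintro ⟨h, -⟩
    exact h hx)
  have h2 : ∀ (a c : ℕ) (t : Fin 3) (s : Bool),
      (((Cell M a c δ t s Y).filter (fun x => Exc T j x.1 x.2)).card : ℝ) = ∑ x ∈ Cell M a c δ t s Y, g x := by
    intro a c t s
    have h3 : ∀ x ∈ Cell M a c δ t s Y, g x = if Exc T j x.1 x.2 then (1 : ℝ) else 0 := by
      intro x hx
      unfold Cell at hx
      have hp : pat t x.1 x.2 := (Finset.mem_filter.1 hx).2.2.1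
      have hd : disc x.1 (BB x.1 x.2) ≠ 0 := by
        rw [disc_BB]
        have hbc : bb x.1 x.2 ≠ 0 ∧ cc x.1 x.2 ≠ 0 := by
          unfold pat at hp
          rcases hp with ⟨-, h4, h5⟩ | ⟨-, h4, h5⟩ | ⟨-, h4, h5⟩
          · exact ⟨h4.ne, h5.ne⟩
          · exact ⟨h4.ne', h5.ne⟩
          · exact ⟨h4.ne', h5.ne'⟩
        exact mul_ne_zero (pow_ne_zero 2 hbc.1) hbc.2
      rw [hg]
      dsimp only
      by_cases he : Exc T j x.1 x.2
      · rw [if_pos ⟨hd, he⟩, if_pos he]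
      · rw [if_neg (fun h => he h.2), if_neg he]
    rw [Finset.sum_congr rfl h3, Finset.sum_boole]
  simp only [h2]
  have h4 : 0 ≤ ∑ x ∈ (Reg Y).filter (fun x => x.2 ∉ rng δ Y true ∧ x.2 ∉ rng δ Y false), g x :=
    Finset.sum_nonneg (fun x _ => hg0 x)
  have h5 : ∑ x ∈ Reg Y, g x ≤ (((Box Y).filter (fun x => Exc T j x.1 x.2)).card : ℝ) := by
    rw [hg, Finset.sum_boole]
    have h6 : (Reg Y).filter (fun x => disc x.1 (BB x.1 x.2) ≠ 0 ∧ Exc T j x.1 x.2) ⊆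
        (Box Y).filter (fun x => Exc T j x.1 x.2) := by
      intro x hx
      obtain ⟨h7, -, h8⟩ := Finset.mem_filter.1 hx
      refine Finset.mem_filter.2 ⟨?_, h8⟩
      unfold Reg at h7
      exact (Finset.mem_filter.1 h7).1
    exact_mod_cast Finset.card_le_card h6
  linarith

/-- T5. Given `ε`: `T`, then `j`, `δ` with `2 (18/T + 36T/2^j) ≤ ε/4`, `6δ ≤ ε/4`; `M` from `cell_bound`, applied with `ε / (48 M²)`; `split` with `f = wm`; the exceptional sets of the cells are disjoint subsets of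
the one of `exc_total` (`split` again with the indicator function of `Exc`, cut off at `disc ≠ 0`, or count directly). -/
theorem main_sum (h2 : LocalSign 2 w2) (h3 : LocalSign 3 w3) (ε : ℝ) (hε : 0 < ε) :
    ∃ Y₀ : ℝ, ∀ Y : ℝ, Y₀ ≤ Y → |∑ x ∈ PR Y, (rootNumber w2 w3 x.1 (BB x.1 x.2) : ℝ)| ≤ ε * Y ^ 3 := by
  obtain ⟨T₀, hT₀⟩ := exists_nat_ge (288 / ε)
  set T : ℕ := T₀ + 5 with hT
  have hT5 : 5 ≤ T := by omega
  have hTpos : (0 : ℝ) < T := by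
    have : 0 < T := by omega
    exact_mod_cast this
  have hTε : 2 * (18 / (T : ℝ)) ≤ ε / 8 := by
    have h4 : 288 / ε ≤ (T : ℝ) := by
      rw [hT]
      push_cast
      linarith
    rw [div_le_iff₀ hε] at h4
    rw [mul_div_assoc', div_le_iff₀ hTpos]
    linarith
  obtain ⟨j₀, hj₀⟩ := pow_unbounded_of_one_lt (576 * T / ε) (by norm_num : (1 : ℝ) < 2)
  set j : ℕ := j₀ + 1 with hj
  have hjε : 2 * (36 * T / (2 : ℝ) ^ j) ≤ ε / 8 := by
    have h4 : (2 : ℝ) ^ j₀ ≤ 2 ^ j := pow_le_pow_right₀ (by norm_num) (by omega)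
    have h5 : 576 * T / ε ≤ (2 : ℝ) ^ j := by linarith
    rw [div_le_iff₀ hε] at h5
    rw [mul_div_assoc', div_le_iff₀ (by positivity)]
    linarith
  set δ : ℝ := min 1 (ε / 48) with hδ
  have hδ0 : 0 < δ := lt_min one_pos (by positivity)
  have hδ1 : δ ≤ 1 := min_le_left _ _
  have hδε : 6 * δ ≤ ε / 8 := by
    have := min_le_right 1 (ε / 48)
    rw [← hδ] at this
    linarith
  obtain ⟨M, hM, hcell⟩ := cell_bound w2 w3 h2 h3 T j hT5 (by omega)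
  have hMR : (0 : ℝ) < M := by exact_mod_cast hM
  set e : ℝ := ε / (48 * M ^ 2) with he
  have he0 : 0 < e := by positivity
  have hev : ∀ᶠ Y : ℝ in atTop, ∀ a ∈ range M, ∀ c ∈ range M, ∀ (t : Fin 3) (s : Bool),
      |∑ x ∈ Cell M a c δ t s Y, wm w2 w3 x| ≤
        e * Y ^ 3 + 2 * (((Cell M a c δ t s Y).filter (fun x => Exc T j x.1 x.2)).card : ℝ) := by
    refine (Filter.eventually_all_finset _).2 fun a _ => (Filter.eventually_all_finset _).2 fun c _ =>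
      Filter.eventually_all.2 fun t => Filter.eventually_all.2 fun s => ?_
    obtain ⟨Y₀, hY₀⟩ := hcell a c δ hδ0 hδ1 e he0 t s
    exact Filter.eventually_atTop.2 ⟨Y₀, hY₀⟩
  obtain ⟨Y₁, hY₁⟩ := Filter.eventually_atTop.1 hev
  refine ⟨max Y₁ (max 1 (2 * (78 + 12 * T) / ε)), fun Y hY => ?_⟩
  have hYY1 : Y₁ ≤ Y := (le_max_left _ _).trans hY
  have hY1 : 1 ≤ Y := ((le_max_left _ _).trans (le_max_right _ _)).trans hY
  have hY2 : 2 * (78 + 12 * T) / ε ≤ Y := ((le_max_right _ _).trans (le_max_right _ _)).trans hY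
  have hY0 : 0 < Y := by linarith
  have hb := hY₁ Y hYY1
  have hsum : ∑ x ∈ PR Y, (rootNumber w2 w3 x.1 (BB x.1 x.2) : ℝ) = ∑ x ∈ Reg Y, wm w2 w3 x := by
    unfold PR
    rw [Finset.sum_filter]
    rfl
  have hsp := split M hM δ hδ0 Y hY1 (wm w2 w3) (by
    intro x hx
    unfold wm
    rw [if_neg]
    rintro ⟨-, h⟩
    exact h hx)
  rw [hsum, hsp]
  have hs1 : |∑ x ∈ (Reg Y).filter (fun x => x.2 ∉ rng δ Y true ∧ x.2 ∉ rng δ Y false), wm w2 w3 x| ≤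
      6 * δ * Y ^ 3 + 18 * Y ^ 2 := by
    refine (Finset.abs_sum_le_sum_abs _ _).trans ?_
    refine (Finset.sum_le_sum (fun x _ => main_sum_abs w2 w3 h2 h3 x)).trans ?_
    rw [Finset.sum_const, nsmul_eq_mul, mul_one]
    exact small_r δ hδ0 Y hY1
  have hs2 : |∑ a ∈ range M, ∑ c ∈ range M, ∑ t : Fin 3, ∑ s : Bool, ∑ x ∈ Cell M a c δ t s Y, wm w2 w3 x| ≤
      ∑ a ∈ range M, ∑ c ∈ range M, ∑ t : Fin 3, ∑ s : Bool,
        (e * Y ^ 3 + 2 * (((Cell M a c δ t s Y).filter (fun x => Exc T j x.1 x.2)).card : ℝ)) := by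
    refine (Finset.abs_sum_le_sum_abs _ _).trans (Finset.sum_le_sum fun a ha => ?_)
    refine (Finset.abs_sum_le_sum_abs _ _).trans (Finset.sum_le_sum fun c hc => ?_)
    refine (Finset.abs_sum_le_sum_abs _ _).trans (Finset.sum_le_sum fun t _ => ?_)
    refine (Finset.abs_sum_le_sum_abs _ _).trans (Finset.sum_le_sum fun s _ => ?_)
    exact hb a ha c hc t s
  have hs3 : ∑ a ∈ range M, ∑ c ∈ range M, ∑ t : Fin 3, ∑ s : Bool,
        (e * Y ^ 3 + 2 * (((Cell M a c δ t s Y).filter (fun x => Exc T j x.1 x.2)).card : ℝ)) =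
      6 * M ^ 2 * (e * Y ^ 3) + 2 * ∑ a ∈ range M, ∑ c ∈ range M, ∑ t : Fin 3, ∑ s : Bool,
        (((Cell M a c δ t s Y).filter (fun x => Exc T j x.1 x.2)).card : ℝ) := by
    simp only [Finset.sum_add_distrib, ← Finset.mul_sum, Finset.sum_const, Finset.card_univ, Fintype.card_bool,
      Fintype.card_fin, nsmul_eq_mul, Finset.card_range]
    push_cast
    ring
  have hs4 := main_sum_exc M hM δ hδ0 Y hY1 T j
  have hs5 := exc_total Y hY1 T j (by omega)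
  have hs6 : 6 * (M : ℝ) ^ 2 * (e * Y ^ 3) = ε / 8 * Y ^ 3 := by
    rw [he]
    field_simp
    ring
  have hY3 : 0 < Y ^ 3 := by positivity
  have hs7 : (78 + 12 * (T : ℝ)) * Y ^ 2 ≤ ε / 2 * Y ^ 3 := by
    rw [div_le_iff₀ hε] at hY2
    nlinarith [sq_nonneg Y]
  have hs8 : 2 * ((18 / (T : ℝ) + 36 * T / 2 ^ j) * Y ^ 3) ≤ ε / 4 * Y ^ 3 := by
    nlinarith
  have hs9 : 6 * δ * Y ^ 3 ≤ ε / 8 * Y ^ 3 := mul_le_mul_of_nonneg_right hδε hY3.le
  refine (abs_add_le _ _).trans ?_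
  rw [hs3] at hs2
  rw [hs6] at hs2
  linarith
-- END main_sum

-- BEGIN final
private theorem final_count (h2 : LocalSign 2 w2) (h3 : LocalSign 3 w3) (F : Finset (ℤ × ℤ)) :
    ∑ E ∈ F, (rootNumber w2 w3 E.1 E.2 : ℝ) =
      2 * ((F.filter (fun E => rootNumber w2 w3 E.1 E.2 = 1)).card : ℝ) - F.card := by
  have h1 : ∀ E ∈ F, (rootNumber w2 w3 E.1 E.2 : ℝ) =
      2 * (if rootNumber w2 w3 E.1 E.2 = 1 then (1 : ℝ) else 0) - 1 := by
    intro E _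
    rcases rn_pm w2 w3 h2 h3 E.1 E.2 with h | h
    · rw [if_pos h, h]
      norm_num
    · rw [if_neg (by rw [h]; norm_num), h]
      norm_num
  rw [Finset.sum_congr rfl h1, Finset.sum_sub_distrib, ← Finset.mul_sum, Finset.sum_boole,
    Finset.sum_const, nsmul_eq_mul, mul_one]

private theorem final_abs (h2 : LocalSign 2 w2) (h3 : LocalSign 3 w3) (A B : ℤ) :
    |(rootNumber w2 w3 A B : ℝ)| ≤ 1 := by
  rcases rn_pm w2 w3 h2 h3 A B with h | h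
  · rw [h]
    norm_num
  · rw [h]
    norm_num

/-- T6. `Y = X^(1/6)`. `#{w = 1} = (#F + ∑ w)/2` (`rn_pm`); `fam_sum` for `f = rootNumber` and `f = 1`; `main_sum`, `low`. -/
theorem final (h2 : LocalSign 2 w2) (h3 : LocalSign 3 w3) :
    Tendsto (fun X : ℝ => ({E ∈ Fam X | rootNumber w2 w3 E.1 E.2 = 1}.ncard : ℝ) / (Fam X).ncard) atTop (𝓝 (1 / 2)) := by
  rw [Metric.tendsto_atTop]
  intro ε hε
  set e : ℝ := ε / 64 with he
  have hepos : 0 < e := by positivity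
  obtain ⟨Y₁, hY₁⟩ := main_sum w2 w3 h2 h3 e hepos
  obtain ⟨Y₂, hY₂⟩ := low
  set Z : ℝ := max (max Y₁ Y₂) (max 384 (12 / e)) with hZ
  have hZ384 : 384 ≤ Z := (le_max_left _ _).trans (le_max_right _ _)
  refine ⟨Z ^ 6, fun X hX => ?_⟩
  have hZpos : (0 : ℝ) < Z := by linarith
  have hX0 : 0 < X := lt_of_lt_of_le (by positivity) hX
  set Y : ℝ := X ^ ((1 : ℝ) / 6) with hYdef
  have hYpos : 0 < Y := Real.rpow_pos_of_pos hX0 _
  have hY6 : Y ^ 6 = X := by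
    rw [hYdef, ← Real.rpow_natCast, ← Real.rpow_mul hX0.le]
    norm_num
  have hZY : Z ≤ Y := by
    rw [← hY6] at hX
    exact le_of_pow_le_pow_left₀ (by norm_num) hYpos.le hX
  have hYZ1 : Y₁ ≤ Y := ((le_max_left _ _).trans (le_max_left _ _)).trans hZY
  have hYZ2 : Y₂ ≤ Y := ((le_max_right _ _).trans (le_max_left _ _)).trans hZY
  have hY384 : 384 ≤ Y := hZ384.trans hZY
  have hYe : 12 / e ≤ Y := ((le_max_right _ _).trans (le_max_right _ _)).trans hZY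
  have hY1 : 1 ≤ Y := by linarith
  obtain ⟨F, hF, hsum⟩ := fam_sum Y hY1
  rw [hY6] at hF
  have hc1 : (Fam X).ncard = F.card := by
    rw [← hF, Set.ncard_coe_finset]
  have hc2 : {E ∈ Fam X | rootNumber w2 w3 E.1 E.2 = 1}.ncard =
      (F.filter (fun E => rootNumber w2 w3 E.1 E.2 = 1)).card := by
    rw [← Set.ncard_coe_finset]
    congr 1
    ext E
    rw [← hF]
    simp
  have hs1 := hsum (fun E => (rootNumber w2 w3 E.1 E.2 : ℝ)) (fun E => final_abs w2 w3 h2 h3 _ _)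
  have hs2 := hsum (fun _ => (1 : ℝ)) (fun E => by simp)
  have hs3 := hY₁ Y hYZ1
  have hs4 := hY₂ Y hYZ2
  rw [Finset.sum_const, Finset.sum_const, nsmul_eq_mul, nsmul_eq_mul, mul_one, mul_one] at hs2
  have hcnt := final_count w2 w3 h2 h3 F
  set P : ℝ := ∑ x ∈ PR Y, (rootNumber w2 w3 x.1 (BB x.1 x.2) : ℝ) with hP
  set S : ℝ := ∑ E ∈ F, (rootNumber w2 w3 E.1 E.2 : ℝ) with hS
  have hs1' : |S - P| ≤ 12 * Y ^ 2 := hs1
  have hY2 : 12 * Y ^ 2 ≤ Y ^ 3 / 32 := by nlinarith [sq_nonneg Y, hY384]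
  have hYe2 : 12 * Y ^ 2 ≤ e * Y ^ 3 := by
    have h5 : 12 ≤ e * Y := by
      rw [div_le_iff₀ hepos] at hYe
      linarith
    nlinarith [sq_nonneg Y]
  have hFlow : Y ^ 3 / 32 ≤ (F.card : ℝ) := by
    have h6 := (abs_le.1 hs2).1
    linarith
  have hSle : |S| ≤ 2 * e * Y ^ 3 := by
    have h7 : |S| ≤ |S - P| + |P| := by
      have h8 := abs_add_le (S - P) P
      rwa [sub_add_cancel] at h8
    linarith
  have hY3 : 0 < Y ^ 3 := by positivity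
  have hFpos : 0 < (F.card : ℝ) := lt_of_lt_of_le (by positivity) hFlow
  rw [hc1, hc2, Real.dist_eq]
  have hq : (((F.filter (fun E => rootNumber w2 w3 E.1 E.2 = 1)).card : ℝ)) / (F.card : ℝ) - 1 / 2 =
      S / (2 * F.card) := by
    rw [hcnt]
    field_simp
  rw [hq, abs_div, abs_of_pos (by positivity : (0 : ℝ) < 2 * F.card), div_lt_iff₀ (by positivity)]
  have h9 : 2 * e * Y ^ 3 < ε * (2 * (Y ^ 3 / 32)) := by
    rw [he]
    nlinarith
  have h10 : ε * (2 * (Y ^ 3 / 32)) ≤ ε * (2 * F.card) := by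
    apply mul_le_mul_of_nonneg_left _ hε.le
    linarith
  linarith
-- END final

end Rnt
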